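import Pool.Agent.Lib_MP_22d2c8_so.Defs

/-!
# CHOICE: the choice of a block and of the contents of the blocks before it

PROOF. For fixed `ζ` and `w` and `a` the predicate `Alive M U ζ a T w` is monotone in `T`, so at most one
`t : Fin N` has `Alive .. (t + 1) w ∧ ¬ Alive .. t w`. Let
`F t ζ = ∑ i ∈ range L, ∑ w, |fed w| * [flip at t] + L * ∑ w ∈ inps t, |fed w|`. Then
`∑ t, F t ζ ≤ L * wires + L * wires` (`∑ w, |fed w| = wires`, the sets `inps t` are disjoint). So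
`∑ (t, ζ), ∑ ω, F t (update ζ t ω) = |Ω| ∑ (t, ζ), F t ζ ≤ |Ω| |Ω| ^ N * 2 L wires
< ∑ (t, ζ), |Ω| 2 L c`, and some `(t, ζ)` has `∑ ω, F t (update ζ t ω) < |Ω| 2 L c`.
(`∑ ζ, ∑ ω, g (update ζ t ω) = |Ω| ∑ ζ, g ζ`: the map `(ζ, ω) ↦ (update ζ t ω, ζ t)` is a bijection.)
-/

namespace Pool.Agent.Lib_MP_22d2c8_so

open Finset
open Pool.Agent.Lib_MP_22d2c8_rsf (prob MProg)

private theorem alive_mono {N : ℕ} {V W Ω : Type} (M : MNet N V W) (U : Ω → Finset V)
    (ζ : Fin N → Ω) (a : ℕ) {T T' : ℕ} (h : T ≤ T') (w : W) (hA : Alive M U ζ a T w) :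
    Alive M U ζ a T' w := by
  obtain ⟨Z, h1, h2, h3⟩ := hA
  exact ⟨Z, h1, fun l hl => (h2 l hl).trans_le h, h3⟩

private theorem sum_update {N : ℕ} {Ω : Type} [Fintype Ω] (t : Fin N) (g : (Fin N → Ω) → ℝ) :
    ∑ ζ : Fin N → Ω, ∑ ω : Ω, g (Function.update ζ t ω) = Fintype.card Ω * ∑ ζ, g ζ := by
  classical
  let e : (Fin N → Ω) × Ω ≃ (Fin N → Ω) × Ω :=
    { toFun := fun q => (Function.update q.1 t q.2, q.1 t)
      invFun := fun q => (Function.update q.1 t q.2, q.1 t)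
      left_inv := fun q => by simp
      right_inv := fun q => by simp }
  have h1 : ∑ q : (Fin N → Ω) × Ω, g (Function.update q.1 t q.2) =
      ∑ q : (Fin N → Ω) × Ω, g q.1 :=
    Fintype.sum_equiv e _ _ fun q => rfl
  rw [Fintype.sum_prod_type, Fintype.sum_prod_type] at h1
  rw [h1, mul_sum]
  refine sum_congr rfl fun ζ _ => ?_
  simp only [sum_const, card_univ, nsmul_eq_mul]

/-- the indicator of a proposition -/
private noncomputable def ind (p : Prop) : ℝ := @ite ℝ p (Classical.propDecidable p) 1 0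

private theorem sum_ind {Ω : Type} [Fintype Ω] (p : Ω → Prop) [DecidablePred p] :
    ∑ ω, ind (p ω) = ((univ.filter p).card : ℝ) := by
  unfold ind
  rw [card_filter]
  push_cast
  refine sum_congr rfl fun ω _ => ?_
  by_cases h : p ω
  · rw [if_pos h, if_pos h]
  · rw [if_neg h, if_neg h]

private theorem prob_sum {Ω : Type} [Fintype Ω] (p : Ω → Prop) :
    prob p = (∑ ω, ind (p ω)) / Fintype.card Ω := by
  classical
  rw [Pool.Agent.Lib_MP_22d2c8_rsf.prob_eq, sum_ind]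

private theorem sum_flip_le {N : ℕ} {V W Ω : Type} (M : MNet N V W) (U : Ω → Finset V) (a : ℕ)
    (ζ : Fin N → Ω) (w : W) :
    ∑ t : Fin N, ind (Alive M U ζ a ((t : ℕ) + 1) w ∧ ¬ Alive M U ζ a (t : ℕ) w) ≤ 1 := by
  classical
  rw [sum_ind]
  refine Nat.cast_le_one.2 (card_le_one.2 fun t ht s hs => ?_)
  obtain ⟨-, h1, h2⟩ := mem_filter.1 ht
  obtain ⟨-, h3, h4⟩ := mem_filter.1 hs
  by_contra hne
  rcases lt_or_gt_of_ne hne with hlt | hlt
  · exact h4 (alive_mono M U ζ a (Nat.succ_le_of_lt (Fin.lt_def.1 hlt)) w h1)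
  · exact h2 (alive_mono M U ζ a (Nat.succ_le_of_lt (Fin.lt_def.1 hlt)) w h3)

private theorem sum_flipProb_le {N : ℕ} {V W Ω : Type} [Fintype Ω] [Nonempty Ω]
    (M : MNet N V W) (U : Ω → Finset V) (a : ℕ) (w : W) :
    ∑ t : Fin N, ∑ ζ : Fin N → Ω, flipProb M U ζ a t w ≤ (Fintype.card (Fin N → Ω) : ℝ) := by
  classical
  have hc : (0 : ℝ) < Fintype.card Ω := by exact_mod_cast Fintype.card_pos
  have h1 : ∀ t : Fin N, ∑ ζ : Fin N → Ω, flipProb M U ζ a t w =
      ∑ ζ : Fin N → Ω, ind (Alive M U ζ a ((t : ℕ) + 1) w ∧ ¬ Alive M U ζ a (t : ℕ) w) := by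
    intro t
    have h2 : ∀ ζ : Fin N → Ω, flipProb M U ζ a t w =
        (∑ ω : Ω, (fun ξ : Fin N → Ω =>
          ind (Alive M U ξ a ((t : ℕ) + 1) w ∧ ¬ Alive M U ξ a (t : ℕ) w))
            (Function.update ζ t ω)) / Fintype.card Ω := by
      intro ζ
      rw [flipProb, prob_sum]
    rw [sum_congr rfl fun ζ _ => h2 ζ, ← sum_div, sum_update t (fun ξ : Fin N → Ω =>
      ind (Alive M U ξ a ((t : ℕ) + 1) w ∧ ¬ Alive M U ξ a (t : ℕ) w)),
      mul_div_cancel_left₀ _ hc.ne']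
  rw [sum_congr rfl fun t _ => h1 t, sum_comm]
  calc ∑ ζ : Fin N → Ω, ∑ t : Fin N,
        ind (Alive M U ζ a ((t : ℕ) + 1) w ∧ ¬ Alive M U ζ a (t : ℕ) w)
      ≤ ∑ ζ : Fin N → Ω, (1 : ℝ) := sum_le_sum fun ζ _ => sum_flip_le M U a ζ w
    _ = (Fintype.card (Fin N → Ω) : ℝ) := by
        rw [sum_const, card_univ, nsmul_eq_mul, mul_one]

private theorem sum_fed {N : ℕ} {V W : Type} [Fintype W] (M : MNet N V W) :
    ∑ w, ((M.fed w).card : ℝ) = (M.wires : ℝ) := by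
  classical
  have h : ∑ w, (M.fed w).card = M.wires := by
    unfold MNet.wires MNet.fed
    have h1 : ∀ w, (univ.filter fun v => w ∈ (M.kind v).preds).card =
        ∑ v, if w ∈ (M.kind v).preds then 1 else 0 := fun w => by rw [card_filter]
    have h2 : ∀ v, (M.kind v).preds.card = ∑ w, if w ∈ (M.kind v).preds then 1 else 0 :=
      fun v => by rw [← card_filter]; congr 1; ext w; simp
    rw [sum_congr rfl fun w _ => h1 w, sum_comm, sum_congr rfl fun v _ => (h2 v).symm]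
  exact_mod_cast h

private theorem sum_inps_le {N : ℕ} {V W : Type} [Fintype W] (M : MNet N V W) (g : W → ℝ)
    (hg : ∀ w, 0 ≤ g w) : ∑ t : Fin N, ∑ w ∈ M.inps t, g w ≤ ∑ w, g w := by
  classical
  have h1 : ∀ t : Fin N, ∑ w ∈ M.inps t, g w = ∑ w, if M.InpOf t w then g w else 0 := by
    intro t
    unfold MNet.inps
    rw [sum_filter]
  rw [sum_congr rfl fun t _ => h1 t, sum_comm]
  refine sum_le_sum fun w _ => ?_
  rw [← sum_filter, sum_const, nsmul_eq_mul]
  have h2 : (univ.filter fun t : Fin N => M.InpOf t w).card ≤ 1 := by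
    refine card_le_one.2 fun t ht s hs => ?_
    obtain ⟨-, a, ha⟩ := mem_filter.1 ht
    obtain ⟨-, b, hb⟩ := mem_filter.1 hs
    rw [ha] at hb
    injection hb
  have h3 : (((univ.filter fun t : Fin N => M.InpOf t w).card : ℕ) : ℝ) ≤ 1 := by exact_mod_cast h2
  calc _ ≤ 1 * g w := mul_le_mul_of_nonneg_right h3 (hg w)
    _ = g w := one_mul _

theorem exists_choice {N : ℕ} {V W Ω : Type} [Fintype W] [DecidableEq W] [Fintype Ω] [Nonempty Ω]
    (M : MNet N V W) (U : Ω → Finset V) (α : ℕ → ℕ) (L c : ℕ) (hL : 1 ≤ L)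
    (hw : M.wires < c * N) :
    ∃ (t : Fin N) (ζ : Fin N → Ω),
      ∑ i ∈ range L, ∑ w, ((M.fed w).card : ℝ) * flipProb M U ζ (α i) t w +
        L * ∑ w ∈ M.inps t, ((M.fed w).card : ℝ) < 2 * L * c := by
  classical
  by_contra hcon
  push Not at hcon
  set P : ℝ := (Fintype.card (Fin N → Ω) : ℝ) with hP
  have hPpos : 0 < P := by
    rw [hP]
    exact_mod_cast Fintype.card_pos
  have h1 : ∑ t : Fin N, ∑ ζ : Fin N → Ω, (2 * (L : ℝ) * c) ≤
      ∑ t : Fin N, ∑ ζ : Fin N → Ω,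
        (∑ i ∈ range L, ∑ w, ((M.fed w).card : ℝ) * flipProb M U ζ (α i) t w +
          L * ∑ w ∈ M.inps t, ((M.fed w).card : ℝ)) :=
    sum_le_sum fun t _ => sum_le_sum fun ζ _ => hcon t ζ
  have h2 : ∑ t : Fin N, ∑ ζ : Fin N → Ω, (2 * (L : ℝ) * c) = N * (P * (2 * L * c)) := by
    simp only [sum_const, card_univ, nsmul_eq_mul, Fintype.card_fin, hP]
  have h3 : ∑ t : Fin N, ∑ ζ : Fin N → Ω,
      (∑ i ∈ range L, ∑ w, ((M.fed w).card : ℝ) * flipProb M U ζ (α i) t w +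
        L * ∑ w ∈ M.inps t, ((M.fed w).card : ℝ)) =
      (∑ i ∈ range L, ∑ w, ((M.fed w).card : ℝ) *
        ∑ t : Fin N, ∑ ζ : Fin N → Ω, flipProb M U ζ (α i) t w) +
      P * (L * ∑ t : Fin N, ∑ w ∈ M.inps t, ((M.fed w).card : ℝ)) := by
    have e1 : ∑ t : Fin N, ∑ ζ : Fin N → Ω, (L * ∑ w ∈ M.inps t, ((M.fed w).card : ℝ)) =
        P * (L * ∑ t : Fin N, ∑ w ∈ M.inps t, ((M.fed w).card : ℝ)) := by
      rw [mul_sum, mul_sum]
      refine sum_congr rfl fun t _ => ?_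
      rw [sum_const, card_univ, nsmul_eq_mul]
    have e2 : ∑ t : Fin N, ∑ ζ : Fin N → Ω,
        ∑ i ∈ range L, ∑ w, ((M.fed w).card : ℝ) * flipProb M U ζ (α i) t w =
        ∑ i ∈ range L, ∑ w, ((M.fed w).card : ℝ) *
          ∑ t : Fin N, ∑ ζ : Fin N → Ω, flipProb M U ζ (α i) t w := by
      calc ∑ t : Fin N, ∑ ζ : Fin N → Ω,
            ∑ i ∈ range L, ∑ w, ((M.fed w).card : ℝ) * flipProb M U ζ (α i) t w
          = ∑ t : Fin N, ∑ i ∈ range L, ∑ w, ((M.fed w).card : ℝ) *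
              ∑ ζ : Fin N → Ω, flipProb M U ζ (α i) t w := by
            refine sum_congr rfl fun t _ => ?_
            rw [sum_comm]
            refine sum_congr rfl fun i _ => ?_
            rw [sum_comm]
            refine sum_congr rfl fun w _ => ?_
            rw [mul_sum]
        _ = _ := by
            rw [sum_comm]
            refine sum_congr rfl fun i _ => ?_
            rw [sum_comm]
            refine sum_congr rfl fun w _ => ?_
            rw [mul_sum]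
    rw [← e1, ← e2, ← sum_add_distrib]
    refine sum_congr rfl fun t _ => ?_
    rw [← sum_add_distrib]
  have h4 : ∑ i ∈ range L, ∑ w, ((M.fed w).card : ℝ) *
      ∑ t : Fin N, ∑ ζ : Fin N → Ω, flipProb M U ζ (α i) t w ≤ L * (M.wires * P) := by
    calc _ ≤ ∑ i ∈ range L, ∑ w, ((M.fed w).card : ℝ) * P :=
          sum_le_sum fun i _ => sum_le_sum fun w _ =>
            mul_le_mul_of_nonneg_left (sum_flipProb_le M U (α i) w) (Nat.cast_nonneg _)
      _ = L * (M.wires * P) := by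
          rw [sum_const, card_range, nsmul_eq_mul, ← sum_mul, sum_fed]
  have h5 : ∑ t : Fin N, ∑ w ∈ M.inps t, ((M.fed w).card : ℝ) ≤ M.wires := by
    rw [← sum_fed]
    exact sum_inps_le M (fun w => ((M.fed w).card : ℝ)) fun w => Nat.cast_nonneg _
  rw [h2, h3] at h1
  have hL' : (1 : ℝ) ≤ L := by exact_mod_cast hL
  have hw' : (M.wires : ℝ) < c * N := by exact_mod_cast hw
  have h6 : P * (L * ∑ t : Fin N, ∑ w ∈ M.inps t, ((M.fed w).card : ℝ)) ≤
      P * (L * M.wires) :=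
    mul_le_mul_of_nonneg_left (mul_le_mul_of_nonneg_left h5 (by linarith)) hPpos.le
  have h7 : P * L * (2 * (c * N)) ≤ P * L * (2 * M.wires) := by nlinarith
  have h8 : 0 < P * L := mul_pos hPpos (by linarith)
  have h9 := le_of_mul_le_mul_left h7 h8
  linarith

end Pool.Agent.Lib_MP_22d2c8_so
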