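import Pool.Agent.Lib_MP_22d2c8_rsf.Basic
import Pool.Agent.Lib_MP_22d2c8_gen.Frozen

/-!
# One output: definitions

The function (`BlockPM`), circuits, ternary evaluation, hazards, and monotone networks over blocks of
variables.
-/

namespace Pool.Agent.Lib_MP_22d2c8_so

open Finset
open Pool.Agent.Lib_MP_22d2c8_gen (Op Circuit)
open Pool.Agent.Lib_MP_22d2c8_rsf (prob MProg)

/-! ### The function -/

/-- The position of the entry `(i, j)` of the block `r` of segment `m`. Segment `m` consists of the
positions from `n / (m + 1)` to `n / m - 1` (natural division). -/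
def pos (n m r i j : ℕ) : ℕ := n / (m + 1) + r * m ^ 2 + i * m + j

/-- The function: for some `m ≥ 1` some block of segment `m` (an `m` by `m` matrix of zeros and ones
which lies inside the segment) has a perfect matching. -/
def BlockPM (n : ℕ) (x : Fin n → Bool) : Prop :=
  ∃ m r : ℕ, 1 ≤ m ∧ n / (m + 1) + (r + 1) * m ^ 2 ≤ n / m ∧
    ∃ σ : Equiv.Perm (Fin m), ∀ i : Fin m, ∃ h : pos n m r i (σ i) < n,
      x ⟨pos n m r i (σ i), h⟩ = true

open Classical in
/-- The function as a Boolean function. -/
noncomputable def pmFun (n : ℕ) : (Fin n → Bool) → Bool := fun x => decide (BlockPM n x)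

/-! ### Circuits -/

/-- The number of wires into and-gates and or-gates. -/
def wires {n s : ℕ} (C : Circuit n s) : ℕ :=
  ∑ g ∈ univ.filter (fun g => (C.op g).isArb = false), (C.op g).preds.card

open Classical in
/-- The ternary value (Kleene) of a gate: `some b` is the stable value `b`, `none` is the unstable
value; the result is `some b` if the gate has the value `b` for all choices of the unstable
predecessors. -/
noncomputable def ternary {W : Type} (o : Op W) (a : W → Option Bool) : Option Bool :=
  if ∀ b : W → Bool, (∀ u ∈ o.preds, a u = none ∨ a u = some (b u)) → o.eval b = true then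
    some true
  else if ∀ b : W → Bool, (∀ u ∈ o.preds, a u = none ∨ a u = some (b u)) → o.eval b = false then
    some false
  else none

/-- `a` is the ternary evaluation of the circuit for the ternary input `x`. -/
def IsTernaryRun {n s : ℕ} (C : Circuit n s) (x : Fin n → Option Bool)
    (a : Fin n ⊕ Fin s → Option Bool) : Prop :=
  (∀ j, a (Sum.inl j) = x j) ∧ ∀ g, a (Sum.inr g) = ternary (C.op g) a

/-- The number of all wires which enter gates. -/
def allWires {n s : ℕ} (C : Circuit n s) : ℕ := ∑ g, (C.op g).preds.card

/-- The input `x` in which the variables of the set `S` are unstable. -/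
def unstableAt {n : ℕ} (x : Fin n → Bool) (S : Finset (Fin n)) : Fin n → Option Bool :=
  fun j => if j ∈ S then none else some (x j)

/-- The set `S` of inputs is a hazard at the input `x` of the circuit, which should compute `f`: `f`
has the value `f x` for all values of the variables in `S` (the other variables have their values in
`x`), but the ternary value of the output is unstable if the variables in `S` are unstable. -/
def IsHazardAt {n s : ℕ} (C : Circuit n s) (f : (Fin n → Bool) → Bool) (x : Fin n → Bool)
    (S : Finset (Fin n)) : Prop :=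
  (∀ y : Fin n → Bool, (∀ j, j ∉ S → y j = x j) → f y = f x) ∧
    ∃ a, IsTernaryRun C (unstableAt x S) a ∧ a C.out = none

/-- The number `2 ^ 2 ^ K ^ 22`. -/
def dd (K : ℕ) : ℕ := 2 ^ 2 ^ K ^ 22

/-! ### Monotone networks -/

/-- The kind of a vertex of a monotone network over `N` blocks of variables: the variable `a` of the
block `l`, an and-gate or an or-gate (with any number of predecessors; the constants are gates
without predecessors). -/
inductive Kind (N : ℕ) (V W : Type) where
  | inp (l : Fin N) (a : V) : Kind N V W
  | and (P : Finset W) : Kind N V W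
  | or (P : Finset W) : Kind N V W

/-- The predecessors. -/
def Kind.preds {N : ℕ} {V W : Type} : Kind N V W → Finset W
  | .inp _ _ => ∅
  | .and P => P
  | .or P => P

/-- A monotone network. -/
structure MNet (N : ℕ) (V W : Type) where
  /-- the kinds of the vertices -/
  kind : W → Kind N V W
  /-- a numbering which increases along the wires -/
  rank : W → ℕ
  /-- a numbering which increases along the wires -/
  rank_lt : ∀ w, ∀ u ∈ (kind w).preds, rank u < rank w

/-- The vertex `w` has value one if the vertices in `Λ` are replaced by zero, for the input `x`. -/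
inductive MNet.On {N : ℕ} {V W : Type} (M : MNet N V W) (Λ : Set W) (x : Fin N → Finset V) :
    W → Prop
  | inp (w : W) (l : Fin N) (a : V) : M.kind w = .inp l a → w ∉ Λ → a ∈ x l → MNet.On M Λ x w
  | and (w : W) (P : Finset W) : M.kind w = .and P → w ∉ Λ → (∀ u ∈ P, MNet.On M Λ x u) →
      MNet.On M Λ x w
  | or (w : W) (P : Finset W) (u : W) : M.kind w = .or P → w ∉ Λ → u ∈ P → MNet.On M Λ x u →
      MNet.On M Λ x w

/-- The number of wires. -/
def MNet.wires {N : ℕ} {V W : Type} [Fintype W] (M : MNet N V W) : ℕ :=
  ∑ w, (M.kind w).preds.card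

open Classical in
/-- The gates fed by a vertex. -/
noncomputable def MNet.fed {N : ℕ} {V W : Type} [Fintype W] (M : MNet N V W) (u : W) : Finset W :=
  univ.filter (fun w => u ∈ (M.kind w).preds)

/-- The vertex is a variable of the block `t`. -/
def MNet.InpOf {N : ℕ} {V W : Type} (M : MNet N V W) (t : Fin N) (w : W) : Prop :=
  ∃ a, M.kind w = .inp t a

open Classical in
/-- The variables of the block `t`. -/
noncomputable def MNet.inps {N : ℕ} {V W : Type} [Fintype W] (M : MNet N V W) (t : Fin N) :
    Finset W :=
  univ.filter (fun w => M.InpOf t w)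

/-- The blocks in `Z` are filled with the sets `U (ζ l)`, the others are empty. -/
def fill {N : ℕ} {V Ω : Type} (U : Ω → Finset V) (ζ : Fin N → Ω) (Z : Finset (Fin N)) :
    Fin N → Finset V :=
  fun l => if l ∈ Z then U (ζ l) else ∅

/-- The vertex has value one for some set of at most `a` filled blocks before `T`. -/
def Alive {N : ℕ} {V W Ω : Type} (M : MNet N V W) (U : Ω → Finset V) (ζ : Fin N → Ω) (a T : ℕ)
    (w : W) : Prop :=
  ∃ Z : Finset (Fin N), Z.card ≤ a ∧ (∀ l ∈ Z, (l : ℕ) < T) ∧ M.On ∅ (fill U ζ Z) w

/-- The probability (over the contents of block `t`) that the vertex becomes alive at `t`. -/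
noncomputable def flipProb {N : ℕ} {V W Ω : Type} [Fintype Ω] (M : MNet N V W)
    (U : Ω → Finset V) (ζ : Fin N → Ω) (a : ℕ) (t : Fin N) (w : W) : ℝ :=
  prob (fun ω : Ω => Alive M U (Function.update ζ t ω) a ((t : ℕ) + 1) w ∧
    ¬ Alive M U (Function.update ζ t ω) a (t : ℕ) w)

/-- The hardness of one block: monotone programs of length at most `s`. -/
def Hard {V ΩU ΩY : Type} [Fintype ΩU] [Fintype ΩY] (U : ΩU → Finset V) (Y : ΩY → Finset V)
    (s : ℕ) (K e : ℝ) : Prop :=
  ∀ l : List (Finset V → Prop), MProg V l → l.length ≤ s → ∀ g ∈ l,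
    prob (fun y : ΩY => g (Y y)) ≤ K * prob (fun ω : ΩU => g (U ω)) ^ 2 + e

/-- The number of gates which are fed by the core. -/
def fF (c : ℕ) : ℕ := 642 * c ^ 2

/-- The numbers of blocks of the levels. -/
def alpha (f : ℕ) : ℕ → ℕ
  | 0 => 1
  | i + 1 => f * alpha f i + 1

/-- The number of levels. -/
def lL (c : ℕ) : ℕ := 2 * (2 * fF c + 1) ^ (fF c + 1)

/-- The number of blocks which may be filled. -/
def jJ (c : ℕ) : ℕ := alpha (fF c) (lL c)

/-- The input with the contents `X r` of the blocks `r`, zero outside the blocks; `pl r a` is the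
place of the variable `a` of block `r`. -/
noncomputable def cfg {n N : ℕ} {V : Type} (pl : Fin N → V → Fin n) (X : Fin N → Finset V) :
    Fin n → Bool :=
  fun j => @decide (∃ r a, a ∈ X r ∧ pl r a = j) (Classical.propDecidable _)

end Pool.Agent.Lib_MP_22d2c8_so
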