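import Pool.Agent.Lib_MP_22d2c8_so.Net

/-!
# LEVEL: the status of a vertex at a level
-/

namespace Pool.Agent.Lib_MP_22d2c8_so

open Finset
open Pool.Agent.Lib_MP_22d2c8_rsf (prob MProg prob_mono prob_false prob_nonneg)

variable {N : ℕ} {V W Ω : Type} [Fintype Ω]

open Classical in
/-- The status of a vertex: `2` if it is alive before `t`, `1` if it becomes alive at `t` with
probability at least `ε`, otherwise `0`. -/
noncomputable def stat (M : MNet N V W) (U : Ω → Finset V) (ζ : Fin N → Ω) (ε : ℝ) (t : Fin N)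
    (a : ℕ) (w : W) : ℕ :=
  if Alive M U ζ a (t : ℕ) w then 2 else if ε ≤ flipProb M U ζ a t w then 1 else 0

section
variable {M : MNet N V W} {U : Ω → Finset V} {ζ : Fin N → Ω} {ε : ℝ} {t : Fin N} {a a' : ℕ}
  {w : W}

theorem stat_le_two : stat M U ζ ε t a w ≤ 2 := by
  unfold stat
  split_ifs <;> omega

theorem stat_two (h : Alive M U ζ a (t : ℕ) w) : stat M U ζ ε t a w = 2 := if_pos h

theorem alive_of_two (h : stat M U ζ ε t a w = 2) : Alive M U ζ a (t : ℕ) w := by
  unfold stat at h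
  split_ifs at h with h1 h2
  · exact h1
  all_goals omega

theorem stat_zero (h1 : ¬ Alive M U ζ a (t : ℕ) w) (h2 : flipProb M U ζ a t w < ε) :
    stat M U ζ ε t a w = 0 := by
  unfold stat
  rw [if_neg h1, if_neg (not_le.mpr h2)]

theorem of_stat_zero (h : stat M U ζ ε t a w = 0) :
    ¬ Alive M U ζ a (t : ℕ) w ∧ flipProb M U ζ a t w < ε := by
  unfold stat at h
  by_cases h1 : Alive M U ζ a (t : ℕ) w
  · rw [if_pos h1] at h
    omega
  · rw [if_neg h1] at h
    by_cases h2 : ε ≤ flipProb M U ζ a t w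
    · rw [if_pos h2] at h
      omega
    · exact ⟨h1, not_le.mp h2⟩

theorem of_stat_one (h : stat M U ζ ε t a w = 1) :
    ¬ Alive M U ζ a (t : ℕ) w ∧ ε ≤ flipProb M U ζ a t w := by
  unfold stat at h
  by_cases h1 : Alive M U ζ a (t : ℕ) w
  · rw [if_pos h1] at h
    omega
  · rw [if_neg h1] at h
    by_cases h2 : ε ≤ flipProb M U ζ a t w
    · exact ⟨h1, h2⟩
    · rw [if_neg h2] at h
      omega

/-- The comparison of two statuses. -/
theorem stat_le {w' : W} {a a' : ℕ} (h1 : Alive M U ζ a (t : ℕ) w → Alive M U ζ a' (t : ℕ) w')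
    (h2 : ∀ ζ', Alive M U ζ' a ((t : ℕ) + 1) w → Alive M U ζ' a' ((t : ℕ) + 1) w') :
    stat M U ζ ε t a w ≤ stat M U ζ ε t a' w' := by
  by_cases h3 : Alive M U ζ a' (t : ℕ) w'
  · rw [stat_two h3]
    exact stat_le_two
  · have h4 : ¬ Alive M U ζ a (t : ℕ) w := fun h => h3 (h1 h)
    have h5 : flipProb M U ζ a t w ≤ flipProb M U ζ a' t w' := by
      refine prob_mono fun ω hω => ?_
      refine ⟨h2 _ hω.1, ?_⟩
      rw [alive_update]
      exact h3
    unfold stat
    rw [if_neg h3, if_neg h4]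
    by_cases h6 : ε ≤ flipProb M U ζ a t w
    · rw [if_pos h6, if_pos (h6.trans h5)]
    · rw [if_neg h6]
      exact Nat.zero_le _

theorem stat_mono (h : a ≤ a') : stat M U ζ ε t a w ≤ stat M U ζ ε t a' w :=
  stat_le (alive_mono h le_rfl) (fun _ => alive_mono h le_rfl)

/-- An or-gate has at least the status of its predecessors. -/
theorem stat_or {P : Finset W} {u : W} (hk : M.kind w = .or P) (hu : u ∈ P) :
    stat M U ζ ε t a u ≤ stat M U ζ ε t a w := by
  have key : ∀ (ζ' : Fin N → Ω) (T : ℕ), Alive M U ζ' a T u → Alive M U ζ' a T w := by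
    rintro ζ' T ⟨Z, h1, h2, h3⟩
    exact ⟨Z, h1, h2, .or w P u hk (Set.notMem_empty _) hu h3⟩
  exact stat_le (key _ _) (fun ζ' => key ζ' _)

end

end Pool.Agent.Lib_MP_22d2c8_so
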