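import Pool.Agent.Lib_MP_22d2c8_so.Prog
import Pool.Agent.Lib_MP_22d2c8_so.Level

/-!
# END: the contradiction at a stable pair of levels
-/

namespace Pool.Agent.Lib_MP_22d2c8_so

open Finset
open Pool.Agent.Lib_MP_22d2c8_rsf

theorem exists_witness {N : ℕ} {V W Ω : Type} [Fintype Ω] {M : MNet N V W} {U : Ω → Finset V}
    {ζ : Fin N → Ω} {ε : ℝ} {t : Fin N} {a : ℕ} (B : Finset W) :
    ∃ Z' : Finset (Fin N), Z'.card ≤ B.card * a ∧ (∀ l ∈ Z', (l : ℕ) < t) ∧
      ∀ w ∈ B, stat M U ζ ε t a w = 2 → M.On ∅ (fill U ζ Z') w := by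
  classical
  have h : ∀ w, ∃ Z : Finset (Fin N), Z.card ≤ a ∧ (∀ l ∈ Z, (l : ℕ) < t) ∧
      (stat M U ζ ε t a w = 2 → M.On ∅ (fill U ζ Z) w) := by
    intro w
    by_cases h : stat M U ζ ε t a w = 2
    · obtain ⟨Z, h1, h2, h3⟩ := alive_of_two h
      exact ⟨Z, h1, h2, fun _ => h3⟩
    · exact ⟨∅, by simp, by simp, fun h' => absurd h' h⟩
  choose Z h1 h2 h3 using h
  refine ⟨B.biUnion Z, Finset.card_biUnion_le_card_mul _ _ _ (fun w _ => h1 w), ?_, ?_⟩
  · intro l hl
    obtain ⟨w, _, hw⟩ := Finset.mem_biUnion.mp hl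
    exact h2 w l hw
  · intro w hw h
    exact (h3 w h).mono (fill_mono (Finset.subset_biUnion_of_mem Z hw))

section
variable {N : ℕ} {V W Ω : Type} [Fintype W] [Fintype Ω] {M : MNet N V W} {U : Ω → Finset V}
  {ζ : Fin N → Ω} {ε : ℝ} {t : Fin N} {ai aj : ℕ} {R : Finset W} {Z' : Finset (Fin N)}

/-- Vertices which are one at the base are not late. -/
theorem base_keep (hZ1 : Z'.card ≤ aj) (hZ2 : ∀ l ∈ Z', (l : ℕ) < t) (v : W)
    (hv : M.On ∅ (fill U ζ Z') v) : v ∉ {w | stat M U ζ ε t aj w = 0} := by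
  intro h
  have h1 : stat M U ζ ε t aj v = 2 := stat_two ⟨Z', hZ1, hZ2, hv⟩
  have h2 : stat M U ζ ε t aj v = 0 := h
  omega

/-- The vertices outside `R` and block `t` are constant. -/
theorem const_outside
    (hst : ∀ w u, (u ∈ R ∨ M.InpOf t u) → u ∈ (M.kind w).preds →
      stat M U ζ ε t ai w = stat M U ζ ε t aj w ∧ (stat M U ζ ε t ai w = 1 → w ∈ R) ∧
        (stat M U ζ ε t ai w = 2 → M.On ∅ (fill U ζ Z') w))
    (hZ1 : Z'.card ≤ aj) (hZ2 : ∀ l ∈ Z', (l : ℕ) < t) (y : Finset V) {u : W}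
    (h : M.On {w | stat M U ζ ε t aj w = 0} (Function.update (fill U ζ Z') t y) u) :
    u ∉ R → ¬ M.InpOf t u → M.On {w | stat M U ζ ε t aj w = 0} (fill U ζ Z') u := by
  have key : ∀ w, w ∉ {w | stat M U ζ ε t aj w = 0} → w ∉ R →
      ∀ u, (u ∈ R ∨ M.InpOf t u) → u ∈ (M.kind w).preds →
        M.On {w | stat M U ζ ε t aj w = 0} (fill U ζ Z') w := by
    intro w hw hwR u hu huP
    obtain ⟨h1, h2, h3⟩ := hst w u hu huP
    have h4 : stat M U ζ ε t aj w ≠ 0 := hw
    have h5 : stat M U ζ ε t ai w ≠ 1 := fun h => hwR (h2 h)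
    have h6 : stat M U ζ ε t ai w ≤ 2 := stat_le_two
    exact (h3 (by omega)).keep (base_keep hZ1 hZ2)
  induction h with
  | inp w l a h1 h2 h3 =>
    intro _ hw
    have hl : l ≠ t := by
      rintro rfl
      exact hw ⟨a, h1⟩
    rw [Function.update_of_ne hl] at h3
    exact .inp w l a h1 h2 h3
  | and w P h1 h2 _ ih =>
    intro hwR _
    by_cases hex : ∃ u, (u ∈ R ∨ M.InpOf t u) ∧ u ∈ (M.kind w).preds
    · obtain ⟨u, hu, huP⟩ := hex
      exact key w h2 hwR u hu huP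
    · push Not at hex
      refine .and w P h1 h2 fun u hu => ?_
      have hno : ¬ (u ∈ R ∨ M.InpOf t u) := fun h => hex u h (by rw [h1]; exact hu)
      exact ih u hu (fun h => hno (Or.inl h)) (fun h => hno (Or.inr h))
  | or w P u h1 h2 h3 _ ih =>
    intro hwR _
    by_cases hex : ∃ u, (u ∈ R ∨ M.InpOf t u) ∧ u ∈ (M.kind w).preds
    · obtain ⟨u, hu, huP⟩ := hex
      exact key w h2 hwR u hu huP
    · push Not at hex
      have hno : ¬ (u ∈ R ∨ M.InpOf t u) := fun h => hex u h (by rw [h1]; exact h3)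
      exact .or w P u h1 h2 h3 (ih (fun h => hno (Or.inl h)) (fun h => hno (Or.inr h)))

end

open Classical in
/-- **The contradiction.** -/
theorem end_contra {N : ℕ} {V W ΩU ΩY : Type} [Fintype V] [Fintype W]
    [Fintype ΩU] [Nonempty ΩU] [Fintype ΩY] [Nonempty ΩY]
    (M : MNet N V W) (U : ΩU → Finset V) (Y : ΩY → Finset V) (ζ : Fin N → ΩU) (t : Fin N)
    {ε e : ℝ} {ai aj f J s : ℕ} (R B : Finset W) (hε : 0 < ε) (he : 0 ≤ e)
    (hR : R.card ≤ f) (hB : B.card ≤ f)
    (hBmem : ∀ w u, (u ∈ R ∨ M.InpOf t u) → u ∈ (M.kind w).preds → w ∈ B)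
    (hst : ∀ w ∈ B, stat M U ζ ε t ai w = stat M U ζ ε t aj w ∧
      (stat M U ζ ε t ai w = 1 → w ∈ R))
    (hdeg : ∀ (w : W) (F : Finset W), (∀ u ∈ F, u ∈ (M.kind w).preds ∧ (u ∈ R ∨ M.InpOf t u)) →
      F.card ≤ f)
    (hij : f * ai + 1 ≤ aj) (hJ : aj ≤ J)
    (Tg : Set W)
    (hneg : ∀ (ζ : Fin N → ΩU) (Z : Finset (Fin N)), Z.card ≤ J → ∀ w ∈ Tg,
        ¬ M.On ∅ (fill U ζ Z) w)
    (hpos : ∀ (ζ : Fin N → ΩU) (Z : Finset (Fin N)), Z.card ≤ J → ∀ k, k ∉ Z → ∀ y : ΩY,
        ∃ w ∈ Tg, M.On ∅ (Function.update (fill U ζ Z) k (Y y)) w)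
    (hard : Hard U Y s 10 e) (hs : (Fintype.card V + f + 2) ^ 2 ≤ s)
    (hnum : ((Fintype.card V : ℝ) + f) * (10 * ε ^ 2 + e) < 1) : False := by
  obtain ⟨Z', hZc, hZ2, hZ3⟩ := exists_witness (M := M) (U := U) (ζ := ζ) (ε := ε) (t := t)
    (a := ai) B
  have hZf : Z'.card ≤ f * ai := hZc.trans (Nat.mul_le_mul_right _ hB)
  have hZ1 : Z'.card ≤ aj := by omega
  have ht : t ∉ Z' := fun h => lt_irrefl _ (hZ2 t h)
  let Λ : Set W := {w | stat M U ζ ε t aj w = 0}
  let x0 : Fin N → Finset V := fill U ζ Z'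
  let D : W → Finset V → Prop := fun v y => ∀ u ∈ (M.kind v).preds,
    M.On Λ (Function.update x0 t y) u
  have hst' : ∀ w u, (u ∈ R ∨ M.InpOf t u) → u ∈ (M.kind w).preds →
      stat M U ζ ε t ai w = stat M U ζ ε t aj w ∧ (stat M U ζ ε t ai w = 1 → w ∈ R) ∧
        (stat M U ζ ε t ai w = 2 → M.On ∅ (fill U ζ Z') w) := by
    intro w u hu huP
    have hwB := hBmem w u hu huP
    exact ⟨(hst w hwB).1, (hst w hwB).2, hZ3 w hwB⟩
  have hconst := fun (y : Finset V) (u : W) => const_outside (u := u) hst' hZ1 hZ2 y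
  have hup : ∀ (y : Finset V) (l : Fin N), x0 l ⊆ Function.update x0 t y l := by
    intro y l
    by_cases hl : l = t
    · subst hl
      have : x0 l = ∅ := if_neg ht
      rw [this]
      exact Finset.empty_subset _
    · rw [Function.update_of_ne hl]
  have hs1 : 1 ≤ s := le_trans (Nat.one_le_pow _ _ (by omega)) hs
  -- the programs
  have hprog : ∀ w, prob (fun y : ΩY => D w (Y y)) ≤
      10 * prob (fun ω : ΩU => D w (U ω)) ^ 2 + e := by
    intro w
    obtain ⟨l, hl, hlen, hmem⟩ := exists_prog_and M Λ t x0 R f hR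
      (fun w => hdeg w _ fun u hu => Finset.mem_filter.mp hu)
      (fun u hu hu' y y' hy => (hconst y u hy hu hu').mono (hup y')) w
    exact hard l hl (hlen.trans hs) _ hmem
  have hvar : ∀ a : V, prob (fun y : ΩY => a ∈ Y y) ≤
      10 * prob (fun ω : ΩU => a ∈ U ω) ^ 2 + e := by
    intro a
    exact hard [fun x => a ∈ x] (MProg.var a [] MProg.nil) hs1 (fun x => a ∈ x)
      List.mem_cons_self
  -- a vertex which is one with the content `U ω` is alive
  have halive : ∀ (ω : ΩU) (v : W), M.On ∅ (Function.update x0 t (U ω)) v →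
      Alive M U (Function.update ζ t ω) aj ((t : ℕ) + 1) v := by
    intro ω v hv
    refine ⟨insert t Z', ?_, ?_, ?_⟩
    · rw [Finset.card_insert_of_notMem ht]
      omega
    · intro l hl
      rcases Finset.mem_insert.mp hl with rfl | hl
      · exact Nat.lt_succ_self _
      · exact (hZ2 l hl).trans (Nat.lt_succ_self _)
    · rw [fill_insert ω ht]
      exact hv
  -- the events
  let A' : Finset V := univ.filter (fun a => prob (fun ω : ΩU => a ∈ U ω) < ε)
  let B' : Finset W := B.filter (fun v => prob (fun ω : ΩU => D v (U ω)) < ε)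
  have hbad : ∀ y : ΩY, (∃ a ∈ A', a ∈ Y y) ∨ ∃ v ∈ B', D v (Y y) := by
    intro y
    obtain ⟨w, hwT, hw⟩ := hpos ζ Z' (hZ1.trans hJ) t ht y
    have hwΛ : w ∈ Λ := by
      refine stat_zero ?_ ?_
      · rintro ⟨Z, h1, _, h3⟩
        exact hneg ζ Z (h1.trans hJ) w hwT h3
      · have h0 : flipProb M U ζ aj t w = 0 := by
          refine prob_false ?_
          rintro ω ⟨⟨Z, h1, _, h3⟩, _⟩
          exact hneg _ Z (h1.trans hJ) w hwT h3
        rw [h0]
        exact hε
    rcases exists_crit (Λ := Λ) hw with h | ⟨v, hvΛ, hv⟩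
    · exact absurd hwΛ h.notMem
    have hv0 : stat M U ζ ε t aj v = 0 := hvΛ
    obtain ⟨hvn, hvq⟩ := of_stat_zero hv0
    rcases hv with ⟨l, a, hk, ha⟩ | ⟨P, hk, hP⟩ | ⟨P, u, hk, hu, hon⟩
    · -- an input
      by_cases hl : l = t
      · subst hl
        rw [Function.update_self] at ha
        left
        refine ⟨a, ?_, ha⟩
        rw [Finset.mem_filter]
        refine ⟨Finset.mem_univ _, lt_of_le_of_lt ?_ hvq⟩
        refine prob_mono fun ω hω => ⟨?_, ?_⟩
        · refine halive ω v (.inp v l a hk (Set.notMem_empty _) ?_)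
          rw [Function.update_self]
          exact hω
        · rw [alive_update]
          exact hvn
      · exfalso
        rw [Function.update_of_ne hl] at ha
        exact hvn ⟨Z', hZ1, hZ2, .inp v l a hk (Set.notMem_empty _) ha⟩
    · -- an and-gate
      right
      have hpre : (M.kind v).preds = P := by rw [hk]; rfl
      have hD : D v (Y y) := by
        intro u hu
        rw [hpre] at hu
        exact hP u hu
      refine ⟨v, ?_, hD⟩
      rw [Finset.mem_filter]
      constructor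
      · by_contra hvB
        apply hvn
        refine ⟨Z', hZ1, hZ2, .and v P hk (Set.notMem_empty _) fun u hu => ?_⟩
        have hno : ¬ (u ∈ R ∨ M.InpOf t u) := fun h => hvB (hBmem v u h (by rw [hpre]; exact hu))
        exact (hconst _ u (hP u hu) (fun h => hno (Or.inl h)) (fun h => hno (Or.inr h))).anti
          (Set.empty_subset _)
      · refine lt_of_le_of_lt ?_ hvq
        refine prob_mono fun ω hω => ⟨?_, ?_⟩
        · refine halive ω v (.and v P hk (Set.notMem_empty _) fun u hu => ?_)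
          exact (hω u (by rw [hpre]; exact hu)).anti (Set.empty_subset _)
        · rw [alive_update]
          exact hvn
    · -- an or-gate
      exfalso
      have h1 : stat M U ζ ε t aj u ≠ 0 := hon.notMem
      have h2 : stat M U ζ ε t aj u ≤ stat M U ζ ε t aj v := stat_or hk hu
      omega
  -- the count
  have hsq : ∀ p : ℝ, 0 ≤ p → p < ε → 10 * p ^ 2 + e ≤ 10 * ε ^ 2 + e := by
    intro p hp hpe
    have := pow_le_pow_left₀ hp hpe.le 2
    linarith
  have hnn : (0 : ℝ) ≤ 10 * ε ^ 2 + e := by positivity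
  have hone : prob (fun y : ΩY => (∃ a ∈ A', a ∈ Y y) ∨ ∃ v ∈ B', D v (Y y)) = 1 :=
    prob_true hbad
  have hA : prob (fun y : ΩY => ∃ a ∈ A', a ∈ Y y) ≤
      (Fintype.card V : ℝ) * (10 * ε ^ 2 + e) := by
    refine (prob_exists_le A' (fun a (y : ΩY) => a ∈ Y y)).trans ?_
    refine (Finset.sum_le_sum (fun a ha => (hvar a).trans
      (hsq _ (prob_nonneg _) (Finset.mem_filter.mp ha).2))).trans ?_
    rw [Finset.sum_const, nsmul_eq_mul]
    refine mul_le_mul_of_nonneg_right ?_ hnn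
    exact_mod_cast Finset.card_le_univ A'
  have hBb : prob (fun y : ΩY => ∃ v ∈ B', D v (Y y)) ≤ (f : ℝ) * (10 * ε ^ 2 + e) := by
    refine (prob_exists_le B' (fun v (y : ΩY) => D v (Y y))).trans ?_
    refine (Finset.sum_le_sum (fun v hv => (hprog v).trans
      (hsq _ (prob_nonneg _) (Finset.mem_filter.mp hv).2))).trans ?_
    rw [Finset.sum_const, nsmul_eq_mul]
    refine mul_le_mul_of_nonneg_right ?_ hnn
    exact_mod_cast (Finset.card_filter_le _ _).trans hB
  have htot := prob_or_le (fun y : ΩY => ∃ a ∈ A', a ∈ Y y) (fun y : ΩY => ∃ v ∈ B', D v (Y y))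
  rw [hone] at htot
  rw [add_mul] at hnum
  linarith

end Pool.Agent.Lib_MP_22d2c8_so
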