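import Pool.Agent.Lib_MP_22d2c8_so.Defs

/-!
# HARDNUMQ: the choice of the block size, explicit

As `HardNum.lean`; `m` is the smallest power of two which is at least `A`, `h` its logarithm and
`v = 17 h`: `8 ^ v = 2 ^ (51 h)` exceeds `2 ^ 37 (A m ^ 7) ^ 6 ≤ 2 ^ (37 + 48 h)` and
`2 ^ 28 (17 h) ^ 6 (h + 1) ^ 2 ≤ 2 ^ 55 h ^ 8 ≤ 2 ^ h`.
-/

namespace Pool.Agent.Lib_MP_22d2c8_so

private theorem hardnumq_step (h : ℕ) (hh : 128 ≤ h) : (h + 1) ^ 8 ≤ 2 * h ^ 8 := by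
  have e1 : (12 * (h + 1)) ^ 8 ≤ (13 * h) ^ 8 := Nat.pow_le_pow_left (by omega) 8
  have e2 : (12 * (h + 1)) ^ 8 = 12 ^ 8 * (h + 1) ^ 8 := mul_pow _ _ _
  have e3 : (13 * h) ^ 8 = 13 ^ 8 * h ^ 8 := mul_pow _ _ _
  rw [e2, e3] at e1
  obtain ⟨a, ha⟩ : ∃ a : ℕ, a = (h + 1) ^ 8 := ⟨_, rfl⟩
  obtain ⟨b, hb⟩ : ∃ b : ℕ, b = h ^ 8 := ⟨_, rfl⟩
  rw [← ha, ← hb] at e1 ⊢
  norm_num at e1
  omega

private theorem hardnumq_pow (h : ℕ) (hh : 128 ≤ h) : 2 ^ 55 * h ^ 8 ≤ 2 ^ h := by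
  induction h, hh using Nat.le_induction with
  | base => norm_num
  | succ n hn ih =>
    calc 2 ^ 55 * (n + 1) ^ 8 ≤ 2 ^ 55 * (2 * n ^ 8) := Nat.mul_le_mul_left _ (hardnumq_step n hn)
      _ = 2 * (2 ^ 55 * n ^ 8) := by ring
      _ ≤ 2 * 2 ^ n := Nat.mul_le_mul_left _ ih
      _ = 2 ^ (n + 1) := by ring

theorem exists_size_q : ∃ A0 : ℕ, ∀ A, A0 ≤ A →
    ∃ m v : ℕ, A ≤ m ∧ m ≤ 2 * A ∧ 1 ≤ v ∧ 2 ^ 28 * v ^ 6 * (Nat.log 2 m + 1) ^ 2 ≤ m ∧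
      ∀ x : ℝ, 0 ≤ x → x ≤ (((3 * fF (A * m ^ 7)) ^ 2 : ℕ) : ℝ) →
        10 * (x * (1 / 8 : ℝ) ^ v) ^ 2 + x * (1 / 8 : ℝ) ^ v ≤
          1 / (2000 * ((A * m ^ 7 : ℕ) : ℝ) ^ 2) := by
  refine ⟨2 ^ 128, fun A hA => ?_⟩
  have h128 : (2 : ℕ) ≤ 2 ^ 128 := by norm_num
  have hA2 : 2 ≤ A := h128.trans hA
  obtain ⟨h, hh⟩ : ∃ h : ℕ, h = Nat.clog 2 A := ⟨_, rfl⟩
  obtain ⟨m, hm⟩ : ∃ m : ℕ, m = 2 ^ h := ⟨_, rfl⟩
  have hAm : A ≤ m := by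
    rw [hm, hh]
    exact Nat.le_pow_clog (by norm_num) A
  have h1 : 128 ≤ h := by
    by_contra hc
    have e1 : m ≤ 2 ^ 127 := by
      rw [hm]
      exact Nat.pow_le_pow_right (by norm_num) (by omega)
    have e2 : (2 : ℕ) ^ 127 < 2 ^ 128 := by norm_num
    omega
  have hm2 : m ≤ 2 * A := by
    have e1 : 2 ^ (Nat.clog 2 A).pred < A := Nat.pow_pred_clog_lt_self (by norm_num) (by omega)
    rw [← hh] at e1
    have e2 : m = 2 * 2 ^ h.pred := by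
      rw [hm, ← pow_succ']
      congr 1
      rw [Nat.pred_eq_sub_one]
      omega
    omega
  have hm1 : 1 ≤ m := by omega
  have hlog : Nat.log 2 m = h := by rw [hm]; exact Nat.log_pow (by norm_num) h
  refine ⟨m, 17 * h, hAm, hm2, by omega, ?_, ?_⟩
  · rw [hlog]
    have e1 : (h + 1) ^ 2 ≤ (2 * h) ^ 2 := Nat.pow_le_pow_left (by omega) 2
    have e2 : 2 ^ 28 * (17 * h) ^ 6 * (h + 1) ^ 2 ≤ 2 ^ 28 * (17 * h) ^ 6 * (2 * h) ^ 2 :=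
      Nat.mul_le_mul_left _ e1
    refine e2.trans ?_
    have e3 : 2 ^ 28 * (17 * h) ^ 6 * (2 * h) ^ 2 = 2 ^ 30 * 17 ^ 6 * h ^ 8 := by ring
    have e4 : 2 ^ 30 * 17 ^ 6 * h ^ 8 ≤ 2 ^ 55 * h ^ 8 :=
      Nat.mul_le_mul_right _ (by norm_num)
    rw [e3, hm]
    exact e4.trans (hardnumq_pow h h1)
  · intro x hx0 hx
    obtain ⟨c, hc⟩ : ∃ c : ℕ, c = A * m ^ 7 := ⟨_, rfl⟩
    rw [← hc] at hx ⊢
    have hc1 : 1 ≤ c := by
      rw [hc]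
      exact Nat.one_le_iff_ne_zero.2 (Nat.mul_ne_zero (by omega) (pow_ne_zero _ (by omega)))
    have hcm : c ≤ 2 ^ (h * 8) := by
      rw [pow_mul, ← hm, hc, pow_succ m 7, mul_comm A]
      exact Nat.mul_le_mul_left _ hAm
    have hP : 81608472000 * c ^ 6 ≤ 8 ^ (17 * h) := by
      have e1 : c ^ 6 ≤ 2 ^ (h * 8 * 6) := by
        rw [pow_mul]
        exact Nat.pow_le_pow_left hcm 6
      have e2 : 81608472000 * c ^ 6 ≤ 2 ^ 37 * 2 ^ (h * 8 * 6) :=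
        Nat.mul_le_mul (by norm_num) e1
      refine e2.trans ?_
      have e3 : (8 : ℕ) ^ (17 * h) = 2 ^ (3 * (17 * h)) := by
        rw [pow_mul 2 3]
        norm_num
      rw [e3, ← pow_add]
      exact Nat.pow_le_pow_right (by norm_num) (by omega)
    have hPR : (81608472000 : ℝ) * (c : ℝ) ^ 6 ≤ 8 ^ (17 * h) := by exact_mod_cast hP
    have hcR : (1 : ℝ) ≤ (c : ℝ) := by exact_mod_cast hc1
    have hxx : x ≤ 3709476 * (c : ℝ) ^ 4 := by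
      refine hx.trans (le_of_eq ?_)
      unfold fF
      push_cast
      ring
    have hy0 : 0 ≤ x * (1 / 8 : ℝ) ^ (17 * h) := by positivity
    have hy : x * (1 / 8 : ℝ) ^ (17 * h) ≤ 1 / (22000 * (c : ℝ) ^ 2) := by
      rw [one_div_pow, mul_one_div, div_le_div_iff₀ (by positivity) (by positivity), one_mul]
      refine le_trans ?_ hPR
      calc x * (22000 * (c : ℝ) ^ 2) ≤ 3709476 * (c : ℝ) ^ 4 * (22000 * (c : ℝ) ^ 2) :=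
            mul_le_mul_of_nonneg_right hxx (by positivity)
        _ = 81608472000 * (c : ℝ) ^ 6 := by ring
    have hc2 : (1 : ℝ) ≤ (c : ℝ) ^ 2 := one_le_pow₀ hcR
    have hy1 : x * (1 / 8 : ℝ) ^ (17 * h) ≤ 1 := by
      refine hy.trans ?_
      rw [div_le_one (by positivity)]
      linarith
    obtain ⟨y, hyy⟩ : ∃ y : ℝ, y = x * (1 / 8 : ℝ) ^ (17 * h) := ⟨_, rfl⟩
    rw [← hyy] at hy0 hy hy1 ⊢
    have e1 : 10 * y ^ 2 + y ≤ 11 * y := by nlinarith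
    refine e1.trans ?_
    have e2 : 11 * y ≤ 11 * (1 / (22000 * (c : ℝ) ^ 2)) := by linarith
    refine e2.trans (le_of_eq ?_)
    field_simp
    norm_num

end Pool.Agent.Lib_MP_22d2c8_so
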