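import Pool.Agent.Lib_MP_22d2c8_so.HardSq
import Pool.Agent.Lib_MP_22d2c8_so.HardNumQ

/-!
# HARDPMQ: one block is hard
-/

namespace Pool.Agent.Lib_MP_22d2c8_so

open Finset
open Pool.Agent.Lib_MP_22d2c8_rsf (prob MProg)
open Pool.Agent.Lib_MP_22d2c8_pm (Ed Vx cut permGraph)

theorem exists_hard_q : ∃ A0 : ℕ, ∀ A, A0 ≤ A → ∃ (m : ℕ) (_ : NeZero m), A ≤ m ∧ m ≤ 2 * A ∧
      Hard (cut : (Vx m → Bool) → Finset (Ed m)) (permGraph : Equiv.Perm (Fin m) → Finset (Ed m))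
        ((3 * fF (A * m ^ 7)) ^ 2) 10 (1 / (2000 * ((A * m ^ 7 : ℕ) : ℝ) ^ 2)) := by
  obtain ⟨A0, h⟩ := exists_size_q
  refine ⟨A0 + 1, fun A hA => ?_⟩
  obtain ⟨m, v, hAm, hmA, hv, hm, hx⟩ := h A (by omega)
  have h0 : m ≠ 0 := by omega
  refine ⟨m, ⟨h0⟩, hAm, hmA, ?_⟩
  haveI : NeZero m := ⟨h0⟩
  intro l hl hlen g hg
  refine (pm_square hv hm hl hg).trans ?_
  have h1 := hx (l.length : ℝ) (by positivity) (by exact_mod_cast hlen)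
  linarith

end Pool.Agent.Lib_MP_22d2c8_so
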