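import Pool.Agent.Lib_MP_22d2c8_pm.Dist

/-!
# HARDSQ: the distributional bound for one block, with a square

PROOF. As `pm_dist` and `pm_compare` (Lib_MP_22d2c8_pm/Dist, DistB), with the squared comparison:
for a closed family `A` with smallest members of size `l0 ≥ 1`, `prob (Hit A permGraph) ≤
(1/16) ^ (l0 - 1) / 15 = (16/15) (1/16) ^ l0` (`pm_tail`) and `prob (Hit A cut) ≥ (1/2) (1/4) ^ l0`
(`prob_cut_ge`), so `prob (Hit A permGraph) ≤ 5 * prob (Hit A cut) ^ 2` (also for `A = ∅`, `l0 = 0`).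
So `prob g(permGraph) ≤ 5 (p + δ) ^ 2 + δ' ≤ 10 p ^ 2 + 10 δ ^ 2 + δ'`, `p = prob g(cut)`,
`δ = l.length * (1/8) ^ v`, `δ' = l.length * (2/15) (1/16) ^ v`.
-/

namespace Pool.Agent.Lib_MP_22d2c8_so

open Finset
open Pool.Agent.Lib_MP_22d2c8_rsf
open Pool.Agent.Lib_MP_22d2c8_pm

/-- The squared comparison for closed families. -/
theorem pm_compare_sq {m w k K : ℕ} [NeZero m] (hK : K = 4 * w ^ 2 * (64 * (k + 1) * w) ^ 2)
    (hKm : 32 * K ≤ m) (hwm : 2 * w < m) {A : Finset (Finset (Ed m))}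
    (hA : Closed w (cut : (Vx m → Bool) → Finset (Ed m)) ((1 / 2 : ℝ) ^ k) A) :
    prob (fun σ : Equiv.Perm (Fin m) => Hit A (permGraph σ)) ≤
      5 * prob (fun x : Vx m → Bool => Hit A (cut x)) ^ 2 := by
  classical
  rcases A.eq_empty_or_nonempty with rfl | hne
  · rw [prob_false]
    · positivity
    · rintro a ⟨T, hT, _⟩
      exact absurd hT (Finset.notMem_empty T)
  · obtain ⟨T0, hT0, hmin⟩ := Finset.exists_min_image A Finset.card hne
    rcases Nat.eq_zero_or_pos T0.card with h0 | h0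
    · have h00 : T0 = ∅ := Finset.card_eq_zero.mp h0
      rw [h00] at hT0
      have h1 : prob (fun x : Vx m → Bool => Hit A (cut x)) = 1 :=
        prob_true fun x => ⟨∅, hT0, Finset.empty_subset _⟩
      rw [h1]
      have h2 := prob_le_one (fun σ : Equiv.Perm (Fin m) => Hit A (permGraph σ))
      linarith
    · have h1 : prob (fun σ : Equiv.Perm (Fin m) => Hit A (permGraph σ)) ≤
          (1 / 16) ^ (T0.card - 1) / 15 := by
        refine le_trans (prob_mono ?_) (pm_tail hK hKm hwm hA (T0.card - 1))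
        rintro a ⟨T, hT, hTa⟩
        obtain ⟨T', hT', hmin'⟩ := Finset.exists_min_image (A.filter (fun T' => T' ⊆ T))
          Finset.card ⟨T, by rw [Finset.mem_filter]; exact ⟨hT, Finset.Subset.refl _⟩⟩
        rw [Finset.mem_filter] at hT'
        refine ⟨T', ⟨hT'.1, ?_⟩, ?_, hT'.2.trans hTa⟩
        · intro T'' hT'' hsub
          exact Finset.eq_of_subset_of_card_le hsub (hmin' T'' (by
            rw [Finset.mem_filter]
            exact ⟨hT'', hsub.trans hT'.2⟩))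
        · have := hmin T' hT'.1
          omega
      have h2 : (1 / 2 : ℝ) * (1 / 4) ^ T0.card ≤
          prob (fun x : Vx m → Bool => Hit A (cut x)) := by
        have hw := hA.1 T0 hT0
        refine le_trans (prob_cut_ge T0 (by omega)) ?_
        exact prob_mono fun x h => ⟨T0, hT0, h⟩
      have h3 : ((1 / 2 : ℝ) * (1 / 4) ^ T0.card) ^ 2 ≤
          prob (fun x : Vx m → Bool => Hit A (cut x)) ^ 2 :=
        pow_le_pow_left₀ (by positivity) h2 2
      obtain ⟨n, hn⟩ : ∃ n, T0.card = n + 1 := ⟨T0.card - 1, by omega⟩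
      rw [hn] at h1 h3
      rw [Nat.add_sub_cancel] at h1
      have h4 : ((1 / 2 : ℝ) * (1 / 4) ^ (n + 1)) ^ 2 = (1 / 64) * (1 / 16) ^ n := by
        rw [pow_succ, show (1 / 16 : ℝ) = (1 / 4) ^ 2 by norm_num, ← pow_mul, mul_comm 2 n,
          pow_mul]
        ring
      rw [h4] at h3
      have h5 : (0 : ℝ) ≤ (1 / 16 : ℝ) ^ n := by positivity
      linarith

theorem pm_square {v m : ℕ} [NeZero m] (hv : 1 ≤ v)
    (hm : 2 ^ 28 * v ^ 6 * (Nat.log 2 m + 1) ^ 2 ≤ m)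
    {l : List (Finset (Ed m) → Prop)} (hl : MProg (Ed m) l)
    {g : Finset (Ed m) → Prop} (hg : g ∈ l) :
    prob (fun σ : Equiv.Perm (Fin m) => g (permGraph σ)) ≤
      10 * prob (fun x : Vx m → Bool => g (cut x)) ^ 2 +
        (10 * ((l.length : ℝ) * (1 / 8 : ℝ) ^ v) ^ 2 + (l.length : ℝ) * (1 / 8 : ℝ) ^ v) := by
  classical
  obtain ⟨k, hk1, hk, hwm, hKm⟩ := pm_params hv hm
  have hδ1 : ((1 / 2 : ℝ)) ^ k < 1 := pow_lt_one₀ (by norm_num) (by norm_num) (by omega)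
  have hδ0 : (0 : ℝ) ≤ (1 / 2 : ℝ) ^ k := by positivity
  have hηY : (0 : ℝ) ≤ (1 / 16 : ℝ) ^ v / 15 := by positivity
  have h8 : (8 : ℝ) ^ v * (1 / 8 : ℝ) ^ v = 1 := by
    rw [← mul_pow]
    norm_num
  have hcardV : (Fintype.card (Ed m) : ℝ) = m * m := by simp
  have hηU : ((Fintype.card (Ed m) : ℝ) + 1) ^ (2 * v) * (1 / 2) ^ k ≤ (1 / 8 : ℝ) ^ v := by
    rw [hcardV]
    have h1 : ((m : ℝ) * m + 1) ^ (2 * v) * 8 ^ v ≤ 2 ^ k := by exact_mod_cast hk
    have h2 : (2 : ℝ) ^ k * (1 / 2 : ℝ) ^ k = 1 := by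
      rw [← mul_pow]
      norm_num
    have h3 : (0 : ℝ) < (1 / 2 : ℝ) ^ k * (1 / 8 : ℝ) ^ v := by positivity
    calc ((m : ℝ) * m + 1) ^ (2 * v) * (1 / 2) ^ k
        = (((m : ℝ) * m + 1) ^ (2 * v) * 8 ^ v) * ((1 / 2 : ℝ) ^ k * (1 / 8 : ℝ) ^ v) := by
          rw [show (((m : ℝ) * m + 1) ^ (2 * v) * 8 ^ v) * ((1 / 2 : ℝ) ^ k * (1 / 8 : ℝ) ^ v) =
            ((m : ℝ) * m + 1) ^ (2 * v) * (1 / 2 : ℝ) ^ k * (8 ^ v * (1 / 8 : ℝ) ^ v) by ring, h8,
            mul_one]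
      _ ≤ 2 ^ k * ((1 / 2 : ℝ) ^ k * (1 / 8 : ℝ) ^ v) := mul_le_mul_of_nonneg_right h1 h3.le
      _ = (1 / 8 : ℝ) ^ v := by rw [← mul_assoc, h2, one_mul]
  obtain ⟨EY, EU, hEY, hEU, hmain⟩ := approx (w := 2 * v) (v := v) rfl hv
    (cut : (Vx m → Bool) → Finset (Ed m))
    (permGraph : Equiv.Perm (Fin m) → Finset (Ed m)) hδ0 hδ1 hηY
    (show (0 : ℝ) ≤ ((Fintype.card (Ed m) : ℝ) + 1) ^ (2 * v) * (1 / 2) ^ k by positivity)
    (fun B hB => exists_closed (2 * v) _ hδ0 B hB)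
    (fun A hA => pm_tail rfl hKm hwm hA v) hl
  obtain ⟨A, hA, hAY, hAU⟩ := hmain _ hg
  have h1 : prob (fun σ : Equiv.Perm (Fin m) => g (permGraph σ)) ≤
      prob (fun σ : Equiv.Perm (Fin m) => Hit A (permGraph σ)) + prob EY := by
    refine le_trans (prob_mono ?_) (prob_or_le _ _)
    intro a ha
    by_cases hE : EY a
    · exact Or.inr hE
    · exact Or.inl (hAY a ha hE)
  have h2 : prob (fun x : Vx m → Bool => Hit A (cut x)) ≤
      prob (fun x : Vx m → Bool => g (cut x)) + prob EU := by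
    refine le_trans (prob_mono ?_) (prob_or_le _ _)
    intro x hx
    by_cases hE : EU x
    · exact Or.inr hE
    · exact Or.inl (hAU x hx hE)
  have h3 := pm_compare_sq rfl hKm hwm hA
  have hlen : (0 : ℝ) ≤ l.length := by positivity
  have h16 : (1 / 16 : ℝ) ^ v ≤ (1 / 8 : ℝ) ^ v :=
    pow_le_pow_left₀ (by norm_num) (by norm_num) v
  have h8v : (0 : ℝ) ≤ (1 / 8 : ℝ) ^ v := by positivity
  have h4 : (l.length : ℝ) * (2 * ((1 / 16 : ℝ) ^ v / 15)) ≤ l.length * (1 / 8 : ℝ) ^ v := by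
    apply mul_le_mul_of_nonneg_left _ hlen
    linarith
  have h5 : (l.length : ℝ) * (((Fintype.card (Ed m) : ℝ) + 1) ^ (2 * v) * (1 / 2) ^ k) ≤
      l.length * (1 / 8 : ℝ) ^ v := mul_le_mul_of_nonneg_left hηU hlen
  set P : ℝ := prob (fun x : Vx m → Bool => g (cut x)) with hP
  set Q : ℝ := prob (fun x : Vx m → Bool => Hit A (cut x)) with hQ
  set δ : ℝ := (l.length : ℝ) * (1 / 8 : ℝ) ^ v with hδ
  have hP0 : 0 ≤ P := prob_nonneg _
  have hQ0 : 0 ≤ Q := prob_nonneg _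
  have h6 : Q ≤ P + δ := by linarith
  have h7 : Q ^ 2 ≤ (P + δ) ^ 2 := pow_le_pow_left₀ hQ0 h6 2
  have h8' : (P + δ) ^ 2 ≤ 2 * P ^ 2 + 2 * δ ^ 2 := by nlinarith [sq_nonneg (P - δ)]
  linarith

end Pool.Agent.Lib_MP_22d2c8_so
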