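import Pool.Agent.Lib_MP_22d2c8_so.Defs

/-!
# HAZAPP3: circuits without hazards in some blocks give monotone networks

As `HazApp.lean`, more general: any base input `x` which is zero on the blocks; and-gates and or-gates
of any fan-in (an and-gate is unstable above the base iff all predecessors with base value 0 are
unstable, if there are any; otherwise iff some predecessor is unstable; or-gates dually), other
gates have at most two predecessors; all wires are counted; only sets `S` of variables of the blocks
must not be hazards.
-/

namespace Pool.Agent.Lib_MP_22d2c8_so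

open Finset
open Pool.Agent.Lib_MP_22d2c8_gen (Op Circuit)

/-! ### Networks -/

private theorem on_inp {N : ℕ} {V W : Type} (M : MNet N V W) (x : Fin N → Finset V) {w : W}
    {l : Fin N} {a : V} (h : M.kind w = .inp l a) : M.On ∅ x w ↔ a ∈ x l := by
  constructor
  · intro ho
    cases ho with
    | inp _ l' a' h' _ ha =>
      rw [h] at h'
      injection h' with h1 h2
      subst h1 h2
      exact ha
    | and _ P h' _ _ => rw [h] at h'; cases h'
    | or _ P u h' _ _ _ => rw [h] at h'; cases h'
  · intro ha
    exact MNet.On.inp w l a h (Set.notMem_empty _) ha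

private theorem on_and {N : ℕ} {V W : Type} (M : MNet N V W) (x : Fin N → Finset V) {w : W}
    {P : Finset W} (h : M.kind w = .and P) : M.On ∅ x w ↔ ∀ u ∈ P, M.On ∅ x u := by
  constructor
  · intro ho
    cases ho with
    | inp _ l' a' h' _ ha => rw [h] at h'; cases h'
    | and _ P' h' _ hP =>
      rw [h] at h'
      injection h' with h1
      subst h1
      exact hP
    | or _ P u h' _ _ _ => rw [h] at h'; cases h'
  · intro ha
    exact MNet.On.and w P h (Set.notMem_empty _) ha

private theorem on_or {N : ℕ} {V W : Type} (M : MNet N V W) (x : Fin N → Finset V) {w : W}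
    {P : Finset W} (h : M.kind w = .or P) : M.On ∅ x w ↔ ∃ u ∈ P, M.On ∅ x u := by
  constructor
  · intro ho
    cases ho with
    | inp _ l' a' h' _ ha => rw [h] at h'; cases h'
    | and _ P' h' _ hP => rw [h] at h'; cases h'
    | or _ P' u h' _ hu hP =>
      rw [h] at h'
      injection h' with h1
      subst h1
      exact ⟨u, hu, hP⟩
  · rintro ⟨u, hu, ho⟩
    exact MNet.On.or w P u h (Set.notMem_empty _) hu ho

/-! ### Gates -/

/-- Some choice of the values of the predecessors in `Q` changes the value of the gate. -/
private def Chg {W : Type} (o : Op W) (a0 : W → Bool) (Q : Finset W) : Prop :=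
  ∃ b : W → Bool, (∀ u ∈ o.preds, u ∉ Q → b u = a0 u) ∧ o.eval b ≠ o.eval a0

private theorem chg_mono {W : Type} {o : Op W} {a0 : W → Bool} {Q Q' : Finset W} (h : Q ⊆ Q') :
    Chg o a0 Q → Chg o a0 Q' := by
  rintro ⟨b, hb, hne⟩
  exact ⟨b, fun u hu hQ => hb u hu (fun h' => hQ (h h')), hne⟩

private theorem not_chg_empty {W : Type} (o : Op W) (a0 : W → Bool) : ¬ Chg o a0 ∅ := by
  rintro ⟨b, hb, hne⟩
  exact hne (Pool.Agent.Lib_MP_22d2c8_gen.eval_congr o fun u hu => hb u hu (notMem_empty _))

open Classical in
/-- The gate which computes unstability. -/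
private noncomputable def gk {W : Type} (N : ℕ) (V : Type) (o : Op W) (a0 : W → Bool) :
    Kind N V W :=
  if Chg o a0 o.preds then
    if (o.preds.filter (fun u => Chg o a0 {u})).Nonempty then
      .or (o.preds.filter (fun u => Chg o a0 {u}))
    else .and o.preds
  else .or ∅

private theorem gk_preds {W : Type} (N : ℕ) (V : Type) (o : Op W) (a0 : W → Bool) :
    (gk N V o a0).preds ⊆ o.preds := by
  classical
  unfold gk
  split_ifs
  · exact filter_subset _ _
  · exact Subset.refl _
  · exact empty_subset _

open Classical in
private theorem gk_on {N : ℕ} {V W : Type} (M : MNet N V W) (x : Fin N → Finset V) {w : W}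
    {o : Op W} {a0 : W → Bool} (hk : M.kind w = gk N V o a0) (hc : o.preds.card ≤ 2) :
    M.On ∅ x w ↔ Chg o a0 (o.preds.filter (fun u => M.On ∅ x u)) := by
  unfold gk at hk
  split_ifs at hk with h1 h2
  · rw [on_or M x hk]
    constructor
    · rintro ⟨u, hu, ho⟩
      rw [mem_filter] at hu
      refine chg_mono ?_ hu.2
      intro v hv
      rw [mem_singleton] at hv
      subst hv
      rw [mem_filter]
      exact ⟨hu.1, ho⟩
    · intro hchg
      by_contra hcon
      push Not at hcon
      obtain ⟨v, hv⟩ := h2
      have hvon := hcon v hv
      rw [mem_filter] at hv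
      have hQc : (o.preds.filter (fun u => M.On ∅ x u)).card ≤ 1 := by
        have hss : o.preds.filter (fun u => M.On ∅ x u) ⊆ o.preds.erase v := by
          intro u hu
          rw [mem_filter] at hu
          rw [mem_erase]
          refine ⟨?_, hu.1⟩
          rintro rfl
          exact hvon hu.2
        have := card_le_card hss
        rw [card_erase_of_mem hv.1] at this
        omega
      have : Nonempty W := ⟨v⟩
      rcases (card_le_one_iff_subset_singleton (s := o.preds.filter (fun u => M.On ∅ x u))).mp hQc
        with ⟨u, hu⟩
      by_cases hune : u ∈ o.preds.filter (fun u => M.On ∅ x u)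
      · have hu' := mem_filter.mp hune
        have h3 : Chg o a0 {u} := chg_mono hu hchg
        exact hcon u (mem_filter.mpr ⟨hu'.1, h3⟩) hu'.2
      · have h4 : o.preds.filter (fun u => M.On ∅ x u) = ∅ := by
          rw [eq_empty_iff_forall_notMem]
          intro v hv
          have := hu hv
          rw [mem_singleton] at this
          subst this
          exact hune hv
        rw [h4] at hchg
        exact not_chg_empty o a0 hchg
  · rw [on_and M x hk]
    rw [not_nonempty_iff_eq_empty] at h2
    constructor
    · intro hall
      have h3 : o.preds.filter (fun u => M.On ∅ x u) = o.preds :=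
        filter_true_of_mem hall
      rw [h3]
      exact h1
    · intro hchg
      by_contra hcon
      push Not at hcon
      obtain ⟨v, hv, hvon⟩ := hcon
      have hQc : (o.preds.filter (fun u => M.On ∅ x u)).card ≤ 1 := by
        have hss : o.preds.filter (fun u => M.On ∅ x u) ⊆ o.preds.erase v := by
          intro u hu
          rw [mem_filter] at hu
          rw [mem_erase]
          refine ⟨?_, hu.1⟩
          rintro rfl
          exact hvon hu.2
        have := card_le_card hss
        rw [card_erase_of_mem hv] at this
        omega
      have : Nonempty W := ⟨v⟩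
      rcases (card_le_one_iff_subset_singleton (s := o.preds.filter (fun u => M.On ∅ x u))).mp hQc
        with ⟨u, hu⟩
      by_cases hune : u ∈ o.preds.filter (fun u => M.On ∅ x u)
      · have hu' := mem_filter.mp hune
        have h3 : Chg o a0 {u} := chg_mono hu hchg
        have h4 : u ∈ o.preds.filter (fun u => Chg o a0 {u}) := mem_filter.mpr ⟨hu'.1, h3⟩
        rw [h2] at h4
        exact notMem_empty _ h4
      · have h4 : o.preds.filter (fun u => M.On ∅ x u) = ∅ := by
          rw [eq_empty_iff_forall_notMem]
          intro v hv
          have := hu hv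
          rw [mem_singleton] at this
          subst this
          exact hune hv
        rw [h4] at hchg
        exact not_chg_empty o a0 hchg
  · rw [on_or M x hk]
    constructor
    · rintro ⟨u, hu, _⟩
      exact absurd hu (notMem_empty _)
    · intro hchg
      exact absurd (chg_mono (filter_subset _ _) hchg) h1

open Classical in
/-- The gate which computes unstability: and-gates and or-gates of any fan-in, other gates. -/
private noncomputable def gk2 {W : Type} (N : ℕ) (V : Type) (o : Op W) (a0 : W → Bool) :
    Kind N V W :=
  match o with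
  | .and P => if ∃ u ∈ P, a0 u = false then .and (P.filter (fun u => a0 u = false)) else .or P
  | .or P => if ∃ u ∈ P, a0 u = true then .and (P.filter (fun u => a0 u = true)) else .or P
  | .arb P φ => gk N V (.arb P φ) a0

private theorem gk2_preds {W : Type} (N : ℕ) (V : Type) (o : Op W) (a0 : W → Bool) :
    (gk2 N V o a0).preds ⊆ o.preds := by
  classical
  cases o with
  | and P =>
    unfold gk2
    dsimp only
    split_ifs
    · exact filter_subset _ _
    · exact Subset.refl _
  | or P =>
    unfold gk2
    dsimp only
    split_ifs
    · exact filter_subset _ _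
    · exact Subset.refl _
  | arb P φ => exact gk_preds N V (.arb P φ) a0

open Classical in
private theorem gk2_on {N : ℕ} {V W : Type} (M : MNet N V W) (x : Fin N → Finset V) {w : W}
    {o : Op W} {a0 : W → Bool} (hk : M.kind w = gk2 N V o a0)
    (hc : o.isArb = true → o.preds.card ≤ 2) :
    M.On ∅ x w ↔ Chg o a0 (o.preds.filter (fun u => M.On ∅ x u)) := by
  cases o with
  | arb P φ => exact gk_on M x hk (hc rfl)
  | and P =>
    have hP : (Op.and P).preds = P := rfl
    rw [hP]
    unfold gk2 at hk
    dsimp only at hk
    split_ifs at hk with h1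
    · rw [on_and M x hk]
      obtain ⟨u0, hu0, hu0f⟩ := h1
      have e0 : (Op.and P).eval a0 = false := by
        show decide (∀ u ∈ P, a0 u = true) = false
        rw [decide_eq_false_iff_not]
        intro h
        rw [h u0 hu0] at hu0f
        cases hu0f
      constructor
      · intro hall
        refine ⟨fun _ => true, fun u hu hQ => ?_, ?_⟩
        · show true = a0 u
          cases hau : a0 u with
          | true => rfl
          | false =>
            exact absurd (mem_filter.mpr ⟨hu, hall u (mem_filter.mpr ⟨hu, hau⟩)⟩) hQ
        · rw [e0]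
          show decide (∀ u ∈ P, (fun _ : W => true) u = true) ≠ false
          rw [decide_eq_true (fun u _ => rfl)]
          decide
      · rintro ⟨b, hb, hne⟩ u hu
        rw [mem_filter] at hu
        by_contra hon
        have hbu := hb u hu.1 (fun hQ => hon (mem_filter.mp hQ).2)
        rw [e0] at hne
        apply hne
        show decide (∀ u ∈ P, b u = true) = false
        rw [decide_eq_false_iff_not]
        intro h
        rw [hu.2, h u hu.1] at hbu
        cases hbu
    · rw [on_or M x hk]
      push Not at h1
      have e0 : (Op.and P).eval a0 = true := by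
        show decide (∀ u ∈ P, a0 u = true) = true
        rw [decide_eq_true_iff]
        intro u hu
        have := h1 u hu
        cases hau : a0 u with
        | true => rfl
        | false => exact absurd hau this
      constructor
      · rintro ⟨u, hu, hon⟩
        refine ⟨fun v => if v = u then false else true, fun v hv hQ => ?_, ?_⟩
        · have hvu : v ≠ u := by
            rintro rfl
            exact hQ (mem_filter.mpr ⟨hv, hon⟩)
          show (if v = u then false else true) = a0 v
          rw [if_neg hvu]
          cases hav : a0 v with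
          | true => rfl
          | false => exact absurd hav (h1 v hv)
        · rw [e0]
          intro h
          have h2 : ∀ v ∈ P, (if v = u then false else true) = true := of_decide_eq_true h
          have h3 := h2 u hu
          rw [if_pos rfl] at h3
          cases h3
      · intro hchg
        by_contra hcon
        push Not at hcon
        have h4 : P.filter (fun u => M.On ∅ x u) = ∅ := filter_eq_empty_iff.mpr fun u hu => hcon u hu
        rw [h4] at hchg
        exact not_chg_empty _ a0 hchg
  | or P =>
    have hP : (Op.or P).preds = P := rfl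
    rw [hP]
    unfold gk2 at hk
    dsimp only at hk
    split_ifs at hk with h1
    · rw [on_and M x hk]
      obtain ⟨u0, hu0, hu0f⟩ := h1
      have e0 : (Op.or P).eval a0 = true := by
        show decide (∃ u ∈ P, a0 u = true) = true
        rw [decide_eq_true_iff]
        exact ⟨u0, hu0, hu0f⟩
      constructor
      · intro hall
        refine ⟨fun _ => false, fun u hu hQ => ?_, ?_⟩
        · show false = a0 u
          cases hau : a0 u with
          | false => rfl
          | true =>
            exact absurd (mem_filter.mpr ⟨hu, hall u (mem_filter.mpr ⟨hu, hau⟩)⟩) hQ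
        · rw [e0]
          intro h
          obtain ⟨v, _, hv⟩ : ∃ u ∈ P, (fun _ : W => false) u = true := of_decide_eq_true h
          cases hv
      · rintro ⟨b, hb, hne⟩ u hu
        rw [mem_filter] at hu
        by_contra hon
        have hbu := hb u hu.1 (fun hQ => hon (mem_filter.mp hQ).2)
        rw [e0] at hne
        apply hne
        show decide (∃ u ∈ P, b u = true) = true
        rw [decide_eq_true_iff]
        exact ⟨u, hu.1, hbu.trans hu.2⟩
    · rw [on_or M x hk]
      push Not at h1
      have e0 : (Op.or P).eval a0 = false := by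
        show decide (∃ u ∈ P, a0 u = true) = false
        rw [decide_eq_false_iff_not]
        rintro ⟨u, hu, hau⟩
        exact h1 u hu hau
      constructor
      · rintro ⟨u, hu, hon⟩
        refine ⟨fun v => if v = u then true else false, fun v hv hQ => ?_, ?_⟩
        · have hvu : v ≠ u := by
            rintro rfl
            exact hQ (mem_filter.mpr ⟨hv, hon⟩)
          show (if v = u then true else false) = a0 v
          rw [if_neg hvu]
          cases hav : a0 v with
          | false => rfl
          | true => exact absurd hav (h1 v hv)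
        · rw [e0]
          intro h
          have h2 : ¬ ∃ v ∈ P, (if v = u then true else false) = true := of_decide_eq_false h
          exact h2 ⟨u, hu, if_pos rfl⟩
      · intro hchg
        by_contra hcon
        push Not at hcon
        have h4 : P.filter (fun u => M.On ∅ x u) = ∅ := filter_eq_empty_iff.mpr fun u hu => hcon u hu
        rw [h4] at hchg
        exact not_chg_empty _ a0 hchg

/-! ### The ternary run -/

private theorem ternary_sound {W : Type} {o : Op W} {a : W → Option Bool} {c : W → Bool}
    (h : ∀ u ∈ o.preds, a u = none ∨ a u = some (c u)) :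
    ternary o a = none ∨ ternary o a = some (o.eval c) := by
  unfold ternary
  split_ifs with h1 h2
  · right
    rw [h1 c h]
  · right
    rw [h2 c h]
  · left
    rfl

private theorem run_sound {n s : ℕ} (C : Circuit n s) {x : Fin n → Bool} {S : Finset (Fin n)}
    {a : Fin n ⊕ Fin s → Option Bool} (ha : IsTernaryRun C (unstableAt x S) a) {y : Fin n → Bool}
    {c : Fin n ⊕ Fin s → Bool} (hc : C.IsRun y c) (hy : ∀ j, j ∉ S → y j = x j) :
    ∀ w, a w = none ∨ a w = some (c w) := by
  obtain ⟨rank, hrank⟩ := C.acyclic
  have main : ∀ k, ∀ w, rank w = k → a w = none ∨ a w = some (c w) := by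
    intro k
    induction k using Nat.strong_induction_on with
    | _ k ih =>
      intro w hw
      rcases w with j | g
      · rw [ha.1 j, hc.1 j]
        unfold unstableAt
        split_ifs with hj
        · left; rfl
        · right; rw [hy j hj]
      · rw [ha.2 g, hc.2 g]
        exact ternary_sound fun u hu => ih (rank u) (by rw [← hw]; exact hrank g u hu) u rfl
  exact fun w => main _ w rfl

/-! ### The network -/

open Classical in
private noncomputable def hk {n s N : ℕ} {V : Type} (C : Circuit n s) (pl : Fin N → V → Fin n)
    (a0 : Fin n ⊕ Fin s → Bool) : Fin n ⊕ Fin s → Kind N V (Fin n ⊕ Fin s)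
  | Sum.inl j => if h : ∃ p : Fin N × V, pl p.1 p.2 = j then
      .inp h.choose.1 h.choose.2 else .or ∅
  | Sum.inr g => gk2 N V (C.op g) a0

private noncomputable def hM {n s N : ℕ} {V : Type} (C : Circuit n s) (pl : Fin N → V → Fin n)
    (a0 : Fin n ⊕ Fin s → Bool) : MNet N V (Fin n ⊕ Fin s) where
  kind := hk C pl a0
  rank := C.acyclic.choose
  rank_lt := by
    intro w u hu
    rcases w with j | g
    · have h0 : (hk C pl a0 (Sum.inl j)).preds = ∅ := by
        unfold hk
        dsimp only
        split_ifs <;> rfl
      rw [h0] at hu
      exact absurd hu (notMem_empty _)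
    · exact C.acyclic.choose_spec g u (gk2_preds N V (C.op g) a0 hu)

private theorem wires_le {n s N : ℕ} {V : Type} (C : Circuit n s) (pl : Fin N → V → Fin n)
    (a0 : Fin n ⊕ Fin s → Bool) : (hM C pl a0).wires ≤ allWires C := by
  unfold MNet.wires
  rw [Fintype.sum_sum_type]
  have h1 : ∑ j : Fin n, ((hM C pl a0).kind (Sum.inl j)).preds.card = 0 := by
    apply sum_eq_zero
    intro j _
    have h0 : ((hM C pl a0).kind (Sum.inl j)).preds = ∅ := by
      show (hk C pl a0 (Sum.inl j)).preds = ∅
      unfold hk
      dsimp only
      split_ifs <;> rfl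
    rw [h0, card_empty]
  rw [h1, zero_add]
  exact sum_le_sum fun g _ => card_le_card (gk2_preds N V (C.op g) a0)

open Classical in
/-- The set of the places which are filled. -/
private noncomputable def supp {n N : ℕ} {V : Type} (pl : Fin N → V → Fin n)
    (X : Fin N → Finset V) : Finset (Fin n) :=
  univ.filter (fun j => ∃ r a, a ∈ X r ∧ pl r a = j)

private theorem mem_supp {n N : ℕ} {V : Type} {pl : Fin N → V → Fin n}
    {X : Fin N → Finset V} {j : Fin n} : j ∈ supp pl X ↔ ∃ r a, a ∈ X r ∧ pl r a = j := by
  classical
  unfold supp
  rw [mem_filter]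
  exact ⟨fun h => h.2, fun h => ⟨mem_univ _, h⟩⟩

private theorem on_inl {n s N : ℕ} {V : Type} (C : Circuit n s) (pl : Fin N → V → Fin n)
    (hpl : ∀ r r' a a', pl r a = pl r' a' → r = r' ∧ a = a') (a0 : Fin n ⊕ Fin s → Bool)
    (x : Fin N → Finset V) (j : Fin n) :
    (hM C pl a0).On ∅ x (Sum.inl j) ↔ j ∈ supp pl x := by
  classical
  rw [mem_supp]
  by_cases h : ∃ p : Fin N × V, pl p.1 p.2 = j
  · have hk' : (hM C pl a0).kind (Sum.inl j) = .inp h.choose.1 h.choose.2 := by
      show hk C pl a0 (Sum.inl j) = _
      unfold hk
      dsimp only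
      rw [dif_pos h]
    rw [on_inp _ x hk']
    have hs := h.choose_spec
    constructor
    · intro ha
      exact ⟨_, _, ha, hs⟩
    · rintro ⟨r, a, ha, hra⟩
      obtain ⟨h1, h2⟩ := hpl _ _ _ _ (hra.trans hs.symm)
      rw [← h1, ← h2]
      exact ha
  · have hk' : (hM C pl a0).kind (Sum.inl j) = .or ∅ := by
      show hk C pl a0 (Sum.inl j) = _
      unfold hk
      dsimp only
      rw [dif_neg h]
    rw [on_or _ x hk']
    constructor
    · rintro ⟨u, hu, _⟩
      exact absurd hu (notMem_empty _)
    · rintro ⟨r, a, ha, hra⟩
      exact absurd ⟨(r, a), hra⟩ h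

open Classical in
private noncomputable def ta {n s N : ℕ} {V : Type} (C : Circuit n s) (pl : Fin N → V → Fin n)
    (a0 : Fin n ⊕ Fin s → Bool) (x : Fin N → Finset V) : Fin n ⊕ Fin s → Option Bool :=
  fun w => if (hM C pl a0).On ∅ x w then none else some (a0 w)

private theorem ta_run {n s N : ℕ} {V : Type} (C : Circuit n s)
    (hfan : ∀ g, (C.op g).isArb = true → (C.op g).preds.card ≤ 2) (pl : Fin N → V → Fin n)
    (hpl : ∀ r r' a a', pl r a = pl r' a' → r = r' ∧ a = a') {z : Fin n → Bool}
    {a0 : Fin n ⊕ Fin s → Bool} (ha0 : C.IsRun z a0) (x : Fin N → Finset V) :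
    IsTernaryRun C (unstableAt z (supp pl x)) (ta C pl a0 x) := by
  classical
  constructor
  · intro j
    unfold ta unstableAt
    by_cases hj : j ∈ supp pl x
    · rw [if_pos hj, if_pos ((on_inl C pl hpl a0 x j).mpr hj)]
    · rw [if_neg hj, if_neg (fun h => hj ((on_inl C pl hpl a0 x j).mp h)), ha0.1 j]
  · intro g
    have hcomp : ∀ b : Fin n ⊕ Fin s → Bool,
        (∀ u ∈ (C.op g).preds, ta C pl a0 x u = none ∨ ta C pl a0 x u = some (b u)) ↔
        (∀ u ∈ (C.op g).preds,
          u ∉ (C.op g).preds.filter (fun u => (hM C pl a0).On ∅ x u) → b u = a0 u) := by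
      intro b
      constructor
      · intro h u hu hQ
        have hno : ¬ (hM C pl a0).On ∅ x u := fun ho => hQ (mem_filter.mpr ⟨hu, ho⟩)
        have h1 := h u hu
        unfold ta at h1
        rw [if_neg hno] at h1
        rcases h1 with h1 | h1
        · cases h1
        · exact (Option.some.inj h1).symm
      · intro h u hu
        unfold ta
        by_cases ho : (hM C pl a0).On ∅ x u
        · left
          rw [if_pos ho]
        · right
          rw [if_neg ho, h u hu (fun hQ => ho (mem_filter.mp hQ).2)]
    have hself : ∀ u ∈ (C.op g).preds, ta C pl a0 x u = none ∨ ta C pl a0 x u = some (a0 u) :=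
      (hcomp a0).mpr fun _ _ _ => rfl
    have hon := gk2_on (hM C pl a0) x (w := Sum.inr g) (o := C.op g) (a0 := a0) rfl (hfan g)
    by_cases ho : (hM C pl a0).On ∅ x (Sum.inr g)
    · obtain ⟨b, hb, hne⟩ := hon.mp ho
      have hb' := (hcomp b).mpr hb
      have h1 : ta C pl a0 x (Sum.inr g) = none := by unfold ta; rw [if_pos ho]
      rw [h1]
      unfold ternary
      rw [if_neg, if_neg]
      · intro hall
        exact hne ((hall b hb').trans (hall a0 hself).symm)
      · intro hall
        exact hne ((hall b hb').trans (hall a0 hself).symm)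
    · have h1 : ta C pl a0 x (Sum.inr g) = some (a0 (Sum.inr g)) := by
        unfold ta; rw [if_neg ho]
      rw [h1, ha0.2 g]
      have hall : ∀ b : Fin n ⊕ Fin s → Bool,
          (∀ u ∈ (C.op g).preds, ta C pl a0 x u = none ∨ ta C pl a0 x u = some (b u)) →
          (C.op g).eval b = (C.op g).eval a0 := by
        intro b hb
        by_contra hne
        exact ho (hon.mpr ⟨b, (hcomp b).mp hb, hne⟩)
      unfold ternary
      cases hv : (C.op g).eval a0 with
      | true =>
        rw [if_pos fun b hb => (hall b hb).trans hv]
      | false =>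
        rw [if_neg, if_pos fun b hb => (hall b hb).trans hv]
        intro h
        have := h a0 hself
        rw [hv] at this
        cases this

/-! ### The theorem -/

private theorem cfg_true {n N : ℕ} {V : Type} {pl : Fin N → V → Fin n} {X : Fin N → Finset V}
    {j : Fin n} : cfg pl X j = true ↔ ∃ r a, a ∈ X r ∧ pl r a = j := by
  unfold cfg
  exact @decide_eq_true_iff _ (Classical.propDecidable _)

private theorem cfg_false {n N : ℕ} {V : Type} {pl : Fin N → V → Fin n} {X : Fin N → Finset V}
    {j : Fin n} : cfg pl X j = false ↔ ¬ ∃ r a, a ∈ X r ∧ pl r a = j := by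
  unfold cfg
  exact @decide_eq_false_iff_not _ (Classical.propDecidable _)

theorem haz_transfer3 {n s N J d : ℕ} {V ΩU ΩY : Type} [Fintype V] (C : Circuit n s)
    (hfan : ∀ g, (C.op g).isArb = true → (C.op g).preds.card ≤ 2)
    (f : (Fin n → Bool) → Bool) (hC : C.Computes f)
    (hd : J * Fintype.card V ≤ d) (x : Fin n → Bool)
    (pl : Fin N → V → Fin n) (hpl : ∀ r r' a a', pl r a = pl r' a' → r = r' ∧ a = a')
    (hx : ∀ r a, x (pl r a) = false)
    (hno : ∀ S : Finset (Fin n), (∀ j ∈ S, ∃ r a, pl r a = j) → S.card ≤ d →
      ¬ IsHazardAt C f x S)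
    (U : ΩU → Finset V) (Y : ΩY → Finset V)
    (hneg : ∀ X : Fin N → Finset V, (∀ r, X r = ∅ ∨ ∃ ω, X r ⊆ U ω) →
      f (fun j => x j || cfg pl X j) = false)
    (hpos : ∀ (X : Fin N → Finset V) (r : Fin N) (y : ΩY), X r = Y y →
      f (fun j => x j || cfg pl X j) = true) :
    ∃ (M : MNet N V (Fin n ⊕ Fin s)) (Tg : Set (Fin n ⊕ Fin s)), M.wires ≤ allWires C ∧
      (∀ (ζ : Fin N → ΩU) (Z : Finset (Fin N)), Z.card ≤ J → ∀ w ∈ Tg,
        ¬ M.On ∅ (fill U ζ Z) w) ∧
      (∀ (ζ : Fin N → ΩU) (Z : Finset (Fin N)), Z.card ≤ J → ∀ k, k ∉ Z → ∀ y : ΩY,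
        ∃ w ∈ Tg, M.On ∅ (Function.update (fill U ζ Z) k (Y y)) w) := by
  classical
  obtain ⟨a0, ha0, hout0⟩ := hC x
  have h0 : f x = false := by
    have h2 : x = fun j => x j || cfg pl (fun _ => (∅ : Finset V)) j := by
      funext j
      have h3 : cfg pl (fun _ => (∅ : Finset V)) j = false := by
        rw [cfg_false]
        rintro ⟨r, a, ha, _⟩
        exact notMem_empty _ ha
      rw [h3, Bool.or_false]
    rw [h2]
    exact hneg _ fun r => Or.inl rfl
  refine ⟨hM C pl a0, {C.out}, wires_le C pl a0, ?_, ?_⟩
  · intro ζ Z hZ w hw hon
    rw [Set.mem_singleton_iff] at hw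
    subst hw
    refine hno (supp pl (fill U ζ Z)) ?_ ?_ ⟨?_, ta C pl a0 (fill U ζ Z),
      ta_run C hfan pl hpl ha0 _, ?_⟩
    · intro j hj
      obtain ⟨r, a, _, hra⟩ := mem_supp.mp hj
      exact ⟨r, a, hra⟩
    · have hss : supp pl (fill U ζ Z) ⊆
          (Z ×ˢ (univ : Finset V)).image (fun p => pl p.1 p.2) := by
        intro j hj
        obtain ⟨r, a, ha, hra⟩ := mem_supp.mp hj
        rw [mem_image]
        refine ⟨(r, a), mem_product.mpr ⟨?_, mem_univ _⟩, hra⟩
        by_contra hr
        unfold fill at ha
        rw [if_neg hr] at ha
        exact notMem_empty _ ha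
      calc (supp pl (fill U ζ Z)).card
          ≤ ((Z ×ˢ (univ : Finset V)).image (fun p => pl p.1 p.2)).card := card_le_card hss
        _ ≤ (Z ×ˢ (univ : Finset V)).card := card_image_le
        _ = Z.card * Fintype.card V := by rw [card_product, card_univ]
        _ ≤ J * Fintype.card V := Nat.mul_le_mul_right _ hZ
        _ ≤ d := hd
    · intro y hy
      have hX : y = fun j => x j ||
          cfg pl (fun r => univ.filter (fun a => y (pl r a) = true)) j := by
        funext j
        by_cases hj : j ∈ supp pl (fill U ζ Z)
        · obtain ⟨r, a, _, hra⟩ := mem_supp.mp hj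
          have hxj : x j = false := by
            rw [← hra]
            exact hx r a
          rw [hxj, Bool.false_or]
          cases hyj : y j with
          | true =>
            symm
            rw [cfg_true]
            exact ⟨r, a, mem_filter.mpr ⟨mem_univ _, by rw [hra]; exact hyj⟩, hra⟩
          | false =>
            symm
            rw [cfg_false]
            rintro ⟨r', a', ha', hra'⟩
            have h1 := (mem_filter.mp ha').2
            rw [hra', hyj] at h1
            cases h1
        · have h1 : cfg pl (fun r => univ.filter (fun a => y (pl r a) = true)) j = false := by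
            rw [cfg_false]
            rintro ⟨r', a', ha', hra'⟩
            have h1 := (mem_filter.mp ha').2
            rw [hra', hy j hj, ← hra', hx r' a'] at h1
            cases h1
          rw [h1, Bool.or_false]
          exact hy j hj
      rw [h0, hX]
      apply hneg
      intro r
      have hsub : univ.filter (fun a => y (pl r a) = true) ⊆ fill U ζ Z r := by
        intro a ha
        have h1 := (mem_filter.mp ha).2
        have h2 : pl r a ∈ supp pl (fill U ζ Z) := by
          by_contra h3
          rw [hy _ h3, hx r a] at h1
          cases h1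
        obtain ⟨r', a', ha', hra⟩ := mem_supp.mp h2
        obtain ⟨e1, e2⟩ := hpl _ _ _ _ hra
        rw [← e1, ← e2]
        exact ha'
      by_cases hr : r ∈ Z
      · right
        refine ⟨ζ r, hsub.trans ?_⟩
        unfold fill
        rw [if_pos hr]
      · left
        rw [← subset_empty]
        refine hsub.trans ?_
        unfold fill
        rw [if_neg hr]
    · unfold ta
      rw [if_pos hon]
  · intro ζ Z _ k _ y
    refine ⟨C.out, Set.mem_singleton _, ?_⟩
    by_contra hnon
    obtain ⟨c, hc, hcout⟩ := hC (fun j => x j || cfg pl (Function.update (fill U ζ Z) k (Y y)) j)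
    have h1 : f (fun j => x j || cfg pl (Function.update (fill U ζ Z) k (Y y)) j) = true :=
      hpos _ k y (Function.update_self _ _ _)
    have h3 := run_sound C (ta_run C hfan pl hpl ha0
      (Function.update (fill U ζ Z) k (Y y))) hc (by
        intro j hj
        have h4 : cfg pl (Function.update (fill U ζ Z) k (Y y)) j = false := by
          rw [cfg_false]
          intro h
          exact hj (mem_supp.mpr h)
        rw [h4, Bool.or_false]) C.out
    unfold ta at h3
    rw [if_neg hnon, hcout, hout0, h0, h1] at h3
    rcases h3 with h3 | h3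
    · cases h3
    · exact absurd (Option.some.inj h3) (by decide)

end Pool.Agent.Lib_MP_22d2c8_so
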