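import Pool.Agent.Lib_MP_22d2c8_so.Defs

/-!
# NUMQ: the number of blocks which may be filled is at most doubly exponential

PROOF. `c = (256 K + 1) m ^ 7 ≤ 2 ^ 79 K ^ 8 ≤ K ^ 9`, `f = fF c ≤ K ^ 19`, `lL c ≤ 2 ^ K ^ 20`,
`alpha f i ≤ (f + 1) ^ i`, so `jJ c ≤ 2 ^ 2 ^ K ^ 21`.
-/

namespace Pool.Agent.Lib_MP_22d2c8_so

theorem alpha_le (f i : ℕ) : alpha f i ≤ (f + 1) ^ i := by
  induction i with
  | zero => simp [alpha]
  | succ i ih =>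
    show f * alpha f i + 1 ≤ (f + 1) ^ (i + 1)
    have h1 : f * alpha f i ≤ f * (f + 1) ^ i := Nat.mul_le_mul_left _ ih
    have h2 : 1 ≤ (f + 1) ^ i := Nat.one_le_pow _ _ (by omega)
    rw [pow_succ]
    have h3 : (f + 1) ^ i * (f + 1) = f * (f + 1) ^ i + (f + 1) ^ i := by ring
    omega

theorem kpow {K a : ℕ} (j : ℕ) (ha : a ≤ K) : a * K ^ j ≤ K ^ (j + 1) := by
  rw [pow_succ, mul_comm]
  exact Nat.mul_le_mul_left _ ha

theorem jJ_le : ∃ K0 : ℕ, ∀ K, K0 ≤ K → ∀ m, m ≤ 2 * (256 * K + 1) →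
    256 * m ^ 7 * (m ^ 2 * jJ ((256 * K + 1) * m ^ 7) + 1) ≤ dd K := by
  refine ⟨2 ^ 79, fun K hK m hm => ?_⟩
  have h642 : 642 ≤ K := le_trans (by norm_num) hK
  have hm' : m ≤ 2 ^ 10 * K := by omega
  have hq : 256 * K + 1 ≤ 2 ^ 9 * K := by omega
  obtain ⟨c, hc⟩ : ∃ c, c = (256 * K + 1) * m ^ 7 := ⟨_, rfl⟩
  have hc9 : c ≤ K ^ 9 := by
    calc c = (256 * K + 1) * m ^ 7 := hc
      _ ≤ (2 ^ 9 * K) * (2 ^ 10 * K) ^ 7 := Nat.mul_le_mul hq (Nat.pow_le_pow_left hm' _)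
      _ = 2 ^ 79 * K ^ 8 := by ring
      _ ≤ K ^ 9 := kpow 8 hK
  have hf : fF c ≤ K ^ 19 := by
    calc fF c = 642 * c ^ 2 := rfl
      _ ≤ 642 * (K ^ 9) ^ 2 := Nat.mul_le_mul_left _ (Nat.pow_le_pow_left hc9 _)
      _ = 642 * K ^ 18 := by rw [← pow_mul]
      _ ≤ K ^ 19 := kpow 18 h642
  have h1K : ∀ j, 1 ≤ K ^ j := fun j => Nat.one_le_pow _ _ (by omega)
  have hbase : 2 * fF c + 1 ≤ K ^ 20 := by
    have h1 : 3 * K ^ 19 ≤ K ^ 20 := kpow 19 (by omega)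
    have h2 := h1K 19
    omega
  have hbase2 : fF c + 1 ≤ K ^ 20 := by omega
  have hK2 : K ≤ 2 ^ K := Nat.lt_two_pow_self.le
  have hl : lL c ≤ 2 ^ K ^ 21 := by
    calc lL c = 2 * (2 * fF c + 1) ^ (fF c + 1) := rfl
      _ ≤ 2 * (K ^ 20) ^ (K ^ 19 + 1) := by
          apply Nat.mul_le_mul_left
          calc (2 * fF c + 1) ^ (fF c + 1) ≤ (K ^ 20) ^ (fF c + 1) := Nat.pow_le_pow_left hbase _
            _ ≤ (K ^ 20) ^ (K ^ 19 + 1) := Nat.pow_le_pow_right (h1K 20) (by omega)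
      _ = 2 * K ^ (20 * (K ^ 19 + 1)) := by rw [← pow_mul]
      _ ≤ 2 * (2 ^ K) ^ (20 * (K ^ 19 + 1)) :=
          Nat.mul_le_mul_left _ (Nat.pow_le_pow_left hK2 _)
      _ = 2 ^ (K * (20 * (K ^ 19 + 1)) + 1) := by
          rw [← pow_mul, pow_succ 2 (K * (20 * (K ^ 19 + 1))), mul_comm]
      _ ≤ 2 ^ K ^ 21 := by
          apply Nat.pow_le_pow_right (by norm_num)
          have h1 : 20 * (K ^ 19 + 1) + 1 ≤ K ^ 20 := by
            have h2 : 41 * K ^ 19 ≤ K ^ 20 := kpow 19 (by omega)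
            have h3 := h1K 19
            omega
          calc K * (20 * (K ^ 19 + 1)) + 1 ≤ K * (20 * (K ^ 19 + 1)) + K := by omega
            _ = K * (20 * (K ^ 19 + 1) + 1) := by ring
            _ ≤ K * K ^ 20 := Nat.mul_le_mul_left _ h1
            _ = K ^ 21 := by rw [pow_succ', ← pow_succ', ← pow_succ']
  have hj : jJ c ≤ 2 ^ 2 ^ (2 * K ^ 21) := by
    calc jJ c = alpha (fF c) (lL c) := rfl
      _ ≤ (fF c + 1) ^ lL c := alpha_le _ _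
      _ ≤ (K ^ 20) ^ lL c := Nat.pow_le_pow_left hbase2 _
      _ ≤ (K ^ 20) ^ 2 ^ K ^ 21 := Nat.pow_le_pow_right (h1K 20) hl
      _ = K ^ (20 * 2 ^ K ^ 21) := by rw [← pow_mul]
      _ ≤ (2 ^ K) ^ (20 * 2 ^ K ^ 21) := Nat.pow_le_pow_left hK2 _
      _ = 2 ^ (K * 20 * 2 ^ K ^ 21) := by rw [← pow_mul, mul_assoc]
      _ ≤ 2 ^ 2 ^ (2 * K ^ 21) := by
          apply Nat.pow_le_pow_right (by norm_num)
          rw [two_mul, pow_add]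
          apply Nat.mul_le_mul_right
          calc K * 20 = 20 * K ^ 1 := by rw [pow_one, mul_comm]
            _ ≤ K ^ 2 := kpow 1 (by omega)
            _ ≤ K ^ 21 := Nat.pow_le_pow_right (by omega) (by norm_num)
            _ ≤ 2 ^ K ^ 21 := Nat.lt_two_pow_self.le
  rw [← hc]
  obtain ⟨J, hJ⟩ : ∃ J, J = 2 ^ 2 ^ (2 * K ^ 21) := ⟨_, rfl⟩
  rw [← hJ] at hj
  have hJ1 : 1 ≤ J := by
    rw [hJ]
    exact Nat.one_le_pow _ _ (by norm_num)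
  have h11 : 11 * K + 2 ^ (2 * K ^ 21) ≤ 2 ^ K ^ 22 := by
    have h1 : 11 * K ≤ 2 ^ (2 * K ^ 21) := by
      calc 11 * K = 11 * K ^ 1 := by rw [pow_one]
        _ ≤ K ^ 2 := kpow 1 (by omega)
        _ ≤ K ^ 21 := Nat.pow_le_pow_right (by omega) (by norm_num)
        _ ≤ 2 * K ^ 21 := by omega
        _ ≤ 2 ^ (2 * K ^ 21) := Nat.lt_two_pow_self.le
    have h2 : 2 * K ^ 21 + 1 ≤ K ^ 22 := by
      have h3 : 3 * K ^ 21 ≤ K ^ 22 := kpow 21 (by omega)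
      have h4 := h1K 21
      omega
    calc 11 * K + 2 ^ (2 * K ^ 21) ≤ 2 ^ (2 * K ^ 21) + 2 ^ (2 * K ^ 21) :=
          Nat.add_le_add_right h1 _
      _ = 2 ^ (2 * K ^ 21 + 1) := by rw [pow_succ]; ring
      _ ≤ 2 ^ K ^ 22 := Nat.pow_le_pow_right (by norm_num) h2
  have hm1 : 1 ≤ 2 ^ 10 * K := by omega
  calc 256 * m ^ 7 * (m ^ 2 * jJ c + 1)
      ≤ 256 * (2 ^ 10 * K) ^ 7 * ((2 ^ 10 * K) ^ 2 * J + 1) :=
        Nat.mul_le_mul (Nat.mul_le_mul_left _ (Nat.pow_le_pow_left hm' _))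
          (Nat.add_le_add_right (Nat.mul_le_mul (Nat.pow_le_pow_left hm' _) hj) _)
    _ ≤ 256 * (2 ^ 10 * K) ^ 7 * ((2 ^ 10 * K) ^ 2 * J + (2 ^ 10 * K) ^ 2 * J) :=
        Nat.mul_le_mul_left _ (Nat.add_le_add_left
          (Nat.one_le_iff_ne_zero.2 (by positivity)) _)
    _ = 2 ^ 99 * K ^ 9 * J := by ring
    _ ≤ K ^ 2 * K ^ 9 * J := by
        apply Nat.mul_le_mul_right
        apply Nat.mul_le_mul_right
        calc 2 ^ 99 ≤ (2 ^ 79) ^ 2 := by norm_num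
          _ ≤ K ^ 2 := Nat.pow_le_pow_left hK _
    _ = K ^ 11 * J := by rw [← pow_add]
    _ ≤ (2 ^ K) ^ 11 * J := Nat.mul_le_mul_right _ (Nat.pow_le_pow_left hK2 _)
    _ = 2 ^ (11 * K + 2 ^ (2 * K ^ 21)) := by rw [hJ, ← pow_mul, ← pow_add, mul_comm K 11]
    _ ≤ 2 ^ 2 ^ K ^ 22 := Nat.pow_le_pow_right (by norm_num) h11
    _ = dd K := rfl

end Pool.Agent.Lib_MP_22d2c8_so
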