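import Pool.Agent.Lib_MP_22d2c8_so.Seg

/-!
# SEG3: the segments above a base input, and an explicit number of blocks
-/

namespace Pool.Agent.Lib_MP_22d2c8_so

open Finset
open Pool.Agent.Lib_MP_22d2c8_pm (Ed Vx permGraph)

/-- Above a base input `x` of value zero, in the blocks `e k` on which `x` is zero. -/
theorem blockPM_base {n m N : ℕ} (hm : 1 ≤ m) (x : Fin n → Bool) (hx : ¬ BlockPM n x)
    (e : Fin N → Fin (nblk n m)) (he : Function.Injective e)
    (hzero : ∀ k p, x (place hm (e k) p) = false) (X : Fin N → Finset (Ed m)) :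
    BlockPM n (fun j => x j || cfg (fun k => place hm (e k)) X j) ↔
      ∃ (k : Fin N) (σ : Equiv.Perm (Fin m)), permGraph σ ⊆ X k := by
  constructor
  · rintro ⟨m', r', hm', hr', σ, hσ⟩
    by_cases h : ∃ (i : Fin m') (k : Fin N) (a : Ed m), a ∈ X k ∧
        pos n m (e k) a.1 a.2 = pos n m' r' i (σ i)
    · obtain ⟨i, k, a, -, h1⟩ := h
      have hmm : m' = m := by
        refine seg_eq (q := pos n m (e k) a.1 a.2) (seg_le_pos _ _ _ _ _)
          (seg_pos_lt a.1.isLt a.2.isLt (seg_block_le hm (e k).isLt)) ?_ ?_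
        · rw [h1]
          exact seg_le_pos _ _ _ _ _
        · rw [h1]
          exact seg_pos_lt (Fin.isLt _) (Fin.isLt _) hr'
      subst hmm
      obtain ⟨h2, -, -⟩ := seg_pos_inj a.1.isLt a.2.isLt (Fin.isLt _) (Fin.isLt _) h1
      subst h2
      refine ⟨k, σ, ?_⟩
      intro p hp
      rw [Pool.Agent.Lib_MP_22d2c8_pm.mem_permGraph] at hp
      obtain ⟨h3, h4⟩ := hσ p.1
      have h5 : x ⟨pos n m' (e k) p.1 (σ p.1), h3⟩ = false := hzero k (p.1, σ p.1)
      have h4' : cfg (fun k => place hm (e k)) X ⟨pos n m' (e k) p.1 (σ p.1), h3⟩ = true := by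
        rcases Bool.or_eq_true_iff.1 h4 with h12 | h12
        · rw [h5] at h12
          exact absurd h12 (by decide)
        · exact h12
      obtain ⟨k', a', ha', h6⟩ := (seg_cfg_iff _ _ _).1 h4'
      have h7 : place hm (e k') a' = place hm (e k) (p.1, σ p.1) := h6
      obtain ⟨h8, h9⟩ := place_inj hm _ _ _ _ h7
      have h10 : k' = k := he h8
      have h11 : a' = p := by rw [h9, hp]
      rw [← h10, ← h11]
      exact ha'
    · exfalso
      apply hx
      refine ⟨m', r', hm', hr', σ, fun i => ?_⟩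
      obtain ⟨h1, h2⟩ := hσ i
      refine ⟨h1, ?_⟩
      rcases Bool.or_eq_true_iff.1 h2 with h3 | h3
      · exact h3
      · exfalso
        obtain ⟨k, a, ha, h4⟩ := (seg_cfg_iff _ _ _).1 h3
        exact h ⟨i, k, a, ha, congrArg Fin.val h4⟩
  · rintro ⟨k, σ, h⟩
    refine ⟨m, e k, hm, seg_block_le hm (e k).isLt, σ,
      fun i => ⟨pos_lt hm (e k) (i, σ i), ?_⟩⟩
    refine Bool.or_eq_true_iff.2 (Or.inr ?_)
    refine (seg_cfg_iff _ _ _).2 ⟨k, (i, σ i), h ?_, rfl⟩
    exact Pool.Agent.Lib_MP_22d2c8_pm.mem_permGraph.2 rfl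

/-- Many blocks. -/
theorem nblk_ge_q {n m : ℕ} (hm : 1 ≤ m) (hn : 64 * m ^ 7 ≤ n) :
    n ≤ 64 * m ^ 7 * nblk n m := nblk_ge_of hm hn

end Pool.Agent.Lib_MP_22d2c8_so
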