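import Pool.Agent.Lib_MP_22d2c8_so.Main
import Pool.Agent.Lib_MP_22d2c8_so.HardPMQ
import Pool.Agent.Lib_MP_22d2c8_so.Seg3
import Pool.Agent.Lib_MP_22d2c8_so.NumQ
import Pool.Agent.Lib_MP_22d2c8_so.HazApp3

/-!
# HAZQ: many disjoint hazards at every sparse input, explicit

PROOF. `A = 256 K + 1`, `m` from `exists_hard_q`, `c = A m ^ 7`, `J = jJ c`, `d = J m ^ 2`, so
`256 m ^ 7 (d + 1) ≤ dd K` (`jJ_le`). Take a family `F` of pairwise disjoint hazards (at `x`) of size at
most `d` with the largest number of elements. Suppose `dd K * F.card < n`. At most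
`d F.card + ones` blocks of segment `m` contain a one of `x` or an element of a member of `F`, this is
at most `n / (128 m ^ 7) ≤ nb / 2` blocks, `nb = nblk n m`. The other blocks, `N ≥ nb / 2` of them:
`pl k = place (e k)`, `e` injective. No set of variables of these blocks is a hazard of size at most
`d` (it would be nonempty, since the ternary run without unstable variables is the run, and disjoint
from the members of `F`). `blockPM_base`, `haz_transfer3` and `wires_ge`:
`c N ≤ allWires C ≤ K n`, but `128 c N ≥ 64 A m ^ 7 nb ≥ A n > 256 K n`.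
-/

namespace Pool.Agent.Lib_MP_22d2c8_so

open Finset
open Pool.Agent.Lib_MP_22d2c8_gen (Op Circuit)
open Pool.Agent.Lib_MP_22d2c8_pm (Ed Vx cut permGraph)

/-- The ternary run without unstable variables is stable. -/
private theorem hazq_some {n s : ℕ} (C : Circuit n s) {x : Fin n → Bool}
    {a : Fin n ⊕ Fin s → Option Bool} (ha : IsTernaryRun C (unstableAt x ∅) a) :
    ∀ v, a v ≠ none := by
  obtain ⟨rank, hrank⟩ := C.acyclic
  have main : ∀ k, ∀ v, rank v = k → a v ≠ none := by
    intro k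
    induction k using Nat.strong_induction_on with
    | _ k ih =>
      intro v hv
      rcases v with j | g
      · rw [ha.1 j]
        unfold unstableAt
        rw [if_neg (Finset.notMem_empty j)]
        exact Option.some_ne_none _
      · rw [ha.2 g]
        have hp : ∀ u ∈ (C.op g).preds, a u ≠ none := fun u hu =>
          ih (rank u) (by rw [← hv]; exact hrank g u hu) u rfl
        have hb : ∀ b : Fin n ⊕ Fin s → Bool,
            (∀ u ∈ (C.op g).preds, a u = none ∨ a u = some (b u)) →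
            (C.op g).eval b = (C.op g).eval (fun u => (a u).getD false) := by
          intro b hb
          apply Pool.Agent.Lib_MP_22d2c8_gen.eval_congr
          intro u hu
          rcases hb u hu with h | h
          · exact absurd h (hp u hu)
          · rw [h]
            rfl
        unfold ternary
        split_ifs with h1 h2
        · exact Option.some_ne_none _
        · exact Option.some_ne_none _
        · exfalso
          cases hv0 : (C.op g).eval (fun u => (a u).getD false) with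
          | true => exact h1 fun b h => (hb b h).trans hv0
          | false => exact h2 fun b h => (hb b h).trans hv0
  exact fun v => main _ v rfl

/-- A hazard is not empty. -/
private theorem hazq_nonempty {n s : ℕ} (C : Circuit n s) {f : (Fin n → Bool) → Bool}
    {x : Fin n → Bool} {S : Finset (Fin n)} (h : IsHazardAt C f x S) : S ≠ ∅ := by
  rintro rfl
  obtain ⟨a, ha, hout⟩ := h.2
  exact hazq_some C ha _ hout

/-- The arithmetic of the number of bad blocks. -/
private theorem hazq_bad {n m d D q t nb b : ℕ} (hm : 1 ≤ m) (hb : b ≤ q + d * t)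
    (h1 : 256 * m ^ 7 * (d + 1) ≤ D) (h2 : D * (q + 1) ≤ n) (h3 : D * t < n)
    (h4 : n ≤ 64 * m ^ 7 * nb) : 2 * b ≤ nb := by
  have h7 : 0 < 128 * m ^ 7 := Nat.mul_pos (by norm_num) (pow_pos hm 7)
  have e1 : 256 * m ^ 7 * q ≤ n := by
    calc 256 * m ^ 7 * q ≤ 256 * m ^ 7 * (d + 1) * q :=
          Nat.mul_le_mul_right _ (Nat.le_mul_of_pos_right _ (Nat.succ_pos d))
      _ ≤ D * q := Nat.mul_le_mul_right _ h1
      _ ≤ D * (q + 1) := Nat.mul_le_mul_left _ (Nat.le_succ q)
      _ ≤ n := h2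
  have e2 : 256 * m ^ 7 * (d * t) ≤ n := by
    calc 256 * m ^ 7 * (d * t) = 256 * m ^ 7 * d * t := by ring
      _ ≤ 256 * m ^ 7 * (d + 1) * t :=
          Nat.mul_le_mul_right _ (Nat.mul_le_mul_left _ (Nat.le_succ d))
      _ ≤ D * t := Nat.mul_le_mul_right _ h1
      _ ≤ n := h3.le
  have e3 : 256 * m ^ 7 * b ≤ 2 * n := by
    calc 256 * m ^ 7 * b ≤ 256 * m ^ 7 * (q + d * t) := Nat.mul_le_mul_left _ hb
      _ = 256 * m ^ 7 * q + 256 * m ^ 7 * (d * t) := by ring
      _ ≤ n + n := Nat.add_le_add e1 e2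
      _ = 2 * n := by ring
  refine Nat.le_of_mul_le_mul_left (?_ : 128 * m ^ 7 * (2 * b) ≤ 128 * m ^ 7 * nb) h7
  calc 128 * m ^ 7 * (2 * b) = 256 * m ^ 7 * b := by ring
    _ ≤ 2 * n := e3
    _ ≤ 2 * (64 * m ^ 7 * nb) := Nat.mul_le_mul_left _ h4
    _ = 128 * m ^ 7 * nb := by ring

theorem hazards_q : ∃ K0 : ℕ, ∀ K, K0 ≤ K → ∀ (n s : ℕ) (C : Circuit n s),
    (∀ g, (C.op g).isArb = true → (C.op g).preds.card ≤ 2) → C.Computes (pmFun n) →
    allWires C ≤ K * n → ∀ x : Fin n → Bool, pmFun n x = false →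
    dd K * ((univ.filter (fun j => x j = true)).card + 1) ≤ n →
    ∃ F : Finset (Finset (Fin n)), n ≤ dd K * F.card ∧
      (∀ S ∈ F, S.card ≤ dd K ∧ IsHazardAt C (pmFun n) x S) ∧
      ∀ S ∈ F, ∀ S' ∈ F, S ≠ S' → Disjoint S S' := by
  classical
  obtain ⟨A0, hA0⟩ := exists_hard_q
  obtain ⟨K1, hK1⟩ := jJ_le
  refine ⟨max A0 K1, fun K hK n s C hfan hC hw x hx hn => ?_⟩
  have hKA : A0 ≤ K := le_trans (le_max_left _ _) hK
  have hKK : K1 ≤ K := le_trans (le_max_right _ _) hK
  obtain ⟨m, inst, -, hmA, hard⟩ := hA0 (256 * K + 1) (by omega)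
  have : NeZero m := inst
  have hm : 1 ≤ m := Nat.one_le_iff_ne_zero.2 (NeZero.ne m)
  have hJ := hK1 K hKK m hmA
  obtain ⟨c, hc⟩ : ∃ c, c = (256 * K + 1) * m ^ 7 := ⟨_, rfl⟩
  rw [← hc] at hard hJ
  obtain ⟨d, hd⟩ : ∃ d, d = m ^ 2 * jJ c := ⟨_, rfl⟩
  rw [← hd] at hJ
  generalize dd K = D at hJ hn ⊢
  have h7 : 1 ≤ m ^ 7 := Nat.one_le_pow _ _ hm
  have hc1 : 1 ≤ c := by
    rw [hc]
    exact Nat.mul_pos (by omega) h7
  have hcard : Fintype.card (Ed m) = m ^ 2 := by
    rw [Fintype.card_prod, Fintype.card_fin, sq]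
  have hVc : Fintype.card (Ed m) ≤ c := by
    rw [hcard, hc]
    calc m ^ 2 ≤ m ^ 7 := Nat.pow_le_pow_right hm (by omega)
      _ = 1 * m ^ 7 := (one_mul _).symm
      _ ≤ (256 * K + 1) * m ^ 7 := Nat.mul_le_mul_right _ (by omega)
  have hE : d + 1 ≤ D := by
    calc d + 1 ≤ 256 * m ^ 7 * (d + 1) := Nat.le_mul_of_pos_left _ (by omega)
      _ ≤ D := hJ
  have hD1 : D ≤ n := by
    calc D = D * 1 := (mul_one D).symm
      _ ≤ D * ((univ.filter (fun j => x j = true)).card + 1) :=
          Nat.mul_le_mul_left _ (by omega)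
      _ ≤ n := hn
  have hn64 : 64 * m ^ 7 ≤ n := by
    have h1 : 256 * m ^ 7 * 1 ≤ 256 * m ^ 7 * (d + 1) := Nat.mul_le_mul_left _ (by omega)
    omega
  have hn1 : 1 ≤ n := by omega
  have hnb := nblk_ge_q hm hn64
  -- a maximal family
  obtain ⟨F, hF, hFmax⟩ : ∃ F : Finset (Finset (Fin n)),
      ((∀ S ∈ F, S.card ≤ d ∧ IsHazardAt C (pmFun n) x S) ∧
        ∀ S ∈ F, ∀ S' ∈ F, S ≠ S' → Disjoint S S') ∧
      ∀ F' : Finset (Finset (Fin n)),
        ((∀ S ∈ F', S.card ≤ d ∧ IsHazardAt C (pmFun n) x S) ∧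
          ∀ S ∈ F', ∀ S' ∈ F', S ≠ S' → Disjoint S S') → F'.card ≤ F.card := by
    obtain ⟨F, hF, hFmax⟩ := Finset.exists_max_image
      (univ.filter (fun F : Finset (Finset (Fin n)) =>
        (∀ S ∈ F, S.card ≤ d ∧ IsHazardAt C (pmFun n) x S) ∧
          ∀ S ∈ F, ∀ S' ∈ F, S ≠ S' → Disjoint S S')) Finset.card
      ⟨∅, mem_filter.2 ⟨mem_univ _, fun S hS => absurd hS (notMem_empty _),
        fun S hS => absurd hS (notMem_empty _)⟩⟩
    exact ⟨F, (mem_filter.1 hF).2, fun F' hF' => hFmax F' (mem_filter.2 ⟨mem_univ _, hF'⟩)⟩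
  refine ⟨F, ?_, fun S hS => ⟨((hF.1 S hS).1).trans (by omega), (hF.1 S hS).2⟩, hF.2⟩
  by_contra hlt
  have hlt' : D * F.card < n := not_le.1 hlt
  -- the bad positions
  obtain ⟨Q, hQ⟩ : ∃ Q : Finset (Fin n),
      Q = univ.filter (fun j => x j = true) ∪ F.biUnion id := ⟨_, rfl⟩
  have hQc : Q.card ≤ (univ.filter (fun j => x j = true)).card + d * F.card := by
    rw [hQ]
    refine (card_union_le _ _).trans (Nat.add_le_add_left ?_ _)
    rw [mul_comm]
    exact card_biUnion_le_card_mul _ _ _ fun S hS => (hF.1 S hS).1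
  obtain ⟨B, hB⟩ : ∃ B : Finset (Fin (nblk n m)),
      B = univ.filter (fun r => ∃ p, place hm r p ∈ Q) := ⟨_, rfl⟩
  have hBmem : ∀ r, r ∈ B ↔ ∃ p, place hm r p ∈ Q := by
    intro r
    rw [hB, mem_filter]
    exact ⟨fun h => h.2, fun h => ⟨mem_univ _, h⟩⟩
  have hBc : B.card ≤ Q.card := by
    refine card_le_card_of_injOn
      (fun r => if h : ∃ p, place hm r p ∈ Q then place hm r h.choose else place hm r (0, 0))
      ?_ ?_
    · intro r hr
      have h := (hBmem r).1 (mem_coe.1 hr)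
      show (if h : ∃ p, place hm r p ∈ Q then place hm r h.choose else place hm r (0, 0)) ∈ _
      rw [dif_pos h]
      exact mem_coe.2 h.choose_spec
    · intro r hr r' hr' hrr
      have h := (hBmem r).1 (mem_coe.1 hr)
      have h' := (hBmem r').1 (mem_coe.1 hr')
      have hrr2 : (if h : ∃ p, place hm r p ∈ Q then place hm r h.choose
          else place hm r (0, 0)) =
          (if h : ∃ p, place hm r' p ∈ Q then place hm r' h.choose
          else place hm r' (0, 0)) := hrr
      rw [dif_pos h, dif_pos h'] at hrr2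
      exact (place_inj hm _ _ _ _ hrr2).1
  have h2B : 2 * B.card ≤ nblk n m :=
    hazq_bad hm (hBc.trans hQc) hJ hn hlt' hnb
  have hGc : Bᶜ.card = nblk n m - B.card := by
    rw [card_compl, Fintype.card_fin]
  obtain ⟨N, hN⟩ : ∃ N, N = nblk n m - B.card := ⟨_, rfl⟩
  rw [← hN] at hGc
  have hNnb : nblk n m ≤ 2 * N := by omega
  -- the good blocks
  obtain ⟨e, hemem, heinj⟩ : ∃ e : Fin N → Fin (nblk n m), (∀ k, e k ∉ B) ∧
      Function.Injective e := by
    refine ⟨fun k => Bᶜ.orderEmbOfFin hGc k, fun k => ?_, ?_⟩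
    · exact mem_compl.1 (Finset.orderEmbOfFin_mem Bᶜ hGc k)
    · exact (Bᶜ.orderEmbOfFin hGc).injective
  have hgood : ∀ k p, place hm (e k) p ∉ Q := fun k p h => hemem k ((hBmem _).2 ⟨p, h⟩)
  have hzero : ∀ k p, x (place hm (e k) p) = false := by
    intro k p
    by_contra h
    refine hgood k p ?_
    rw [hQ]
    refine mem_union_left _ (mem_filter.2 ⟨mem_univ _, ?_⟩)
    cases hxx : x (place hm (e k) p) with
    | true => rfl
    | false => exact absurd hxx h
  have hxB : ¬ BlockPM n x := by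
    have h1 := hx
    simp only [pmFun, decide_eq_false_iff_not] at h1
    exact h1
  have hno : ∀ S : Finset (Fin n), (∀ j ∈ S, ∃ r a, place hm (e r) a = j) → S.card ≤ d →
      ¬ IsHazardAt C (pmFun n) x S := by
    intro S hS hSd hhaz
    have hSne := hazq_nonempty C hhaz
    have hdis : ∀ S' ∈ F, Disjoint S S' := by
      intro S' hS'
      rw [Finset.disjoint_left]
      intro j hj hj'
      obtain ⟨r, a, hra⟩ := hS j hj
      refine hgood r a ?_
      rw [hQ, hra]
      exact mem_union_right _ (mem_biUnion.2 ⟨S', hS', hj'⟩)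
    have hSF : S ∉ F := by
      intro h
      have h1 := hdis S h
      rw [disjoint_self] at h1
      exact hSne h1
    have h1 := hFmax (insert S F) ⟨?_, ?_⟩
    · rw [card_insert_of_notMem hSF] at h1
      omega
    · intro S' hS'
      rcases mem_insert.1 hS' with h | h
      · rw [h]
        exact ⟨hSd, hhaz⟩
      · exact hF.1 S' h
    · intro S1 h1 S2 h2 hne
      rcases mem_insert.1 h1 with e1 | e1
      · rcases mem_insert.1 h2 with e2 | e2
        · exact absurd (e1.trans e2.symm) hne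
        · rw [e1]
          exact hdis S2 e2
      · rcases mem_insert.1 h2 with e2 | e2
        · rw [e2]
          exact (hdis S1 e1).symm
        · exact hF.2 S1 e1 S2 e2 hne
  have hneg : ∀ X : Fin N → Finset (Ed m),
      (∀ r, X r = ∅ ∨ ∃ ω : Vx m → Bool, X r ⊆ cut ω) →
      pmFun n (fun j => x j || cfg (fun k => place hm (e k)) X j) = false := by
    intro X hX
    have h1 : ¬ BlockPM n (fun j => x j || cfg (fun k => place hm (e k)) X j) := by
      rw [blockPM_base hm x hxB e heinj hzero X]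
      rintro ⟨r, σ, hσ⟩
      rcases hX r with h | ⟨ω, h⟩
      · rw [h] at hσ
        have h2 : ((0 : Fin m), σ 0) ∈ permGraph σ := Lib_MP_22d2c8_pm.mem_permGraph.2 rfl
        exact absurd (hσ h2) (Finset.notMem_empty _)
      · exact Lib_MP_22d2c8_pm.cut_no_matching ω σ (hσ.trans h)
    simp only [pmFun, decide_eq_false_iff_not]
    exact h1
  have hpos : ∀ (X : Fin N → Finset (Ed m)) (r : Fin N)
      (y : Equiv.Perm (Fin m)), X r = permGraph y →
      pmFun n (fun j => x j || cfg (fun k => place hm (e k)) X j) = true := by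
    intro X r y hy
    have h1 : BlockPM n (fun j => x j || cfg (fun k => place hm (e k)) X j) := by
      rw [blockPM_base hm x hxB e heinj hzero X]
      exact ⟨r, y, by rw [hy]⟩
    simp only [pmFun, decide_eq_true_eq]
    exact h1
  obtain ⟨M, Tg, hwM, hnM, hpM⟩ := haz_transfer3 (J := jJ c) (d := d) C hfan (pmFun n) hC
    (by rw [hcard, hd, mul_comm]) x (fun k => place hm (e k))
    (fun r r' a a' h => ⟨heinj (place_inj hm _ _ _ _ h).1, (place_inj hm _ _ _ _ h).2⟩)
    hzero hno (cut : (Vx m → Bool) → Finset (Ed m))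
    (permGraph : Equiv.Perm (Fin m) → Finset (Ed m)) hneg hpos
  have h1 : c * N ≤ M.wires := wires_ge M cut permGraph hc1 hVc hard Tg hnM hpM
  have h2 : c * N ≤ K * n := h1.trans (hwM.trans hw)
  have h4 : (256 * K + 1) * n ≤ 128 * (c * N) := by
    calc (256 * K + 1) * n ≤ (256 * K + 1) * (64 * m ^ 7 * nblk n m) :=
          Nat.mul_le_mul_left _ hnb
      _ = 64 * c * nblk n m := by rw [hc]; ring
      _ ≤ 64 * c * (2 * N) := Nat.mul_le_mul_left _ hNnb
      _ = 128 * (c * N) := by ring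
  have h5 : (256 * K + 1) * n ≤ 128 * (K * n) := h4.trans (Nat.mul_le_mul_left 128 h2)
  have h6 : (256 * K + 1) * n = 256 * (K * n) + n := by ring
  rw [h6] at h5
  omega

end Pool.Agent.Lib_MP_22d2c8_so
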