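import Pool.Agent.Lib_MP_22d2c8_so.Stable
import Pool.Agent.Lib_MP_22d2c8_so.Choice
import Pool.Agent.Lib_MP_22d2c8_so.End

/-!
# MAIN: the number of wires of a monotone network
-/

namespace Pool.Agent.Lib_MP_22d2c8_so

open Finset
open Pool.Agent.Lib_MP_22d2c8_rsf

theorem flipProb_nonneg {N : ℕ} {V W Ω : Type} [Fintype Ω] (M : MNet N V W)
    (U : Ω → Finset V) (ζ : Fin N → Ω) (a : ℕ) (t : Fin N) (w : W) :
    0 ≤ flipProb M U ζ a t w := prob_nonneg _

/-- Few bad levels. -/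
theorem many_good (L P : ℕ) (hL : L = 2 * P) (S : ℕ → ℝ) (hS : ∀ i, 0 ≤ S i) {b X : ℝ}
    (hb : 0 < b) (hX : 0 ≤ X) (h : ∑ i ∈ range L, S i + X < 2 * L * b) :
    P < ((range L).filter (fun i => S i ≤ 4 * b)).card := by
  classical
  have h1 : (((range L).filter (fun i => ¬ S i ≤ 4 * b)).card : ℝ) * (4 * b) ≤
      ∑ i ∈ range L, S i := by
    have h2 : ∑ _i ∈ (range L).filter (fun i => ¬ S i ≤ 4 * b), (4 * b) ≤
        ∑ i ∈ (range L).filter (fun i => ¬ S i ≤ 4 * b), S i :=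
      Finset.sum_le_sum fun i hi => (not_le.mp (Finset.mem_filter.mp hi).2).le
    rw [Finset.sum_const, nsmul_eq_mul] at h2
    exact h2.trans (Finset.sum_le_sum_of_subset_of_nonneg (Finset.filter_subset _ _)
      fun i _ _ => hS i)
  have h3 : (((range L).filter (fun i => ¬ S i ≤ 4 * b)).card : ℝ) < P := by
    have h4 : (((range L).filter (fun i => ¬ S i ≤ 4 * b)).card : ℝ) * (4 * b) <
        P * (4 * b) := by
      have h5 : (L : ℝ) = 2 * P := by exact_mod_cast hL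
      rw [h5] at h
      linarith
    exact lt_of_mul_lt_mul_right h4 (by positivity)
  have h4 : ((range L).filter (fun i => ¬ S i ≤ 4 * b)).card < P := by exact_mod_cast h3
  have h5 := Finset.card_filter_add_card_filter_not (s := range L) (fun i => S i ≤ 4 * b)
  rw [Finset.card_range] at h5
  omega

theorem fF_pos {c : ℕ} (hc : 1 ≤ c) : 642 ≤ fF c ∧ c ≤ fF c := by
  unfold fF
  constructor
  · nlinarith
  · nlinarith

theorem wires_ge {N c : ℕ} {V W ΩU ΩY : Type} [Fintype V] [DecidableEq V] [Fintype W]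
    [DecidableEq W] [Fintype ΩU] [Nonempty ΩU] [Fintype ΩY] [Nonempty ΩY]
    (M : MNet N V W) (U : ΩU → Finset V) (Y : ΩY → Finset V) (hc : 1 ≤ c)
    (hV : Fintype.card V ≤ c)
    (hard : Hard U Y ((3 * fF c) ^ 2) 10 (1 / (2000 * (c : ℝ) ^ 2)))
    (Tg : Set W)
    (hneg : ∀ (ζ : Fin N → ΩU) (Z : Finset (Fin N)), Z.card ≤ jJ c → ∀ w ∈ Tg,
        ¬ M.On ∅ (fill U ζ Z) w)
    (hpos : ∀ (ζ : Fin N → ΩU) (Z : Finset (Fin N)), Z.card ≤ jJ c → ∀ k, k ∉ Z → ∀ y : ΩY,
        ∃ w ∈ Tg, M.On ∅ (Function.update (fill U ζ Z) k (Y y)) w) :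
    c * N ≤ M.wires := by
  by_contra hlt
  have hw : M.wires < c * N := not_le.mp hlt
  have hc1 : (1 : ℝ) ≤ c := by exact_mod_cast hc
  obtain ⟨hf642, hcf⟩ := fF_pos hc
  have hP1 : 1 ≤ (2 * fF c + 1) ^ (fF c + 1) := Nat.one_le_pow _ _ (by omega)
  have hL1 : 1 ≤ lL c := by
    unfold lL
    omega
  obtain ⟨t, ζ, hch⟩ := exists_choice M U (alpha (fF c)) (lL c) c hL1 hw
  obtain ⟨ε, hε⟩ : ∃ ε : ℝ, ε = 1 / (160 * c) := ⟨_, rfl⟩
  have hε0 : 0 < ε := by
    rw [hε]
    positivity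
  have hεc : ε * (160 * c) = 1 := by
    rw [hε]
    field_simp
  let q : ℕ → W → ℝ := fun i w => flipProb M U ζ (alpha (fF c) i) t w
  let st : ℕ → W → ℕ := fun i w => stat M U ζ ε t (alpha (fF c) i) w
  let S : ℕ → ℝ := fun i => ∑ w, ((M.fed w).card : ℝ) * q i w
  obtain ⟨X, hXdef⟩ : ∃ X : ℝ, X = ∑ w ∈ M.inps t, ((M.fed w).card : ℝ) := ⟨_, rfl⟩
  have hS0 : ∀ i, 0 ≤ S i := fun i => Finset.sum_nonneg fun w _ =>
    mul_nonneg (Nat.cast_nonneg _) (flipProb_nonneg _ _ _ _ _ _)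
  have hX0 : 0 ≤ X := by
    rw [hXdef]
    exact Finset.sum_nonneg fun w _ => Nat.cast_nonneg _
  rw [← hXdef] at hch
  have hL0 : (0 : ℝ) < lL c := by exact_mod_cast hL1
  have hX : X < 2 * c := by
    have h1 : 0 ≤ ∑ i ∈ range (lL c), S i := Finset.sum_nonneg fun i _ => hS0 i
    have h2 : (lL c : ℝ) * X < lL c * (2 * c) := by
      have : ∑ i ∈ range (lL c), S i + lL c * X < 2 * lL c * c := hch
      linarith
    exact lt_of_mul_lt_mul_left h2 hL0.le
  have hG := many_good (lL c) ((2 * fF c + 1) ^ (fF c + 1)) rfl S hS0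
    (b := (c : ℝ)) (X := lL c * X) (by linarith) (by positivity) hch
  -- the degrees
  have hsum : ∀ i ∈ (range (lL c)).filter (fun i => S i ≤ 4 * (c : ℝ)),
      ∑ u ∈ M.inps t ∪ univ.filter (fun w => st i w = 1), (M.fed u).card ≤ fF c := by
    intro i hi
    have hSi : S i ≤ 4 * c := (Finset.mem_filter.mp hi).2
    have h1 : ε * ∑ u ∈ univ.filter (fun w => st i w = 1), ((M.fed u).card : ℝ) ≤ S i := by
      rw [Finset.mul_sum]
      refine le_trans (Finset.sum_le_sum fun u hu => ?_)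
        (Finset.sum_le_sum_of_subset_of_nonneg (Finset.filter_subset _ _)
          (f := fun w => ((M.fed w).card : ℝ) * q i w) fun w _ _ =>
            mul_nonneg (Nat.cast_nonneg _) (flipProb_nonneg _ _ _ _ _ _))
      rw [mul_comm]
      exact mul_le_mul_of_nonneg_left (of_stat_one (Finset.mem_filter.mp hu).2).2
        (Nat.cast_nonneg _)
    have h2 : ∑ u ∈ univ.filter (fun w => st i w = 1), ((M.fed u).card : ℝ) ≤
        640 * (c : ℝ) ^ 2 := by
      have h3 : ε * ∑ u ∈ univ.filter (fun w => st i w = 1), ((M.fed u).card : ℝ) ≤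
          ε * (640 * (c : ℝ) ^ 2) := by
        have h4 : ε * (640 * (c : ℝ) ^ 2) = (ε * (160 * c)) * (4 * c) := by ring
        rw [h4, hεc, one_mul]
        exact h1.trans hSi
      exact le_of_mul_le_mul_left h3 hε0
    have h5 : ((∑ u ∈ M.inps t ∪ univ.filter (fun w => st i w = 1), (M.fed u).card : ℕ) : ℝ) ≤
        ((fF c : ℕ) : ℝ) := by
      push_cast
      have h6 : ∑ u ∈ M.inps t ∪ univ.filter (fun w => st i w = 1), ((M.fed u).card : ℝ) ≤
          ∑ u ∈ M.inps t, ((M.fed u).card : ℝ) +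
            ∑ u ∈ univ.filter (fun w => st i w = 1), ((M.fed u).card : ℝ) := by
        rw [← Finset.sum_union_inter]
        have : 0 ≤ ∑ u ∈ M.inps t ∩ univ.filter (fun w => st i w = 1), ((M.fed u).card : ℝ) :=
          Finset.sum_nonneg fun w _ => Nat.cast_nonneg _
        linarith
      rw [← hXdef] at h6
      have h7 : ((fF c : ℕ) : ℝ) = 642 * (c : ℝ) ^ 2 := by
        unfold fF
        push_cast
        ring
      rw [h7]
      nlinarith
    exact_mod_cast h5
  obtain ⟨i, hi, j, hj, hij, R, hRf, hR, hRB⟩ := stable_pair M.fed (M.inps t) (fF c)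
    ((range (lL c)).filter (fun i => S i ≤ 4 * (c : ℝ))) st (fun i w => stat_le_two)
    (fun i j hij w => stat_mono (alpha_mono _ (by omega) hij))
    (fun i hi => (Finset.card_biUnion_le).trans (hsum i hi)) hG
  have hsumR : ∑ u ∈ M.inps t ∪ R, (M.fed u).card ≤ fF c := by
    refine le_trans (Finset.sum_le_sum_of_subset ?_) (hsum j hj)
    refine Finset.union_subset_union (Finset.Subset.refl _) fun w hw' => ?_
    rw [Finset.mem_filter]
    exact ⟨Finset.mem_univ _, (hR w hw').1⟩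
  have hmemX : ∀ u, (u ∈ R ∨ M.InpOf t u) → u ∈ M.inps t ∪ R := by
    intro u hu
    rw [Finset.mem_union]
    rcases hu with h | h
    · exact Or.inr h
    · exact Or.inl (MNet.mem_inps.mpr h)
  have hfed : ∀ w u, u ∈ (M.kind w).preds → w ∈ M.fed u := fun w u hu => MNet.mem_fed.mpr hu
  have hjL : j < lL c := Finset.mem_range.mp (Finset.mem_filter.mp hj).1
  refine end_contra M U Y ζ t (ε := ε) (e := 1 / (2000 * (c : ℝ) ^ 2)) (ai := alpha (fF c) i)
    (aj := alpha (fF c) j) (f := fF c) (J := jJ c) (s := (3 * fF c) ^ 2) R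
    ((M.inps t ∪ R).biUnion M.fed) hε0 (by positivity) hRf
    ((Finset.card_biUnion_le).trans hsumR) ?_ hRB ?_ ?_ ?_ Tg hneg hpos hard ?_ ?_
  · intro w u hu huP
    exact Finset.mem_biUnion.mpr ⟨u, hmemX u hu, hfed w u huP⟩
  · intro w F hF
    refine le_trans ?_ hsumR
    rw [Finset.card_eq_sum_ones]
    refine le_trans (Finset.sum_le_sum fun u hu => ?_) (Finset.sum_le_sum_of_subset
      (f := fun u => (M.fed u).card) (fun u hu => hmemX u (hF u hu).2))
    exact Finset.card_pos.mpr ⟨w, hfed w u (hF u hu).1⟩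
  · exact alpha_mono (fF c) (by omega) (Nat.succ_le_of_lt hij)
  · exact alpha_mono (fF c) (by omega) hjL.le
  · apply Nat.pow_le_pow_left
    omega
  · have h7 : ((fF c : ℕ) : ℝ) = 642 * (c : ℝ) ^ 2 := by
      unfold fF
      push_cast
      ring
    have hVc : (Fintype.card V : ℝ) ≤ c := by exact_mod_cast hV
    have hc2 : (c : ℝ) ≤ (c : ℝ) ^ 2 := by nlinarith
    have hc0 : (0 : ℝ) < (c : ℝ) ^ 2 := by positivity
    have h8 : 10 * ε ^ 2 + 1 / (2000 * (c : ℝ) ^ 2) = (1 / 2560 + 1 / 2000) / (c : ℝ) ^ 2 := by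
      rw [hε]
      field_simp
      norm_num
    rw [h7, h8, mul_div_assoc', div_lt_one hc0]
    nlinarith

end Pool.Agent.Lib_MP_22d2c8_so
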