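import Pool.Agent.Lib_MP_22d2c8_so.Defs

/-!
# NEGAPP: circuits with few entry changes give monotone networks

PROOF. Call `(Z0, ζ0)` (a set of blocks, contents) with `|Z0| ≤ J * k` of length `k` if there is an
increasing chain of `k + 1` inputs `cfg pl (fill U ζ0 Zi)` from the zero input to `cfg pl (fill U ζ0
Z0)` such that the entry vector changes at each step. `k ≤ T` for all of them; take one with `k`
maximal. Then for all `Z` disjoint from `Z0` with `|Z| ≤ J` and all contents `ζ'` on `Z` the entry vector
at `Z0 ∪ Z` is the one at `Z0`. `N'` blocks outside `Z0` are the blocks of the network (`N' + J T ≤ N`).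
The network: arbitrary gates have the constant value they have at `Z0` (`and ∅` = one, `or ∅` =
zero), inputs: variable of a free block, or the constant value at `Z0`. Targets: the output, and the
entry vertices whose value at `Z0` is zero. (Neg): for `|Z| ≤ J` the run of the circuit is the frozen
run (`run_is_frozen`), the entries are as at `Z0`, the output is zero. (Pos): if all entries with
value zero at `Z0` are zero in the frozen run then it is the run of the circuit (`frozen_is_run`),
and the output is one.
-/

namespace Pool.Agent.Lib_MP_22d2c8_so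

open Finset
open Pool.Agent.Lib_MP_22d2c8_gen (Op Circuit)

private theorem cfg_iff {n N : ℕ} {V : Type} (pl : Fin N → V → Fin n) (X : Fin N → Finset V)
    (j : Fin n) : cfg pl X j = true ↔ ∃ r a, a ∈ X r ∧ pl r a = j := by
  unfold cfg
  exact @decide_eq_true_iff _ (Classical.propDecidable _)

private theorem cfg_mono {n N : ℕ} {V : Type} (pl : Fin N → V → Fin n) {X X' : Fin N → Finset V}
    (h : ∀ r, X r ⊆ X' r) (j : Fin n) (hj : cfg pl X j = true) : cfg pl X' j = true := by
  rw [cfg_iff] at hj ⊢
  obtain ⟨r, a, ha, hr⟩ := hj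
  exact ⟨r, a, h r ha, hr⟩

/-- the contents `U (ζ r)` on `Z`, the old contents elsewhere -/
private def ovr {N : ℕ} {V Ω : Type} (U : Ω → Finset V) (X : Fin N → Finset V)
    (Z : Finset (Fin N)) (ζ : Fin N → Ω) : Fin N → Finset V :=
  fun r => if r ∈ Z then U (ζ r) else X r

private theorem walk {n s N T J : ℕ} {V ΩU : Type} (C : Circuit n s)
    (hT : C.EntryChangesLE T) (pl : Fin N → V → Fin n) (U : ΩU → Finset V) :
    ∃ (Z0 : Finset (Fin N)) (X0 : Fin N → Finset V), Z0.card ≤ J * T ∧
      (∀ r, r ∉ Z0 → X0 r = ∅) ∧ (∀ r, X0 r = ∅ ∨ ∃ ω, X0 r = U ω) ∧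
      ∀ (Z : Finset (Fin N)) (ζ : Fin N → ΩU), (∀ r ∈ Z, r ∉ Z0) → Z.card ≤ J →
        ∀ a b, C.IsRun (cfg pl X0) a → C.IsRun (cfg pl (ovr U X0 Z ζ)) b →
          ∀ u ∈ C.entry, b u = a u := by
  classical
  by_contra hcon
  push Not at hcon
  have main : ∀ k, k ≤ T + 1 → ∃ (x : ℕ → Fin n → Bool) (Z0 : Finset (Fin N))
      (X0 : Fin N → Finset V), Z0.card ≤ J * k ∧ (∀ r, r ∉ Z0 → X0 r = ∅) ∧
      (∀ r, X0 r = ∅ ∨ ∃ ω, X0 r = U ω) ∧ x k = cfg pl X0 ∧
      (∀ i < k, ∀ j, x i j = true → x (i + 1) j = true) ∧
      ∀ i < k, ∀ a b, C.IsRun (x i) a → C.IsRun (x (i + 1)) b → ∃ u ∈ C.entry, a u ≠ b u := by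
    intro k
    induction k with
    | zero =>
      intro _
      exact ⟨fun _ => cfg pl (fun _ => ∅), ∅, fun _ => ∅, by simp, fun _ _ => rfl,
        fun _ => Or.inl rfl, rfl, fun i hi => absurd hi (Nat.not_lt_zero i),
        fun i hi => absurd hi (Nat.not_lt_zero i)⟩
    | succ k ih =>
      intro hk
      obtain ⟨x, Z0, X0, h1, h2, h3, h4, h5, h6⟩ := ih (by omega)
      have hc : Z0.card ≤ J * T := le_trans h1 (Nat.mul_le_mul_left J (by omega))
      obtain ⟨Z, ζ, hZ, hJ, a, b, ha, hb, u, hu, hne⟩ := hcon Z0 X0 hc h2 h3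
      refine ⟨fun i => if i ≤ k then x i else cfg pl (ovr U X0 Z ζ), Z0 ∪ Z, ovr U X0 Z ζ,
        ?_, ?_, ?_, ?_, ?_, ?_⟩
      · calc (Z0 ∪ Z).card ≤ Z0.card + Z.card := Finset.card_union_le _ _
          _ ≤ J * k + J := Nat.add_le_add h1 hJ
          _ = J * (k + 1) := by ring
      · intro r hr
        rw [Finset.mem_union, not_or] at hr
        unfold ovr
        rw [if_neg hr.2]
        exact h2 r hr.1
      · intro r
        unfold ovr
        by_cases hr : r ∈ Z
        · rw [if_pos hr]
          exact Or.inr ⟨_, rfl⟩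
        · rw [if_neg hr]
          exact h3 r
      · show (if k + 1 ≤ k then x (k + 1) else cfg pl (ovr U X0 Z ζ)) = _
        rw [if_neg (by omega)]
      · intro i hi j hj
        change (if i ≤ k then x i else cfg pl (ovr U X0 Z ζ)) j = true at hj
        show (if i + 1 ≤ k then x (i + 1) else cfg pl (ovr U X0 Z ζ)) j = true
        rw [if_pos (by omega)] at hj
        by_cases hik : i + 1 ≤ k
        · rw [if_pos hik]
          exact h5 i (by omega) j hj
        · rw [if_neg hik]
          have e : i = k := by omega
          rw [e, h4] at hj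
          refine cfg_mono pl (fun r => ?_) j hj
          unfold ovr
          by_cases hr : r ∈ Z
          · rw [h2 r (hZ r hr)]
            exact Finset.empty_subset _
          · rw [if_neg hr]
      · intro i hi a' b' ha' hb'
        change C.IsRun (if i ≤ k then x i else cfg pl (ovr U X0 Z ζ)) a' at ha'
        change C.IsRun (if i + 1 ≤ k then x (i + 1) else cfg pl (ovr U X0 Z ζ)) b' at hb'
        rw [if_pos (by omega)] at ha'
        by_cases hik : i + 1 ≤ k
        · rw [if_pos hik] at hb'
          exact h6 i (by omega) a' b' ha' hb'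
        · rw [if_neg hik] at hb'
          have e : i = k := by omega
          rw [e, h4] at ha'
          rw [Pool.Agent.Lib_MP_22d2c8_gen.run_unique C ha' ha,
            Pool.Agent.Lib_MP_22d2c8_gen.run_unique C hb' hb]
          exact ⟨u, hu, fun h => hne h.symm⟩
  obtain ⟨x, Z0, X0, -, -, -, -, h5, h6⟩ := main (T + 1) le_rfl
  choose a ha using fun i => Pool.Agent.Lib_MP_22d2c8_gen.exists_run C (x i)
  have h7 := hT (T + 1) x a h5 (fun i _ => ha i)
  rw [Finset.filter_true_of_mem (fun i hi => h6 i (Finset.mem_range.1 hi) _ _ (ha i)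
    (ha (i + 1))), Finset.card_range] at h7
  omega

section Net

variable {n s N N' : ℕ} {V : Type}

open Classical in
/-- the contents of all blocks from the contents of the free blocks -/
private noncomputable def emb (e : Fin N' → Fin N) (X0 : Fin N → Finset V)
    (X' : Fin N' → Finset V) : Fin N → Finset V :=
  fun r => if h : ∃ l, e l = r then X' h.choose else X0 r

private theorem emb_in (e : Fin N' → Fin N) (he : Function.Injective e) (X0 : Fin N → Finset V)
    (X' : Fin N' → Finset V) (l : Fin N') : emb e X0 X' (e l) = X' l := by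
  unfold emb
  rw [dif_pos ⟨l, rfl⟩]
  congr 1
  exact he (Classical.choose_spec (⟨l, rfl⟩ : ∃ l', e l' = e l))

private theorem emb_out (e : Fin N' → Fin N) (X0 : Fin N → Finset V)
    (X' : Fin N' → Finset V) (r : Fin N) (h : ¬ ∃ l, e l = r) : emb e X0 X' r = X0 r := by
  unfold emb
  rw [dif_neg h]

open Classical in
/-- the kind of an input -/
private noncomputable def kndI (pl : Fin N → V → Fin n) (e : Fin N' → Fin N)
    (X0 : Fin N → Finset V) (j : Fin n) : Kind N' V (Fin n ⊕ Fin s) :=
  if h : ∃ p : Fin N' × V, pl (e p.1) p.2 = j then .inp h.choose.1 h.choose.2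
    else if cfg pl X0 j = true then .and ∅ else .or ∅

/-- the kind of a gate -/
private def kndG (κ : Bool) : Op (Fin n ⊕ Fin s) → Kind N' V (Fin n ⊕ Fin s)
  | .and P => .and P
  | .or P => .or P
  | .arb _ _ => if κ = true then .and ∅ else .or ∅

/-- the kinds of the vertices -/
private noncomputable def knd (C : Circuit n s) (pl : Fin N → V → Fin n) (e : Fin N' → Fin N)
    (X0 : Fin N → Finset V) (κ : Fin s → Bool) :
    Fin n ⊕ Fin s → Kind N' V (Fin n ⊕ Fin s)
  | Sum.inl j => kndI pl e X0 j
  | Sum.inr g => kndG (κ g) (C.op g)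

private theorem knd_preds_inl (C : Circuit n s) (pl : Fin N → V → Fin n) (e : Fin N' → Fin N)
    (X0 : Fin N → Finset V) (κ : Fin s → Bool) (j : Fin n) :
    (knd C pl e X0 κ (Sum.inl j)).preds = ∅ := by
  show (kndI pl e X0 j).preds = ∅
  unfold kndI
  split_ifs <;> rfl

private theorem knd_preds_arb (C : Circuit n s) (pl : Fin N → V → Fin n) (e : Fin N' → Fin N)
    (X0 : Fin N → Finset V) (κ : Fin s → Bool) (g : Fin s) (hg : (C.op g).isArb = true) :
    (knd C pl e X0 κ (Sum.inr g)).preds = ∅ := by
  show (kndG (κ g) (C.op g)).preds = ∅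
  cases h : C.op g with
  | and P => rw [h] at hg; simp [Op.isArb] at hg
  | or P => rw [h] at hg; simp [Op.isArb] at hg
  | arb P φ =>
    unfold kndG
    split_ifs <;> rfl

private theorem knd_preds_gate (C : Circuit n s) (pl : Fin N → V → Fin n) (e : Fin N' → Fin N)
    (X0 : Fin N → Finset V) (κ : Fin s → Bool) (g : Fin s) (hg : (C.op g).isArb = false) :
    (knd C pl e X0 κ (Sum.inr g)).preds = (C.op g).preds := by
  show (kndG (κ g) (C.op g)).preds = (C.op g).preds
  cases h : C.op g with
  | and P => rfl
  | or P => rfl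
  | arb P φ => rw [h] at hg; simp [Op.isArb] at hg

/-- the network -/
private noncomputable def net (C : Circuit n s) (pl : Fin N → V → Fin n) (e : Fin N' → Fin N)
    (X0 : Fin N → Finset V) (κ : Fin s → Bool) : MNet N' V (Fin n ⊕ Fin s) where
  kind := knd C pl e X0 κ
  rank := C.acyclic.choose
  rank_lt := by
    intro w u hu
    rcases w with j | g
    · rw [knd_preds_inl] at hu
      simp at hu
    · cases hg : (C.op g).isArb with
      | true =>
        rw [knd_preds_arb C pl e X0 κ g hg] at hu
        simp at hu
      | false =>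
        rw [knd_preds_gate C pl e X0 κ g hg] at hu
        exact C.acyclic.choose_spec g u hu

private theorem net_wires (C : Circuit n s) (pl : Fin N → V → Fin n) (e : Fin N' → Fin N)
    (X0 : Fin N → Finset V) (κ : Fin s → Bool) : (net C pl e X0 κ).wires ≤ wires C := by
  have h1 : (net C pl e X0 κ).wires = ∑ w, (knd C pl e X0 κ w).preds.card := rfl
  rw [h1, Fintype.sum_sum_type]
  have h2 : ∑ j : Fin n, (knd C pl e X0 κ (Sum.inl j)).preds.card = 0 := by
    refine Finset.sum_eq_zero fun j _ => ?_
    rw [knd_preds_inl, Finset.card_empty]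
  rw [h2, zero_add]
  unfold wires
  rw [Finset.sum_filter]
  refine Finset.sum_le_sum fun g _ => ?_
  cases hg : (C.op g).isArb with
  | true =>
    rw [knd_preds_arb C pl e X0 κ g hg, Finset.card_empty]
    exact Nat.zero_le _
  | false =>
    rw [knd_preds_gate C pl e X0 κ g hg, if_pos rfl]

private theorem on_iff (C : Circuit n s) (pl : Fin N → V → Fin n)
    (hpl : ∀ r r' a a', pl r a = pl r' a' → r = r' ∧ a = a') (e : Fin N' → Fin N)
    (he : Function.Injective e)
    (X0 : Fin N → Finset V) (κ : Fin s → Bool) (X' : Fin N' → Finset V)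
    (a : Fin n ⊕ Fin s → Bool)
    (ha : Pool.Agent.Lib_MP_22d2c8_gen.Frozen C κ (cfg pl (emb e X0 X')) a)
    (w : Fin n ⊕ Fin s) : (net C pl e X0 κ).On ∅ X' w ↔ a w = true := by
  classical
  -- the value of an input
  have hin : ∀ j, ∀ p : Fin N' × V, pl (e p.1) p.2 = j →
      (cfg pl (emb e X0 X') j = true ↔ p.2 ∈ X' p.1) := by
    intro j p hp
    rw [cfg_iff]
    constructor
    · rintro ⟨r, b, hb, hr⟩
      obtain ⟨h1, h2⟩ := hpl r (e p.1) b p.2 (by rw [hr, hp])
      rw [h1, emb_in e he, h2] at hb
      exact hb
    · intro h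
      exact ⟨e p.1, p.2, by rw [emb_in e he]; exact h, hp⟩
  have hout : ∀ j, (¬ ∃ p : Fin N' × V, pl (e p.1) p.2 = j) →
      (cfg pl (emb e X0 X') j = true ↔ cfg pl X0 j = true) := by
    intro j hj
    rw [cfg_iff, cfg_iff]
    constructor
    · rintro ⟨r, b, hb, hr⟩
      have : ¬ ∃ l, e l = r := fun ⟨l, hl⟩ => hj ⟨(l, b), by rw [hl]; exact hr⟩
      rw [emb_out e X0 X' r this] at hb
      exact ⟨r, b, hb, hr⟩
    · rintro ⟨r, b, hb, hr⟩
      have : ¬ ∃ l, e l = r := fun ⟨l, hl⟩ => hj ⟨(l, b), by rw [hl]; exact hr⟩
      exact ⟨r, b, by rw [emb_out e X0 X' r this]; exact hb, hr⟩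
  constructor
  · intro h
    induction h with
    | inp w l b hk _ hb =>
      rcases w with j | g
      · have hk' : kndI pl e X0 j = .inp l b := hk
        unfold kndI at hk'
        by_cases h : ∃ p : Fin N' × V, pl (e p.1) p.2 = j
        · rw [dif_pos h] at hk'
          injection hk' with h1 h2
          rw [ha.inp, hin j h.choose h.choose_spec, h1, h2]
          exact hb
        · rw [dif_neg h] at hk'
          split_ifs at hk'
      · have hk' : kndG (κ g) (C.op g) = .inp l b := hk
        cases hg : C.op g with
        | and P => rw [hg] at hk'; simp [kndG] at hk'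
        | or P => rw [hg] at hk'; simp [kndG] at hk'
        | arb P φ =>
          rw [hg] at hk'
          simp only [kndG] at hk'
          split_ifs at hk'
    | and w P hk _ _ ih =>
      rcases w with j | g
      · have hk' : kndI pl e X0 j = .and P := hk
        unfold kndI at hk'
        by_cases h : ∃ p : Fin N' × V, pl (e p.1) p.2 = j
        · rw [dif_pos h] at hk'
          simp at hk'
        · rw [dif_neg h] at hk'
          by_cases hc : cfg pl X0 j = true
          · rw [ha.inp, hout j h]
            exact hc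
          · rw [if_neg hc] at hk'
            simp at hk'
      · have hk' : kndG (κ g) (C.op g) = .and P := hk
        cases hg : C.op g with
        | and Q =>
          rw [hg] at hk'
          simp only [kndG, Kind.and.injEq] at hk'
          subst hk'
          rw [ha.gt g (by rw [hg]; rfl), hg]
          simp only [Op.eval, decide_eq_true_eq]
          exact ih
        | or Q => rw [hg] at hk'; simp [kndG] at hk'
        | arb Q φ =>
          rw [hg] at hk'
          simp only [kndG] at hk'
          by_cases hκ : κ g = true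
          · rw [ha.nt g (by rw [hg]; rfl)]
            exact hκ
          · rw [if_neg hκ] at hk'
            simp at hk'
    | or w P u hk _ hu _ ih =>
      rcases w with j | g
      · have hk' : kndI pl e X0 j = .or P := hk
        unfold kndI at hk'
        by_cases h : ∃ p : Fin N' × V, pl (e p.1) p.2 = j
        · rw [dif_pos h] at hk'
          simp at hk'
        · rw [dif_neg h] at hk'
          by_cases hc : cfg pl X0 j = true
          · rw [if_pos hc] at hk'
            simp at hk'
          · rw [if_neg hc] at hk'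
            simp only [Kind.or.injEq] at hk'
            subst hk'
            simp at hu
      · have hk' : kndG (κ g) (C.op g) = .or P := hk
        cases hg : C.op g with
        | and Q => rw [hg] at hk'; simp [kndG] at hk'
        | or Q =>
          rw [hg] at hk'
          simp only [kndG, Kind.or.injEq] at hk'
          subst hk'
          rw [ha.gt g (by rw [hg]; rfl), hg]
          simp only [Op.eval, decide_eq_true_eq]
          exact ⟨u, hu, ih⟩
        | arb Q φ =>
          rw [hg] at hk'
          simp only [kndG] at hk'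
          by_cases hκ : κ g = true
          · rw [if_pos hκ] at hk'
            simp at hk'
          · rw [if_neg hκ] at hk'
            simp only [Kind.or.injEq] at hk'
            subst hk'
            simp at hu
  · obtain ⟨rank, hrank⟩ := C.acyclic
    have main : ∀ k, ∀ v, rank v = k → a v = true → (net C pl e X0 κ).On ∅ X' v := by
      intro k
      induction k using Nat.strong_induction_on with
      | _ k ih =>
        intro v hv hav
        rcases v with j | g
        · rw [ha.inp] at hav
          by_cases h : ∃ p : Fin N' × V, pl (e p.1) p.2 = j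
          · refine MNet.On.inp _ h.choose.1 h.choose.2 ?_ (by simp)
              ((hin j h.choose h.choose_spec).1 hav)
            show kndI pl e X0 j = _
            unfold kndI
            rw [dif_pos h]
          · refine MNet.On.and _ ∅ ?_ (by simp) (by simp)
            show kndI pl e X0 j = _
            unfold kndI
            rw [dif_neg h, if_pos ((hout j h).1 hav)]
        · cases hg : C.op g with
          | and Q =>
            rw [ha.gt g (by rw [hg]; rfl), hg] at hav
            simp only [Op.eval, decide_eq_true_eq] at hav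
            refine MNet.On.and _ Q ?_ (by simp) fun u hu =>
              ih (rank u) (by rw [← hv]; exact hrank g u (by rw [hg]; exact hu)) u rfl (hav u hu)
            show kndG (κ g) (C.op g) = _
            rw [hg]
            rfl
          | or Q =>
            rw [ha.gt g (by rw [hg]; rfl), hg] at hav
            simp only [Op.eval, decide_eq_true_eq] at hav
            obtain ⟨u, hu, hau⟩ := hav
            refine MNet.On.or _ Q u ?_ (by simp) hu
              (ih (rank u) (by rw [← hv]; exact hrank g u (by rw [hg]; exact hu)) u rfl hau)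
            show kndG (κ g) (C.op g) = _
            rw [hg]
            rfl
          | arb Q φ =>
            rw [ha.nt g (by rw [hg]; rfl)] at hav
            refine MNet.On.and _ ∅ ?_ (by simp) (by simp)
            show kndG (κ g) (C.op g) = _
            rw [hg]
            unfold kndG
            rw [if_pos hav]
    exact main _ w rfl

end Net

theorem neg_transfer {n s N T J N' : ℕ} {V ΩU ΩY : Type} [Nonempty ΩU] (C : Circuit n s)
    (f : (Fin n → Bool) → Bool) (hC : C.Computes f) (hT : C.EntryChangesLE T)
    (pl : Fin N → V → Fin n) (hpl : ∀ r r' a a', pl r a = pl r' a' → r = r' ∧ a = a')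
    (U : ΩU → Finset V) (Y : ΩY → Finset V)
    (hneg : ∀ X : Fin N → Finset V, (∀ r, X r = ∅ ∨ ∃ ω, X r = U ω) → f (cfg pl X) = false)
    (hpos : ∀ (X : Fin N → Finset V) (r : Fin N) (y : ΩY), X r = Y y → f (cfg pl X) = true)
    (hN : N' + J * T ≤ N) :
    ∃ (M : MNet N' V (Fin n ⊕ Fin s)) (Tg : Set (Fin n ⊕ Fin s)), M.wires ≤ wires C ∧
      (∀ (ζ : Fin N' → ΩU) (Z : Finset (Fin N')), Z.card ≤ J → ∀ w ∈ Tg,
        ¬ M.On ∅ (fill U ζ Z) w) ∧
      (∀ (ζ : Fin N' → ΩU) (Z : Finset (Fin N')), Z.card ≤ J → ∀ k, k ∉ Z → ∀ y : ΩY,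
        ∃ w ∈ Tg, M.On ∅ (Function.update (fill U ζ Z) k (Y y)) w) := by
  classical
  obtain ⟨Z0, X0, hc, h2, h3, hgood⟩ := walk (J := J) C hT pl U
  have hcard : N' ≤ (univ \ Z0).card := by
    rw [Finset.card_sdiff_of_subset (Finset.subset_univ _), Finset.card_univ, Fintype.card_fin]
    omega
  set e : Fin N' → Fin N := fun l => (univ \ Z0).orderEmbOfCardLe hcard l with he_def
  have he : Function.Injective e := fun x y h =>
    ((univ \ Z0).orderEmbOfCardLe hcard).injective h
  have heZ : ∀ l, e l ∉ Z0 := by
    intro l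
    have := Finset.orderEmbOfCardLe_mem (univ \ Z0) hcard l
    exact (Finset.mem_sdiff.1 this).2
  obtain ⟨a0, ha0⟩ := Pool.Agent.Lib_MP_22d2c8_gen.exists_run C (cfg pl X0)
  set κ : Fin s → Bool := fun g => a0 (Sum.inr g) with hκ
  refine ⟨net C pl e X0 κ, {w | w = C.out ∨ (w ∈ C.entry ∧ a0 w = false)},
    net_wires C pl e X0 κ, ?_, ?_⟩
  · intro ζ Z hZ w hw
    obtain ⟨ω0⟩ := ‹Nonempty ΩU›
    -- the contents
    have hX : emb e X0 (fill U ζ Z) = ovr U X0 (Z.image e)
        (fun r => if h : ∃ l, e l = r then ζ h.choose else ω0) := by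
      funext r
      by_cases hr : ∃ l, e l = r
      · obtain ⟨l, rfl⟩ := hr
        rw [emb_in e he]
        have hch : (⟨l, rfl⟩ : ∃ l', e l' = e l).choose = l :=
          he (Classical.choose_spec (⟨l, rfl⟩ : ∃ l', e l' = e l))
        unfold fill ovr
        by_cases hl : l ∈ Z
        · rw [if_pos hl, if_pos (Finset.mem_image_of_mem e hl)]
          show U (ζ l) = U (if h : ∃ l', e l' = e l then ζ h.choose else ω0)
          rw [dif_pos (⟨l, rfl⟩ : ∃ l', e l' = e l), hch]
        · have hl' : e l ∉ Z.image e := by
            intro h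
            obtain ⟨l', hl', hle⟩ := Finset.mem_image.1 h
            exact hl (he hle ▸ hl')
          rw [if_neg hl, if_neg hl']
          exact (h2 (e l) (heZ l)).symm
      · rw [emb_out e X0 _ r hr]
        have hr' : r ∉ Z.image e := by
          intro h
          obtain ⟨l', _, hle⟩ := Finset.mem_image.1 h
          exact hr ⟨l', hle⟩
        unfold ovr
        rw [if_neg hr']
    obtain ⟨b, hb, hbf⟩ := hC (cfg pl (emb e X0 (fill U ζ Z)))
    have hent : ∀ u ∈ C.entry, b u = a0 u := by
      refine hgood (Z.image e) _ ?_ ?_ a0 b ha0 (by rw [← hX]; exact hb)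
      · intro r hr
        obtain ⟨l, _, rfl⟩ := Finset.mem_image.1 hr
        exact heZ l
      · exact le_trans Finset.card_image_le hZ
    have hfr := Pool.Agent.Lib_MP_22d2c8_gen.run_is_frozen C ha0 hb hent
    rw [on_iff C pl hpl e he X0 κ (fill U ζ Z) b hfr w]
    rcases hw with rfl | ⟨hw1, hw2⟩
    · rw [hbf, hneg]
      · simp
      · intro r
        rw [hX]
        unfold ovr
        by_cases hr : r ∈ Z.image e
        · rw [if_pos hr]
          exact Or.inr ⟨_, rfl⟩
        · rw [if_neg hr]
          exact h3 r
    · rw [hent w hw1, hw2]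
      simp
  · intro ζ Z _ k _ y
    by_contra hno
    push Not at hno
    obtain ⟨a, ha⟩ := Pool.Agent.Lib_MP_22d2c8_gen.exists_frozen C κ
      (cfg pl (emb e X0 (Function.update (fill U ζ Z) k (Y y))))
    have hon := on_iff C pl hpl e he X0 κ (Function.update (fill U ζ Z) k (Y y)) a ha
    have hfalse : ∀ w, (w = C.out ∨ (w ∈ C.entry ∧ a0 w = false)) → a w = false := by
      intro w hw
      have := hno w hw
      rw [hon w] at this
      simpa using this
    have hx : ∀ j, cfg pl X0 j = true →
        cfg pl (emb e X0 (Function.update (fill U ζ Z) k (Y y))) j = true := by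
      refine cfg_mono pl fun r => ?_
      by_cases hr : ∃ l, e l = r
      · obtain ⟨l, rfl⟩ := hr
        rw [h2 (e l) (heZ l)]
        exact Finset.empty_subset _
      · rw [emb_out e X0 _ r hr]
    have hrun := Pool.Agent.Lib_MP_22d2c8_gen.frozen_is_run C ha0 hx ha
      (fun u hu h0 => hfalse u (Or.inr ⟨hu, h0⟩))
    obtain ⟨b, hb, hbf⟩ := hC (cfg pl (emb e X0 (Function.update (fill U ζ Z) k (Y y))))
    have h5 : a C.out = false := hfalse _ (Or.inl rfl)
    rw [Pool.Agent.Lib_MP_22d2c8_gen.run_unique C hrun hb, hbf,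
      hpos _ (e k) y (by rw [emb_in e he, Function.update_self])] at h5
    exact absurd h5 (by simp)

end Pool.Agent.Lib_MP_22d2c8_so
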