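import Pool.Agent.Lib_MP_22d2c8_so.Main
import Pool.Agent.Lib_MP_22d2c8_so.HardPMQ
import Pool.Agent.Lib_MP_22d2c8_so.Seg3
import Pool.Agent.Lib_MP_22d2c8_so.NumQ
import Pool.Agent.Lib_MP_22d2c8_so.NegApp

/-!
# NEGQ: few negations, explicit

As `FinalNeg.lean` with `A = 256 K + 1`, `exists_hard_q`, `jJ_le` and `nblk_ge_q`.
-/

namespace Pool.Agent.Lib_MP_22d2c8_so

open Finset
open Pool.Agent.Lib_MP_22d2c8_gen (Op Circuit)
open Pool.Agent.Lib_MP_22d2c8_pm (Ed Vx cut permGraph)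

theorem negations_q : ∃ K0 : ℕ, ∀ K, K0 ≤ K → ∀ (n s T : ℕ) (C : Circuit n s),
    C.Computes (pmFun n) → C.EntryChangesLE T → dd K * (T + 1) ≤ n → K * n < wires C := by
  obtain ⟨A0, hA0⟩ := exists_hard_q
  obtain ⟨K1, hK1⟩ := jJ_le
  refine ⟨max A0 K1, ?_⟩
  intro K hK n s T C hC hT hD
  have hKA : A0 ≤ 256 * K + 1 := by
    have := le_trans (le_max_left A0 K1) hK
    omega
  have hKK : K1 ≤ K := le_trans (le_max_right A0 K1) hK
  obtain ⟨m, inst, _, hm2, hard⟩ := hA0 (256 * K + 1) hKA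
  have : NeZero m := inst
  have hm : 1 ≤ m := Nat.one_le_iff_ne_zero.2 (NeZero.ne m)
  obtain ⟨c, hc⟩ : ∃ c, c = (256 * K + 1) * m ^ 7 := ⟨_, rfl⟩
  rw [← hc] at hard
  have hcard : Fintype.card (Ed m) = m ^ 2 := by
    rw [Fintype.card_prod, Fintype.card_fin, sq]
  have h7 : 1 ≤ m ^ 7 := Nat.one_le_pow _ _ hm
  have hc1 : 1 ≤ c := by
    rw [hc]
    exact Nat.mul_pos (by omega) h7
  have hVc : Fintype.card (Ed m) ≤ c := by
    rw [hcard, hc]
    calc m ^ 2 ≤ m ^ 7 := Nat.pow_le_pow_right hm (by omega)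
      _ = 1 * m ^ 7 := (one_mul _).symm
      _ ≤ (256 * K + 1) * m ^ 7 := Nat.mul_le_mul_right _ (by omega)
  have hdd := hK1 K hKK m hm2
  rw [← hc] at hdd
  have hbig : 256 * m ^ 7 * (m ^ 2 * jJ c + 1) * (T + 1) ≤ n :=
    (Nat.mul_le_mul_right _ hdd).trans hD
  have hn64 : 64 * m ^ 7 ≤ n := by
    have e1 : 64 * m ^ 7 * 1 ≤ 64 * m ^ 7 * (4 * ((m ^ 2 * jJ c + 1) * (T + 1))) :=
      Nat.mul_le_mul_left _ (Nat.one_le_iff_ne_zero.2 (by positivity))
    have e2 : 64 * m ^ 7 * (4 * ((m ^ 2 * jJ c + 1) * (T + 1))) =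
        256 * m ^ 7 * (m ^ 2 * jJ c + 1) * (T + 1) := by ring
    omega
  have hn2 : 1 ≤ n := by omega
  have hneg : ∀ X : Fin (nblk n m) → Finset (Ed m),
      (∀ r, X r = ∅ ∨ ∃ ω : Vx m → Bool, X r = cut ω) →
      pmFun n (cfg (place hm) X) = false := by
    intro X hX
    have h1 : ¬ BlockPM n (cfg (place hm) X) := by
      rw [blockPM_cfg hm X]
      rintro ⟨r, σ, hσ⟩
      rcases hX r with h | ⟨ω, h⟩
      · rw [h] at hσ
        have h2 : ((0 : Fin m), σ 0) ∈ permGraph σ := Lib_MP_22d2c8_pm.mem_permGraph.2 rfl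
        exact absurd (hσ h2) (Finset.notMem_empty _)
      · exact Lib_MP_22d2c8_pm.cut_no_matching ω σ (hσ.trans h.subset)
    simp only [pmFun, decide_eq_false_iff_not]
    exact h1
  have hpos : ∀ (X : Fin (nblk n m) → Finset (Ed m)) (r : Fin (nblk n m))
      (y : Equiv.Perm (Fin m)), X r = permGraph y → pmFun n (cfg (place hm) X) = true := by
    intro X r y hy
    have h1 : BlockPM n (cfg (place hm) X) := by
      rw [blockPM_cfg hm X]
      exact ⟨r, y, by rw [hy]⟩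
    simp only [pmFun, decide_eq_true_eq]
    exact h1
  have h3 : n ≤ 64 * m ^ 7 * nblk n m := nblk_ge_q hm hn64
  -- the number of free blocks
  have hJT : 2 * (jJ c * T) ≤ nblk n m := by
    have e1 : 64 * m ^ 7 * (4 * ((m ^ 2 * jJ c + 1) * (T + 1))) ≤ 64 * m ^ 7 * nblk n m := by
      calc 64 * m ^ 7 * (4 * ((m ^ 2 * jJ c + 1) * (T + 1))) =
            256 * m ^ 7 * (m ^ 2 * jJ c + 1) * (T + 1) := by ring
        _ ≤ n := hbig
        _ ≤ 64 * m ^ 7 * nblk n m := h3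
    have e2 : 4 * ((m ^ 2 * jJ c + 1) * (T + 1)) ≤ nblk n m :=
      Nat.le_of_mul_le_mul_left e1 (by positivity)
    have e3 : jJ c * T ≤ (m ^ 2 * jJ c + 1) * (T + 1) := by
      apply Nat.mul_le_mul _ (by omega)
      have e4 : 1 * jJ c ≤ m ^ 2 * jJ c := Nat.mul_le_mul_right _ (Nat.one_le_pow _ _ hm)
      omega
    omega
  obtain ⟨M, Tg, hw, hnM, hpM⟩ := neg_transfer (J := jJ c) (N' := nblk n m - jJ c * T) C
    (pmFun n) hC hT (place hm) (place_inj hm) (cut : (Vx m → Bool) → Finset (Ed m))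
    (permGraph : Equiv.Perm (Fin m) → Finset (Ed m)) hneg hpos (by omega)
  have h1 : c * (nblk n m - jJ c * T) ≤ M.wires :=
    wires_ge M cut permGraph hc1 hVc hard Tg hnM hpM
  have h2 : c * (nblk n m - jJ c * T) ≤ wires C := h1.trans hw
  have h5 : c * nblk n m ≤ 2 * (c * (nblk n m - jJ c * T)) := by
    calc c * nblk n m ≤ c * (2 * (nblk n m - jJ c * T)) := Nat.mul_le_mul_left _ (by omega)
      _ = 2 * (c * (nblk n m - jJ c * T)) := by ring
  have h4 : (256 * K + 1) * n ≤ 64 * (c * nblk n m) := by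
    calc (256 * K + 1) * n ≤ (256 * K + 1) * (64 * m ^ 7 * nblk n m) := Nat.mul_le_mul_left _ h3
      _ = 64 * (c * nblk n m) := by rw [hc]; ring
  have h6 : (256 * K + 1) * n = 256 * (K * n) + n := by ring
  rw [h6] at h4
  omega

end Pool.Agent.Lib_MP_22d2c8_so
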