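import Pool.Agent.Lib_MP_22d2c8_so.Defs

/-!
# NET: simple facts on monotone networks
-/

namespace Pool.Agent.Lib_MP_22d2c8_so

open Finset
open Pool.Agent.Lib_MP_22d2c8_rsf (prob MProg)

variable {N : ℕ} {V W Ω : Type}

theorem MNet.On.notMem {M : MNet N V W} {Λ : Set W} {x : Fin N → Finset V} {w : W}
    (h : M.On Λ x w) : w ∉ Λ := by
  cases h <;> assumption

theorem MNet.On.mono {M : MNet N V W} {Λ : Set W} {x x' : Fin N → Finset V}
    (hx : ∀ l, x l ⊆ x' l) {w : W} (h : M.On Λ x w) : M.On Λ x' w := by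
  induction h with
  | inp w l a h1 h2 h3 => exact .inp w l a h1 h2 (hx l h3)
  | and w P h1 h2 _ ih => exact .and w P h1 h2 ih
  | or w P u h1 h2 h3 _ ih => exact .or w P u h1 h2 h3 ih

theorem MNet.On.anti {M : MNet N V W} {Λ Λ' : Set W} (hΛ : Λ ⊆ Λ') {x : Fin N → Finset V}
    {w : W} (h : M.On Λ' x w) : M.On Λ x w := by
  induction h with
  | inp w l a h1 h2 h3 => exact .inp w l a h1 (fun h => h2 (hΛ h)) h3
  | and w P h1 h2 _ ih => exact .and w P h1 (fun h => h2 (hΛ h)) ih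
  | or w P u h1 h2 h3 _ ih => exact .or w P u h1 (fun h => h2 (hΛ h)) h3 ih

/-- If no vertex of `Λ` has value one then the deletion of `Λ` changes nothing. -/
theorem MNet.On.keep {M : MNet N V W} {Λ : Set W} {x : Fin N → Finset V}
    (hΛ : ∀ v, M.On ∅ x v → v ∉ Λ) {w : W} (h : M.On ∅ x w) : M.On Λ x w := by
  induction h with
  | inp w l a h1 h2 h3 => exact .inp w l a h1 (hΛ w (.inp w l a h1 h2 h3)) h3
  | and w P h1 h2 h3 ih => exact .and w P h1 (hΛ w (.and w P h1 h2 h3)) ih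
  | or w P u h1 h2 h3 h4 ih => exact .or w P u h1 (hΛ w (.or w P u h1 h2 h3 h4)) h3 ih

/-- A first vertex of `Λ` with value one. -/
def Crit (M : MNet N V W) (Λ : Set W) (x : Fin N → Finset V) (v : W) : Prop :=
  v ∈ Λ ∧ ((∃ l a, M.kind v = .inp l a ∧ a ∈ x l) ∨
    (∃ P, M.kind v = .and P ∧ ∀ u ∈ P, M.On Λ x u) ∨
    (∃ P u, M.kind v = .or P ∧ u ∈ P ∧ M.On Λ x u))

theorem exists_crit {M : MNet N V W} {Λ : Set W} {x : Fin N → Finset V} {w : W}
    (h : M.On ∅ x w) : M.On Λ x w ∨ ∃ v, Crit M Λ x v := by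
  classical
  induction h with
  | inp w l a h1 _ h3 =>
    by_cases hw : w ∈ Λ
    · exact Or.inr ⟨w, hw, Or.inl ⟨l, a, h1, h3⟩⟩
    · exact Or.inl (.inp w l a h1 hw h3)
  | and w P h1 _ _ ih =>
    by_cases hall : ∀ u ∈ P, M.On Λ x u
    · by_cases hw : w ∈ Λ
      · exact Or.inr ⟨w, hw, Or.inr (Or.inl ⟨P, h1, hall⟩)⟩
      · exact Or.inl (.and w P h1 hw hall)
    · push Not at hall
      obtain ⟨u, hu, hno⟩ := hall
      rcases ih u hu with h | h
      · exact absurd h hno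
      · exact Or.inr h
  | or w P u h1 _ h3 _ ih =>
    rcases ih with h | h
    · by_cases hw : w ∈ Λ
      · exact Or.inr ⟨w, hw, Or.inr (Or.inr ⟨P, u, h1, h3, h⟩)⟩
      · exact Or.inl (.or w P u h1 hw h3 h)
    · exact Or.inr h

theorem MNet.mem_inps [Fintype W] {M : MNet N V W} {t : Fin N} {w : W} :
    w ∈ M.inps t ↔ M.InpOf t w := by
  simp [MNet.inps]

theorem MNet.mem_fed [Fintype W] {M : MNet N V W} {u w : W} :
    w ∈ M.fed u ↔ u ∈ (M.kind w).preds := by
  simp [MNet.fed]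

theorem alive_mono {M : MNet N V W} {U : Ω → Finset V} {ζ : Fin N → Ω} {a a' T T' : ℕ}
    (ha : a ≤ a') (hT : T ≤ T') {w : W} (h : Alive M U ζ a T w) : Alive M U ζ a' T' w := by
  obtain ⟨Z, h1, h2, h3⟩ := h
  exact ⟨Z, h1.trans ha, fun l hl => lt_of_lt_of_le (h2 l hl) hT, h3⟩

theorem fill_congr {U : Ω → Finset V} {ζ ζ' : Fin N → Ω} {Z : Finset (Fin N)}
    (h : ∀ l ∈ Z, ζ l = ζ' l) : fill U ζ Z = fill U ζ' Z := by
  funext l
  unfold fill
  by_cases hl : l ∈ Z
  · rw [if_pos hl, if_pos hl, h l hl]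
  · rw [if_neg hl, if_neg hl]

theorem alive_congr {M : MNet N V W} {U : Ω → Finset V} {ζ ζ' : Fin N → Ω} {a T : ℕ}
    (h : ∀ l : Fin N, (l : ℕ) < T → ζ l = ζ' l) {w : W} (h1 : Alive M U ζ a T w) :
    Alive M U ζ' a T w := by
  obtain ⟨Z, h2, h3, h4⟩ := h1
  refine ⟨Z, h2, h3, ?_⟩
  rw [← fill_congr (fun l hl => h l (h3 l hl))]
  exact h4

theorem alive_update {M : MNet N V W} {U : Ω → Finset V} {ζ : Fin N → Ω} {a : ℕ} {t : Fin N}
    {ω : Ω} {w : W} :
    Alive M U (Function.update ζ t ω) a (t : ℕ) w ↔ Alive M U ζ a (t : ℕ) w := by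
  constructor
  · refine alive_congr fun l hl => ?_
    rw [Function.update_of_ne]
    rintro rfl
    exact lt_irrefl _ hl
  · refine alive_congr fun l hl => ?_
    rw [Function.update_of_ne]
    rintro rfl
    exact lt_irrefl _ hl

theorem fill_mono {U : Ω → Finset V} {ζ : Fin N → Ω} {Z Z' : Finset (Fin N)} (h : Z ⊆ Z')
    (l : Fin N) : fill U ζ Z l ⊆ fill U ζ Z' l := by
  unfold fill
  by_cases hl : l ∈ Z
  · rw [if_pos hl, if_pos (h hl)]
  · rw [if_neg hl]
    exact Finset.empty_subset _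

theorem fill_insert {U : Ω → Finset V} {ζ : Fin N → Ω} {Z : Finset (Fin N)} {t : Fin N}
    (ω : Ω) (ht : t ∉ Z) :
    fill U (Function.update ζ t ω) (insert t Z) = Function.update (fill U ζ Z) t (U ω) := by
  funext l
  by_cases hl : l = t
  · subst hl
    rw [Function.update_self]
    unfold fill
    rw [if_pos (Finset.mem_insert_self _ _), Function.update_self]
  · rw [Function.update_of_ne hl]
    unfold fill
    rw [Function.update_of_ne hl]
    by_cases hlZ : l ∈ Z
    · rw [if_pos hlZ, if_pos (Finset.mem_insert_of_mem hlZ)]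
    · rw [if_neg hlZ, if_neg (fun h => by
        rcases Finset.mem_insert.mp h with h | h
        · exact hl h
        · exact hlZ h)]

theorem update_mono {x : Fin N → Finset V} {t : Fin N} {y y' : Finset V} (h : y ⊆ y')
    (l : Fin N) : Function.update x t y l ⊆ Function.update x t y' l := by
  by_cases hl : l = t
  · subst hl
    rw [Function.update_self, Function.update_self]
    exact h
  · rw [Function.update_of_ne hl, Function.update_of_ne hl]

theorem alpha_mono (f : ℕ) (hf : 1 ≤ f) {i j : ℕ} (h : i ≤ j) : alpha f i ≤ alpha f j := by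
  induction h with
  | refl => exact le_rfl
  | step _ ih =>
    refine ih.trans ?_
    show _ ≤ f * alpha f _ + 1
    have := Nat.le_mul_of_pos_left (alpha f ‹ℕ›) hf
    omega

theorem alpha_pos (f i : ℕ) : 1 ≤ alpha f i := by
  cases i with
  | zero => exact le_rfl
  | succ i => exact Nat.le_add_left 1 _

end Pool.Agent.Lib_MP_22d2c8_so
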