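import Pool.Agent.Lib_MP_22d2c8_so.Defs
import Pool.Agent.Lib_MP_22d2c8_rsf.Prog

/-!
# PROG: the program of a small part of a network

The vertices outside `R` which are not variables of block `t` do not depend on the content `y` of
block `t`. PROOF. `val w y := M.On Λ (update x0 t y) w`. Start with the program of all variables
`a ∈ y` (`a : V`) and the constant `False`; it contains `val w` for every `w` with `M.InpOf t w`
(`val w = (a ∈ ·)` or `False`). Then add the vertices of `R` in the order of `M.rank` (induction on
the number of the vertices of a subset of `R` which is closed under predecessors of smaller rank in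
`R`): `val w` is the conjunction (disjunction) of the `val u`, `u ∈ P`; the `u` which are neither in
`R` nor variables of `t` have constant `val u`, so together one constant; `prog_and` / `prog_or` of
`rsf/Prog.lean` for the others, at most `f`, at most `f + 1` new entries, and one constant and one
conjunction: `≤ f + 3` new entries. Total `≤ |V| + 1 + (f + 1) (f + 3) ≤ (|V| + f + 2) ^ 2`.
-/

namespace Pool.Agent.Lib_MP_22d2c8_so

open Finset
open Pool.Agent.Lib_MP_22d2c8_rsf (prob MProg)

private theorem pg_inp {N : ℕ} {V W : Type} (M : MNet N V W) (Λ : Set W) (x : Fin N → Finset V)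
    {w : W} {l : Fin N} {a : V} (h : M.kind w = .inp l a) :
    M.On Λ x w ↔ w ∉ Λ ∧ a ∈ x l := by
  constructor
  · intro h1
    cases h1 with
    | inp _ l' a' h2 h3 h4 =>
      rw [h] at h2
      cases h2
      exact ⟨h3, h4⟩
    | and _ P h2 => rw [h] at h2; cases h2
    | or _ P u h2 => rw [h] at h2; cases h2
  · rintro ⟨h1, h2⟩
    exact MNet.On.inp w l a h h1 h2

private theorem pg_and {N : ℕ} {V W : Type} (M : MNet N V W) (Λ : Set W) (x : Fin N → Finset V)
    {w : W} {P : Finset W} (h : M.kind w = .and P) :
    M.On Λ x w ↔ w ∉ Λ ∧ ∀ u ∈ P, M.On Λ x u := by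
  constructor
  · intro h1
    cases h1 with
    | inp _ l' a' h2 h3 h4 => rw [h] at h2; cases h2
    | and _ P' h2 h3 h4 =>
      rw [h] at h2
      cases h2
      exact ⟨h3, h4⟩
    | or _ P u h2 => rw [h] at h2; cases h2
  · rintro ⟨h1, h2⟩
    exact MNet.On.and w P h h1 h2

private theorem pg_or {N : ℕ} {V W : Type} (M : MNet N V W) (Λ : Set W) (x : Fin N → Finset V)
    {w : W} {P : Finset W} (h : M.kind w = .or P) :
    M.On Λ x w ↔ w ∉ Λ ∧ ∃ u ∈ P, M.On Λ x u := by
  constructor
  · intro h1
    cases h1 with
    | inp _ l' a' h2 h3 h4 => rw [h] at h2; cases h2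
    | and _ P' h2 h3 h4 => rw [h] at h2; cases h2
    | or _ P u h2 h3 h4 h5 =>
      rw [h] at h2
      cases h2
      exact ⟨h3, u, h4, h5⟩
  · rintro ⟨h1, u, h2, h3⟩
    exact MNet.On.or w P u h h1 h2 h3

/-- conjunction, where some members are constant -/
private theorem pg_prog_and {V U : Type} (val : U → Finset V → Prop) {l : List (Finset V → Prop)}
    (hl : MProg V l) (P P' : Finset U) (hPP : P' ⊆ P) (hP : ∀ u ∈ P', val u ∈ l)
    (hc : ∀ u ∈ P, u ∉ P' → ∀ y y', val u y → val u y') :
    ∃ l', MProg V l' ∧ (∀ g ∈ l, g ∈ l') ∧ l'.length ≤ l.length + P'.card + 3 ∧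
      (fun x => ∀ u ∈ P, val u x) ∈ l' := by
  classical
  obtain ⟨l1, h1, h2, h3, h4⟩ := Pool.Agent.Lib_MP_22d2c8_rsf.prog_and val hl P' hP
  refine ⟨(fun x => (∀ u ∈ P', val u x) ∧ (∀ u ∈ P, u ∉ P' → val u ∅)) ::
    (fun _ => ∀ u ∈ P, u ∉ P' → val u ∅) :: l1,
    MProg.and _ _ _ (MProg.const _ l1 h1) (List.mem_cons_of_mem _ h4) List.mem_cons_self,
    fun g hg => List.mem_cons_of_mem _ (List.mem_cons_of_mem _ (h2 g hg)), ?_, ?_⟩
  · simp only [List.length_cons]
    omega
  · have : (fun x : Finset V => ∀ u ∈ P, val u x) =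
        fun x => (∀ u ∈ P', val u x) ∧ (∀ u ∈ P, u ∉ P' → val u ∅) := by
      funext x
      apply propext
      constructor
      · intro h
        exact ⟨fun u hu => h u (hPP hu), fun u hu hu' => hc u hu hu' x ∅ (h u hu)⟩
      · rintro ⟨ha, hb⟩ u hu
        by_cases hu' : u ∈ P'
        · exact ha u hu'
        · exact hc u hu hu' ∅ x (hb u hu hu')
    rw [this]
    exact List.mem_cons_self

/-- disjunction, where some members are constant -/
private theorem pg_prog_or {V U : Type} (val : U → Finset V → Prop) {l : List (Finset V → Prop)}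
    (hl : MProg V l) (P P' : Finset U) (hPP : P' ⊆ P) (hP : ∀ u ∈ P', val u ∈ l)
    (hc : ∀ u ∈ P, u ∉ P' → ∀ y y', val u y → val u y') :
    ∃ l', MProg V l' ∧ (∀ g ∈ l, g ∈ l') ∧ l'.length ≤ l.length + P'.card + 3 ∧
      (fun x => ∃ u ∈ P, val u x) ∈ l' := by
  classical
  obtain ⟨l1, h1, h2, h3, h4⟩ := Pool.Agent.Lib_MP_22d2c8_rsf.prog_or val hl P' hP
  refine ⟨(fun x => (∃ u ∈ P', val u x) ∨ (∃ u ∈ P, u ∉ P' ∧ val u ∅)) ::
    (fun _ => ∃ u ∈ P, u ∉ P' ∧ val u ∅) :: l1,
    MProg.or _ _ _ (MProg.const _ l1 h1) (List.mem_cons_of_mem _ h4) List.mem_cons_self,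
    fun g hg => List.mem_cons_of_mem _ (List.mem_cons_of_mem _ (h2 g hg)), ?_, ?_⟩
  · simp only [List.length_cons]
    omega
  · have : (fun x : Finset V => ∃ u ∈ P, val u x) =
        fun x => (∃ u ∈ P', val u x) ∨ (∃ u ∈ P, u ∉ P' ∧ val u ∅) := by
      funext x
      apply propext
      constructor
      · rintro ⟨u, hu, h⟩
        by_cases hu' : u ∈ P'
        · exact Or.inl ⟨u, hu', h⟩
        · exact Or.inr ⟨u, hu, hu', hc u hu hu' x ∅ h⟩
      · rintro (⟨u, hu, h⟩ | ⟨u, hu, hu', h⟩)
        · exact ⟨u, hPP hu, h⟩
        · exact ⟨u, hu, hc u hu hu' ∅ x h⟩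
    rw [this]
    exact List.mem_cons_self

/-- the program of all variables -/
private theorem pg_base (V : Type) [Fintype V] :
    ∃ l : List (Finset V → Prop), MProg V l ∧ l.length ≤ Fintype.card V + 1 ∧
      (fun _ => False) ∈ l ∧ ∀ a : V, (fun y : Finset V => a ∈ y) ∈ l := by
  classical
  have key : ∀ S : Finset V, ∃ l : List (Finset V → Prop), MProg V l ∧ l.length ≤ S.card + 1 ∧
      (fun _ => False) ∈ l ∧ ∀ a ∈ S, (fun y : Finset V => a ∈ y) ∈ l := by
    intro S
    induction S using Finset.induction_on with
    | empty =>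
      exact ⟨[fun _ => False], MProg.const False [] MProg.nil, by simp, by simp, by simp⟩
    | insert a S ha ih =>
      obtain ⟨l, h1, h2, h3, h4⟩ := ih
      refine ⟨(fun y => a ∈ y) :: l, MProg.var a l h1, ?_, List.mem_cons_of_mem _ h3, ?_⟩
      · rw [List.length_cons, Finset.card_insert_of_notMem ha]
        omega
      · intro b hb
        rcases Finset.mem_insert.mp hb with rfl | hb
        · exact List.mem_cons_self
        · exact List.mem_cons_of_mem _ (h4 b hb)
  obtain ⟨l, h1, h2, h3, h4⟩ := key univ
  exact ⟨l, h1, h2, h3, fun a => h4 a (Finset.mem_univ a)⟩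

open Classical in
theorem exists_prog_and {N : ℕ} {V W : Type} [Fintype V] [Fintype W] (M : MNet N V W)
    (Λ : Set W) (t : Fin N) (x0 : Fin N → Finset V) (R : Finset W) (f : ℕ) (hR : R.card ≤ f)
    (hf : ∀ w, ((M.kind w).preds.filter (fun u => u ∈ R ∨ M.InpOf t u)).card ≤ f)
    (hc : ∀ u, u ∉ R → ¬ M.InpOf t u → ∀ y y' : Finset V,
      M.On Λ (Function.update x0 t y) u → M.On Λ (Function.update x0 t y') u)
    (w : W) :
    ∃ l : List (Finset V → Prop), MProg V l ∧ l.length ≤ (Fintype.card V + f + 2) ^ 2 ∧
      (fun y => ∀ u ∈ (M.kind w).preds, M.On Λ (Function.update x0 t y) u) ∈ l := by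
  set val : W → Finset V → Prop := fun u y => M.On Λ (Function.update x0 t y) u with hval
  obtain ⟨l0, b1, b2, b3, b4⟩ := pg_base V
  -- the variables of block t
  have hbase : ∀ u, M.InpOf t u → val u ∈ l0 := by
    rintro u ⟨a, ha⟩
    by_cases hu : u ∈ Λ
    · have : val u = fun _ => False := by
        funext y
        apply propext
        simp only [hval]
        rw [pg_inp M Λ _ ha]
        constructor
        · rintro ⟨h, -⟩
          exact h hu
        · exact False.elim
      rw [this]
      exact b3
    · have : val u = fun y => a ∈ y := by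
        funext y
        apply propext
        simp only [hval]
        rw [pg_inp M Λ _ ha, Function.update_self]
        exact ⟨fun h => h.2, fun h => ⟨hu, h⟩⟩
      rw [this]
      exact b4 a
  have key : ∀ (n : ℕ) (D : Finset W), D.card = n → D ⊆ R →
      (∀ v ∈ D, ∀ u ∈ (M.kind v).preds, u ∈ R → u ∈ D) →
      ∃ l : List (Finset V → Prop), MProg V l ∧ (∀ g ∈ l0, g ∈ l) ∧ (∀ u ∈ D, val u ∈ l) ∧
        l.length ≤ l0.length + n * (f + 3) := by
    intro n
    induction n with
    | zero =>
      intro D hD _ _
      rw [Finset.card_eq_zero] at hD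
      subst hD
      exact ⟨l0, b1, fun g hg => hg, by simp, by simp⟩
    | succ n ih =>
      intro D hD hDR hcl
      have hne : D.Nonempty := by
        rw [← Finset.card_pos]
        omega
      obtain ⟨u, hu, hmax⟩ := Finset.exists_max_image D M.rank hne
      have hD' : (D.erase u).card = n := by
        rw [Finset.card_erase_of_mem hu, hD]
        rfl
      have hpre : ∀ v ∈ D, ∀ u' ∈ (M.kind v).preds, u' ∈ R → u' ∈ D.erase u := by
        intro v hv u' hu' hR'
        refine Finset.mem_erase.mpr ⟨?_, hcl v hv u' hu' hR'⟩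
        rintro rfl
        have h1 := M.rank_lt v _ hu'
        have h2 := hmax _ hv
        omega
      obtain ⟨l, hl, hl0, hlD, hlen⟩ := ih (D.erase u) hD' ((Finset.erase_subset _ _).trans hDR)
        fun v hv => hpre v (Finset.mem_of_mem_erase hv)
      have hstep : ∀ l' : List (Finset V → Prop), MProg V l' → (∀ g ∈ l, g ∈ l') → val u ∈ l' →
          l'.length ≤ l.length + (f + 3) → ∃ l'' : List (Finset V → Prop), MProg V l'' ∧
            (∀ g ∈ l0, g ∈ l'') ∧ (∀ w ∈ D, val w ∈ l'') ∧
            l''.length ≤ l0.length + (n + 1) * (f + 3) := by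
        intro l' h1 h2 h3 h4
        refine ⟨l', h1, fun g hg => h2 g (hl0 g hg), ?_, ?_⟩
        · intro w hw
          by_cases hwu : w = u
          · rw [hwu]; exact h3
          · exact h2 _ (hlD w (Finset.mem_erase.mpr ⟨hwu, hw⟩))
        · rw [Nat.add_mul, one_mul]
          omega
      by_cases hΛ : u ∈ Λ
      · have : val u = fun _ => False := by
          funext y
          apply propext
          constructor
          · intro h
            simp only [hval] at h
            cases h with
            | inp _ l' a' h2 h3 h4 => exact h3 hΛ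
            | and _ P h2 h3 h4 => exact h3 hΛ
            | or _ P u' h2 h3 h4 h5 => exact h3 hΛ
          · exact False.elim
        exact hstep l hl (fun g hg => hg) (by rw [this]; exact hl0 _ b3) (by omega)
      · have hsub : ∀ u' ∈ (M.kind u).preds.filter (fun u' => u' ∈ R ∨ M.InpOf t u'),
            val u' ∈ l := by
          intro u' hu'
          obtain ⟨h1, h2⟩ := Finset.mem_filter.mp hu'
          rcases h2 with h2 | h2
          · exact hlD u' (hpre u hu u' h1 h2)
          · exact hl0 _ (hbase u' h2)
        have hcon : ∀ u' ∈ (M.kind u).preds,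
            u' ∉ (M.kind u).preds.filter (fun u' => u' ∈ R ∨ M.InpOf t u') →
            ∀ y y', val u' y → val u' y' := by
          intro u' h1 h2 y y'
          have h3 : ¬ (u' ∈ R ∨ M.InpOf t u') := fun h => h2 (Finset.mem_filter.mpr ⟨h1, h⟩)
          push Not at h3
          exact hc u' h3.1 h3.2 y y'
        have hfu := hf u
        cases hk : M.kind u with
        | inp l' a =>
          have h1 : val u = fun y => u ∉ Λ ∧ a ∈ Function.update x0 t y l' := by
            funext y
            apply propext
            simp only [hval]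
            rw [pg_inp M Λ _ hk]
          by_cases ht : l' = t
          · subst ht
            exact hstep l hl (fun g hg => hg) (hl0 _ (hbase u ⟨a, hk⟩)) (by omega)
          · have h2 : val u = fun _ => a ∈ x0 l' := by
              rw [h1]
              funext y
              apply propext
              rw [Function.update_of_ne ht]
              exact ⟨fun h => h.2, fun h => ⟨hΛ, h⟩⟩
            refine hstep ((fun _ => a ∈ x0 l') :: l) (MProg.const _ l hl)
              (fun g hg => List.mem_cons_of_mem _ hg) ?_ ?_
            · rw [h2]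
              exact List.mem_cons_self
            · rw [List.length_cons]
              omega
        | and P =>
          have h1 : val u = fun y => ∀ u' ∈ (M.kind u).preds, val u' y := by
            funext y
            apply propext
            simp only [hval]
            rw [pg_and M Λ _ hk, hk]
            exact ⟨fun h => h.2, fun h => ⟨hΛ, h⟩⟩
          obtain ⟨l', p1, p2, p3, p4⟩ := pg_prog_and val hl (M.kind u).preds _
            (Finset.filter_subset _ _) hsub hcon
          refine hstep l' p1 p2 ?_ ?_
          · rw [h1]; exact p4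
          · omega
        | or P =>
          have h1 : val u = fun y => ∃ u' ∈ (M.kind u).preds, val u' y := by
            funext y
            apply propext
            simp only [hval]
            rw [pg_or M Λ _ hk, hk]
            exact ⟨fun h => h.2, fun h => ⟨hΛ, h⟩⟩
          obtain ⟨l', p1, p2, p3, p4⟩ := pg_prog_or val hl (M.kind u).preds _
            (Finset.filter_subset _ _) hsub hcon
          refine hstep l' p1 p2 ?_ ?_
          · rw [h1]; exact p4
          · omega
  obtain ⟨l, hl, hl0, hlR, hlen⟩ := key R.card R rfl (Finset.Subset.refl _) fun _ _ _ _ h => h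
  obtain ⟨l', p1, p2, p3, p4⟩ := pg_prog_and val hl (M.kind w).preds
    ((M.kind w).preds.filter (fun u => u ∈ R ∨ M.InpOf t u)) (Finset.filter_subset _ _)
    (by
      intro u' hu'
      obtain ⟨h1, h2⟩ := Finset.mem_filter.mp hu'
      rcases h2 with h2 | h2
      · exact hlR u' h2
      · exact hl0 _ (hbase u' h2))
    (by
      intro u' h1 h2 y y'
      have h3 : ¬ (u' ∈ R ∨ M.InpOf t u') := fun h => h2 (Finset.mem_filter.mpr ⟨h1, h⟩)
      push Not at h3
      exact hc u' h3.1 h3.2 y y')
  refine ⟨l', p1, ?_, p4⟩
  have hfw := hf w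
  have h1 : R.card * (f + 3) ≤ f * (f + 3) := Nat.mul_le_mul_right _ hR
  nlinarith

end Pool.Agent.Lib_MP_22d2c8_so
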