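import Pool.Agent.Lib_MP_22d2c8_so.Defs
import Pool.Agent.Lib_MP_22d2c8_pm.Defs

/-!
# SEG: the segments

`nblk n m = (n / m - n / (m + 1)) / m ^ 2` blocks of segment `m`; the block `r < nblk n m` is
inside the segment. Different segments are disjoint: for `m' < m`, `n / m ≤ n / (m' + 1)`.
-/

namespace Pool.Agent.Lib_MP_22d2c8_so

open Finset
open Pool.Agent.Lib_MP_22d2c8_pm (Ed Vx permGraph)

/-- The number of blocks of segment `m`. -/
def nblk (n m : ℕ) : ℕ := (n / m - n / (m + 1)) / m ^ 2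

/-- a block inside the segment -/
theorem seg_block_le {n m r : ℕ} (hm : 1 ≤ m) (hr : r < nblk n m) :
    n / (m + 1) + (r + 1) * m ^ 2 ≤ n / m := by
  have h2 : 0 < m ^ 2 := by positivity
  have h3 : (r + 1) * m ^ 2 ≤ n / m - n / (m + 1) :=
    (Nat.le_div_iff_mul_le h2).1 hr
  have h4 : 0 < (r + 1) * m ^ 2 := by positivity
  omega

theorem seg_lt_nblk {n m r : ℕ} (hm : 1 ≤ m)
    (h : n / (m + 1) + (r + 1) * m ^ 2 ≤ n / m) : r < nblk n m := by
  have h2 : 0 < m ^ 2 := by positivity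
  show r + 1 ≤ (n / m - n / (m + 1)) / m ^ 2
  rw [Nat.le_div_iff_mul_le h2]
  omega

theorem seg_ij_lt {m i j : ℕ} (hi : i < m) (hj : j < m) : i * m + j < m ^ 2 := by
  have h1 : (i + 1) * m ≤ m * m := Nat.mul_le_mul_right m hi
  have h2 : (i + 1) * m = i * m + m := by ring
  have h3 : m ^ 2 = m * m := by ring
  omega

theorem seg_pos_lt {n m r i j : ℕ} (hi : i < m) (hj : j < m)
    (h : n / (m + 1) + (r + 1) * m ^ 2 ≤ n / m) : pos n m r i j < n / m := by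
  have h1 := seg_ij_lt hi hj
  have h2 : (r + 1) * m ^ 2 = r * m ^ 2 + m ^ 2 := by ring
  unfold pos
  omega

theorem seg_le_pos (n m r i j : ℕ) : n / (m + 1) ≤ pos n m r i j := by
  unfold pos
  omega

theorem pos_lt {n m : ℕ} (hm : 1 ≤ m) (r : Fin (nblk n m)) (p : Ed m) :
    pos n m r p.1 p.2 < n :=
  (seg_pos_lt p.1.isLt p.2.isLt (seg_block_le hm r.isLt)).trans_le (Nat.div_le_self _ _)

/-- The places of the blocks of segment `m`. -/
def place {n m : ℕ} (hm : 1 ≤ m) (r : Fin (nblk n m)) (p : Ed m) : Fin n :=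
  ⟨pos n m r p.1 p.2, pos_lt hm r p⟩

theorem seg_pos_inj {n m r r' i j i' j' : ℕ} (hi : i < m) (hj : j < m) (hi' : i' < m)
    (hj' : j' < m) (h : pos n m r i j = pos n m r' i' j') : r = r' ∧ i = i' ∧ j = j' := by
  have hm : 0 < m := by omega
  have h2 : 0 < m ^ 2 := by positivity
  have h3 := seg_ij_lt hi hj
  have h4 := seg_ij_lt hi' hj'
  unfold pos at h
  have h5 : r * m ^ 2 + (i * m + j) = r' * m ^ 2 + (i' * m + j') := by omega
  have h6 : r = r' := by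
    have e1 : (r * m ^ 2 + (i * m + j)) / m ^ 2 = r := by
      rw [add_comm, Nat.add_mul_div_right _ _ h2, Nat.div_eq_of_lt h3, zero_add]
    have e2 : (r' * m ^ 2 + (i' * m + j')) / m ^ 2 = r' := by
      rw [add_comm, Nat.add_mul_div_right _ _ h2, Nat.div_eq_of_lt h4, zero_add]
    rw [← e1, ← e2, h5]
  subst h6
  have h7 : i * m + j = i' * m + j' := by omega
  have h8 : i = i' := by
    have e1 : (i * m + j) / m = i := by
      rw [add_comm, Nat.add_mul_div_right _ _ hm, Nat.div_eq_of_lt hj, zero_add]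
    have e2 : (i' * m + j') / m = i' := by
      rw [add_comm, Nat.add_mul_div_right _ _ hm, Nat.div_eq_of_lt hj', zero_add]
    rw [← e1, ← e2, h7]
  subst h8
  exact ⟨rfl, rfl, by omega⟩

theorem place_inj {n m : ℕ} (hm : 1 ≤ m) (r r' : Fin (nblk n m)) (p p' : Ed m)
    (h : place hm r p = place hm r' p') : r = r' ∧ p = p' := by
  have h1 : pos n m r p.1 p.2 = pos n m r' p'.1 p'.2 := congrArg Fin.val h
  obtain ⟨h2, h3, h4⟩ := seg_pos_inj p.1.isLt p.2.isLt p'.1.isLt p'.2.isLt h1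
  exact ⟨Fin.ext h2, Prod.ext (Fin.ext h3) (Fin.ext h4)⟩

theorem seg_cfg_iff {n N : ℕ} {V : Type} (pl : Fin N → V → Fin n) (X : Fin N → Finset V)
    (j : Fin n) : cfg pl X j = true ↔ ∃ r a, a ∈ X r ∧ pl r a = j := by
  unfold cfg
  exact @decide_eq_true_iff _ (Classical.propDecidable _)

/-- different segments are disjoint -/
theorem seg_eq {n m m' q : ℕ} (h1 : n / (m + 1) ≤ q)
    (h2 : q < n / m) (h3 : n / (m' + 1) ≤ q) (h4 : q < n / m') : m' = m := by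
  rcases lt_trichotomy m' m with h | h | h
  · exfalso
    have h5 : n / m ≤ n / (m' + 1) := Nat.div_le_div_left h (by positivity)
    omega
  · exact h
  · exfalso
    have h5 : n / m' ≤ n / (m + 1) := Nat.div_le_div_left h (by positivity)
    omega

/-- On inputs which are zero outside segment `m`, the function is the OR of its blocks. -/
theorem blockPM_cfg {n m : ℕ} (hm : 1 ≤ m) (X : Fin (nblk n m) → Finset (Ed m)) :
    BlockPM n (cfg (place hm) X) ↔ ∃ (r : Fin (nblk n m)) (σ : Equiv.Perm (Fin m)),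
      permGraph σ ⊆ X r := by
  constructor
  · rintro ⟨m', r', hm', hr', σ, hσ⟩
    have key : ∀ i : Fin m', ∃ (r : Fin (nblk n m)) (a : Ed m), a ∈ X r ∧
        pos n m r a.1 a.2 = pos n m' r' i (σ i) := by
      intro i
      obtain ⟨h1, h2⟩ := hσ i
      obtain ⟨r, a, ha, hra⟩ := (seg_cfg_iff _ _ _).1 h2
      exact ⟨r, a, ha, congrArg Fin.val hra⟩
    have hmm : m' = m := by
      obtain ⟨r, a, -, h1⟩ := key ⟨0, hm'⟩
      refine seg_eq (q := pos n m r a.1 a.2) (seg_le_pos _ _ _ _ _)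
        (seg_pos_lt a.1.isLt a.2.isLt (seg_block_le hm r.isLt)) ?_ ?_
      · rw [h1]
        exact seg_le_pos _ _ _ _ _
      · rw [h1]
        exact seg_pos_lt (Fin.isLt _) (Fin.isLt _) hr'
    subst hmm
    refine ⟨⟨r', seg_lt_nblk hm' hr'⟩, σ, ?_⟩
    intro p hp
    rw [Pool.Agent.Lib_MP_22d2c8_pm.mem_permGraph] at hp
    obtain ⟨r, a, ha, h1⟩ := key p.1
    obtain ⟨h2, h3, h4⟩ := seg_pos_inj a.1.isLt a.2.isLt (Fin.isLt _) (Fin.isLt _) h1
    have h5 : r = ⟨r', seg_lt_nblk hm' hr'⟩ := Fin.ext h2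
    have h6 : a = p := by
      refine Prod.ext (Fin.ext h3) ?_
      rw [← hp]
      exact Fin.ext h4
    rw [← h5, ← h6]
    exact ha
  · rintro ⟨r, σ, h⟩
    refine ⟨m, r, hm, seg_block_le hm r.isLt, σ, fun i => ⟨pos_lt hm r (i, σ i), ?_⟩⟩
    refine (seg_cfg_iff _ _ _).2 ⟨r, (i, σ i), h ?_, rfl⟩
    exact Pool.Agent.Lib_MP_22d2c8_pm.mem_permGraph.2 rfl

/-- Many blocks, explicit. -/
theorem nblk_ge_of {n m : ℕ} (hm : 1 ≤ m) (hn : 64 * m ^ 7 ≤ n) :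
    n ≤ 64 * m ^ 7 * nblk n m := by
  obtain ⟨a, ha⟩ : ∃ a, a = n / m := ⟨_, rfl⟩
  obtain ⟨b, hb⟩ : ∃ b, b = n / (m + 1) := ⟨_, rfl⟩
  obtain ⟨k, hk⟩ : ∃ k, k = nblk n m := ⟨_, rfl⟩
  have h1 : n < (a + 1) * m := by
    rw [ha]
    exact Nat.lt_mul_of_div_lt (Nat.lt_succ_self _) (by positivity)
  have h2 : b * (m + 1) ≤ n := by
    rw [hb]
    exact Nat.div_mul_le_self _ _
  have h3 : a - b < (k + 1) * m ^ 2 := by
    rw [hk, ha, hb]
    exact Nat.lt_mul_of_div_lt (Nat.lt_succ_self _) (by positivity)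
  have h3' : a < (k + 1) * m ^ 2 + b := by omega
  rw [← hk]
  have hmr : (1 : ℝ) ≤ m := by exact_mod_cast hm
  have hm0 : (0 : ℝ) < m := by linarith
  have r1 : (n : ℝ) < (a + 1) * (m : ℝ) := by exact_mod_cast h1
  have r2 : (b : ℝ) * ((m : ℝ) + 1) ≤ n := by exact_mod_cast h2
  have r3 : (a : ℝ) < (k + 1) * (m : ℝ) ^ 2 + b := by exact_mod_cast h3'
  have r4 : (64 : ℝ) * (m : ℝ) ^ 7 ≤ n := by exact_mod_cast hn
  have q1 : (n : ℝ) / (m : ℝ) - 1 < a := by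
    have : (n : ℝ) / (m : ℝ) < a + 1 := by
      rw [div_lt_iff₀ (by positivity)]
      exact r1
    linarith
  have q2 : (b : ℝ) ≤ n / ((m : ℝ) + 1) := by
    rw [le_div_iff₀ (by positivity)]
    exact r2
  have q3 : 1 / ((m : ℝ) + 1) + 1 / (2 * (m : ℝ) ^ 2) ≤ 1 / (m : ℝ) := by
    rw [div_add_div _ _ (by positivity) (by positivity), div_le_div_iff₀ (by positivity)
      (by positivity)]
    nlinarith
  have q4 : (n : ℝ) / (2 * (m : ℝ) ^ 2) ≤ n / (m : ℝ) - n / ((m : ℝ) + 1) := by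
    have e := mul_le_mul_of_nonneg_left q3 (Nat.cast_nonneg (α := ℝ) n)
    rw [mul_add, mul_one_div, mul_one_div, mul_one_div] at e
    linarith
  have q5 : (n : ℝ) / (2 * (m : ℝ) ^ 2) < (k + 1) * (m : ℝ) ^ 2 + 1 := by linarith
  rw [div_lt_iff₀ (by positivity)] at q5
  have q6 : (1 : ℝ) ≤ (m : ℝ) ^ 2 := one_le_pow₀ hmr
  have q7 : ((k + 1) * (m : ℝ) ^ 2 + 1) * (2 * (m : ℝ) ^ 2) ≤ (k + 2) * (2 * (m : ℝ) ^ 4) := by
    have e : (k + 2) * (2 * (m : ℝ) ^ 4) - ((k + 1) * (m : ℝ) ^ 2 + 1) * (2 * (m : ℝ) ^ 2) =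
        ((m : ℝ) ^ 2 - 1) * (2 * (m : ℝ) ^ 2) := by ring
    have e2 : 0 ≤ ((m : ℝ) ^ 2 - 1) * (2 * (m : ℝ) ^ 2) :=
      mul_nonneg (by linarith) (by positivity)
    linarith
  have q9 : (m : ℝ) ^ 4 ≤ (m : ℝ) ^ 7 := pow_le_pow_right₀ hmr (by norm_num)
  have q10 : (k + 2) * (2 * (m : ℝ) ^ 4) ≤ (k + 2) * (2 * (m : ℝ) ^ 7) :=
    mul_le_mul_of_nonneg_left (by linarith) (by positivity)
  have q8 : (n : ℝ) ≤ 64 * (m : ℝ) ^ 7 * k := by
    have e1 : 0 ≤ (k : ℝ) * (m : ℝ) ^ 7 := by positivity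
    nlinarith
  exact_mod_cast q8

/-- Many blocks. -/
theorem nblk_ge (m : ℕ) (hm : 1 ≤ m) : ∃ n0, ∀ n, n0 ≤ n → n ≤ 64 * m ^ 7 * nblk n m :=
  ⟨64 * m ^ 7, fun _ hn => nblk_ge_of hm hn⟩

end Pool.Agent.Lib_MP_22d2c8_so
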