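import Mathlib

/-!
# STABLE: two levels with the same closure

PROOF. `Rr i r` is the closure after `r` steps, `rho i r` the sum of the statuses of the vertices fed by
`X ∪ Rr i r`. The vectors `rho i 0, .., rho i f` have entries at most `2 f`, so two levels `i < j` of `G`
have the same vector; equal sums and monotone statuses give equal statuses, so equal closures.
-/

namespace Pool.Agent.Lib_MP_22d2c8_so

open Finset

section Closure

variable {W : Type} [Fintype W] [DecidableEq W] (fed : W → Finset W) (X : Finset W)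
  (st : ℕ → W → ℕ)

/-- The closure of level `i` after `r` steps. -/
private def Rr (i : ℕ) : ℕ → Finset W
  | 0 => ∅
  | r + 1 => Rr i r ∪ ((X ∪ Rr i r).biUnion fed).filter (fun w => st i w = 1)

omit [Fintype W] in
private theorem Rr_succ (i r : ℕ) : Rr fed X st i (r + 1) =
    Rr fed X st i r ∪ ((X ∪ Rr fed X st i r).biUnion fed).filter (fun w => st i w = 1) := rfl

private theorem Rr_one (i r : ℕ) : ∀ w ∈ Rr fed X st i r, st i w = 1 := by
  induction r with
  | zero => intro w hw; simp [Rr] at hw
  | succ r ih =>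
    intro w hw
    rw [Rr_succ, mem_union, mem_filter] at hw
    rcases hw with h | h
    · exact ih w h
    · exact h.2

private theorem Rr_sub (i r : ℕ) : Rr fed X st i r ⊆ Rr fed X st i (r + 1) := by
  rw [Rr_succ]; exact subset_union_left

private theorem Rr_fed (i r : ℕ) :
    Rr fed X st i r ⊆ (X ∪ Rr fed X st i r).biUnion fed := by
  induction r with
  | zero => intro w hw; simp [Rr] at hw
  | succ r ih =>
    have hm : (X ∪ Rr fed X st i r).biUnion fed ⊆ (X ∪ Rr fed X st i (r + 1)).biUnion fed :=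
      biUnion_subset_biUnion_of_subset_left _ (union_subset_union_right (Rr_sub fed X st i r))
    intro w hw
    rw [Rr_succ, mem_union, mem_filter] at hw
    rcases hw with h | h
    · exact hm (ih h)
    · exact hm h.1

private theorem fed_sub (i r : ℕ) : (X ∪ Rr fed X st i r).biUnion fed ⊆
    (X ∪ univ.filter (fun w => st i w = 1)).biUnion fed := by
  apply biUnion_subset_biUnion_of_subset_left
  apply union_subset_union_right
  intro w hw
  rw [mem_filter]
  exact ⟨mem_univ _, Rr_one fed X st i r w hw⟩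

private theorem exists_closed_step {f : ℕ} (i : ℕ) (hcard : ∀ r, (Rr fed X st i r).card ≤ f) :
    ∃ r ≤ f, Rr fed X st i (r + 1) = Rr fed X st i r := by
  by_contra hcon
  push Not at hcon
  have h : ∀ r ≤ f + 1, r ≤ (Rr fed X st i r).card := by
    intro r
    induction r with
    | zero => intro _; exact Nat.zero_le _
    | succ r ih =>
      intro hr
      have h1 := ih (by omega)
      have h2 : Rr fed X st i r ⊂ Rr fed X st i (r + 1) :=
        (Rr_sub fed X st i r).ssubset_of_ne (fun h => hcon r (by omega) h.symm)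
      have h3 := card_lt_card h2
      omega
  have h1 := h (f + 1) le_rfl
  have h2 := hcard (f + 1)
  omega

end Closure

theorem stable_pair {W : Type} [Fintype W] [DecidableEq W] (fed : W → Finset W)
    (X : Finset W) (f : ℕ) (G : Finset ℕ) (st : ℕ → W → ℕ) (hst2 : ∀ i w, st i w ≤ 2)
    (hmono : ∀ i j, i ≤ j → ∀ w, st i w ≤ st j w)
    (hf : ∀ i ∈ G, ((X ∪ Finset.univ.filter (fun w => st i w = 1)).biUnion fed).card ≤ f)
    (hG : (2 * f + 1) ^ (f + 1) < G.card) :
    ∃ i ∈ G, ∃ j ∈ G, i < j ∧ ∃ R : Finset W, R.card ≤ f ∧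
      (∀ w ∈ R, st j w = 1 ∧ w ∈ (X ∪ R).biUnion fed) ∧
      (∀ w ∈ (X ∪ R).biUnion fed, st i w = st j w ∧ (st i w = 1 → w ∈ R)) := by
  classical
  have hfc : ∀ i ∈ G, ∀ r, ((X ∪ Rr fed X st i r).biUnion fed).card ≤ f := fun i hi r =>
    (card_le_card (fed_sub fed X st i r)).trans (hf i hi)
  have hRc : ∀ i ∈ G, ∀ r, (Rr fed X st i r).card ≤ f := fun i hi r =>
    (card_le_card (Rr_fed fed X st i r)).trans (hfc i hi r)
  let rho : ℕ → (Fin (f + 1) → ℕ) := fun i r =>
    ∑ w ∈ (X ∪ Rr fed X st i (r : ℕ)).biUnion fed, st i w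
  have hmaps : ∀ i ∈ G, rho i ∈ Fintype.piFinset (fun _ : Fin (f + 1) => range (2 * f + 1)) := by
    intro i hi
    rw [Fintype.mem_piFinset]
    intro r
    rw [mem_range]
    have h1 : rho i r ≤ ((X ∪ Rr fed X st i (r : ℕ)).biUnion fed).card * 2 :=
      sum_le_card_nsmul _ _ 2 (fun w _ => hst2 i w)
    have h2 := hfc i hi (r : ℕ)
    omega
  have hcard : (Fintype.piFinset (fun _ : Fin (f + 1) => range (2 * f + 1))).card < G.card := by
    rw [Fintype.card_piFinset]
    simpa using hG
  obtain ⟨i', hi', j', hj', hne, heq⟩ := exists_ne_map_eq_of_card_lt_of_maps_to hcard hmaps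
  obtain ⟨i, hi, j, hj, hij, heq⟩ :
      ∃ i ∈ G, ∃ j ∈ G, i < j ∧ rho i = rho j := by
    rcases lt_or_gt_of_ne hne with h | h
    · exact ⟨i', hi', j', hj', h, heq⟩
    · exact ⟨j', hj', i', hi', h, heq.symm⟩
  have hst : ∀ r ≤ f, Rr fed X st i r = Rr fed X st j r →
      ∀ w ∈ (X ∪ Rr fed X st i r).biUnion fed, st i w = st j w := by
    intro r hr hR
    have h1 : ∑ w ∈ (X ∪ Rr fed X st i r).biUnion fed, st i w =
        ∑ w ∈ (X ∪ Rr fed X st i r).biUnion fed, st j w := by
      have h2 := congrFun heq ⟨r, by omega⟩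
      simp only [rho] at h2
      rw [← hR] at h2
      exact h2
    exact (sum_eq_sum_iff_of_le (fun w _ => hmono i j hij.le w)).mp h1
  have hRR : ∀ r ≤ f, Rr fed X st i r = Rr fed X st j r := by
    intro r
    induction r with
    | zero => intro _; rfl
    | succ r ih =>
      intro hr
      have h1 := ih (by omega)
      have h2 := hst r (by omega) h1
      rw [Rr_succ, Rr_succ, ← h1]
      congr 1
      apply filter_congr
      intro w hw
      rw [h2 w hw]
  obtain ⟨r, hr, hclosed⟩ := exists_closed_step fed X st i (hRc i hi)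
  refine ⟨i, hi, j, hj, hij, Rr fed X st i r, hRc i hi r, ?_, ?_⟩
  · intro w hw
    refine ⟨?_, Rr_fed fed X st i r hw⟩
    rw [hRR r hr] at hw
    exact Rr_one fed X st j r w hw
  · intro w hw
    refine ⟨hst r hr (hRR r hr) w hw, fun h1 => ?_⟩
    rw [← hclosed, Rr_succ, mem_union, mem_filter]
    exact Or.inr ⟨hw, h1⟩

end Pool.Agent.Lib_MP_22d2c8_so
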